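import Mathlib

set_option autoImplicit false

/-! The model phase with derivative `y x^(-σ)`. -/

namespace Pool.Agent.H76.EP

open Real Finset

/-- rising factorial `σ (σ+1) ... (σ+j-1)` -/
noncomputable def rf (σ : ℝ) (j : ℕ) : ℝ := ∏ i ∈ range j, (σ + i)

lemma rf_pos {σ : ℝ} (hσ : 0 < σ) (j : ℕ) : 0 < rf σ j :=
  Finset.prod_pos fun i _ => by positivity

lemma rf_zero (σ : ℝ) : rf σ 0 = 1 := by simp [rf]

lemma rf_succ (σ : ℝ) (j : ℕ) : rf σ (j + 1) = rf σ j * (σ + j) := by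
  simp [rf, Finset.prod_range_succ]

/-- the model derivative -/
noncomputable def g0 (σ y x : ℝ) : ℝ := y * x ^ (-σ)

lemma iter_g0 (σ y : ℝ) (j : ℕ) : ∀ x : ℝ, 0 < x →
    iteratedDeriv j (g0 σ y) x = (-1) ^ j * rf σ j * y * x ^ (-σ - j) := by
  induction j with
  | zero => intro x _; simp [g0, rf_zero]
  | succ j ih =>
    intro x hx
    rw [iteratedDeriv_succ]
    have h1 : iteratedDeriv j (g0 σ y) =ᶠ[nhds x]
        fun x => (-1) ^ j * rf σ j * y * x ^ (-σ - j) := by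
      filter_upwards [Ioi_mem_nhds hx] with z hz
      exact ih z hz
    rw [h1.deriv_eq]
    have h2 : HasDerivAt (fun x : ℝ => (-1) ^ j * rf σ j * y * x ^ (-σ - j))
        ((-1) ^ j * rf σ j * y * ((-σ - j) * x ^ (-σ - j - 1))) x :=
      (Real.hasDerivAt_rpow_const (Or.inl hx.ne')).const_mul _
    rw [h2.deriv, rf_succ]
    push_cast
    rw [show -σ - (j : ℝ) - 1 = -σ - (j + 1) by ring]
    ring

/-- the model phase -/
noncomputable def f0 (σ y x : ℝ) : ℝ :=
  if σ = 1 then y * Real.log x else y * x ^ (1 - σ) / (1 - σ)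

lemma f0_hasDerivAt (σ y : ℝ) {x : ℝ} (hx : 0 < x) : HasDerivAt (f0 σ y) (g0 σ y x) x := by
  unfold g0
  by_cases h : σ = 1
  · have e : f0 σ y = fun x => y * Real.log x := by
      funext x; simp [f0, h]
    rw [e, h, Real.rpow_neg_one]
    exact (Real.hasDerivAt_log hx.ne').const_mul y
  · have h1 : (1 - σ) ≠ 0 := fun h2 => h (by linarith)
    have e : f0 σ y = fun x => y * x ^ (1 - σ) / (1 - σ) := by
      funext x; simp [f0, h]
    rw [e]
    have h2 : HasDerivAt (fun x : ℝ => y * x ^ (1 - σ) / (1 - σ))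
        (y * ((1 - σ) * x ^ (1 - σ - 1)) / (1 - σ)) x :=
      ((Real.hasDerivAt_rpow_const (Or.inl hx.ne')).const_mul y).div_const _
    convert h2 using 1
    rw [show 1 - σ - 1 = -σ by ring]
    field_simp

lemma f0_contDiffAt (σ y : ℝ) {x : ℝ} (hx : 0 < x) : ContDiffAt ℝ (⊤ : ℕ∞) (f0 σ y) x := by
  by_cases h : σ = 1
  · have e : f0 σ y = fun x => y * Real.log x := by
      funext x; simp [f0, h]
    rw [e]
    exact contDiffAt_const.mul (Real.contDiffAt_log.2 hx.ne')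
  · have e : f0 σ y = fun x => y * x ^ (1 - σ) / (1 - σ) := by
      funext x; simp [f0, h]
    rw [e]
    exact (contDiffAt_const.mul (Real.contDiffAt_rpow_const_of_ne hx.ne')).div_const _

lemma iter_f0 (σ y : ℝ) (j : ℕ) {x : ℝ} (hx : 0 < x) :
    iteratedDeriv (j + 1) (f0 σ y) x = (-1) ^ j * rf σ j * y * x ^ (-σ - j) := by
  rw [iteratedDeriv_succ']
  have h1 : deriv (f0 σ y) =ᶠ[nhds x] g0 σ y := by
    filter_upwards [Ioi_mem_nhds hx] with z hz
    exact (f0_hasDerivAt σ y hz).deriv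
  rw [h1.iteratedDeriv_eq j]
  exact iter_g0 σ y j x hx

/-- the inverse of the model derivative with `y = M (2N)^σ` -/
noncomputable def xx (σ M N t : ℝ) : ℝ := 2 * N * (M / t) ^ (1 / σ)

section

variable {σ M N : ℝ}

lemma g0_xx (hσ : 0 < σ) (hM : 0 < M) (hN : 0 < N) {t : ℝ} (ht : 0 < t) :
    g0 σ (M * (2 * N) ^ σ) (xx σ M N t) = t := by
  unfold g0 xx
  have h1 : (0 : ℝ) < M / t := by positivity
  rw [Real.mul_rpow (x := 2 * N) (y := (M / t) ^ (1 / σ)) (by positivity) (by positivity),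
    ← Real.rpow_mul h1.le,
    Real.rpow_neg (by positivity), show 1 / σ * -σ = -1 by field_simp, Real.rpow_neg_one, inv_div]
  have h2 : (0 : ℝ) < (2 * N) ^ σ := by positivity
  field_simp

lemma xx_pos (hM : 0 < M) (hN : 0 < N) {t : ℝ} (ht : 0 < t) : 0 < xx σ M N t := by
  unfold xx; positivity

lemma xx_anti (hσ : 0 < σ) (hM : 0 < M) (hN : 0 < N) {t u : ℝ} (ht : 0 < t) (htu : t ≤ u) :
    xx σ M N u ≤ xx σ M N t := by
  unfold xx
  have hu : 0 < u := by linarith
  apply mul_le_mul_of_nonneg_left _ (by positivity)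
  apply Real.rpow_le_rpow (by positivity) _ (by positivity)
  exact div_le_div_of_nonneg_left hM.le ht htu

lemma xx_le (hσ : 0 < σ) (hM : 0 < M) (hN : 0 < N) {t : ℝ} (ht : M ≤ t) :
    xx σ M N t ≤ 2 * N := by
  have := xx_anti hσ hM hN hM ht
  refine this.trans ?_
  unfold xx
  rw [div_self hM.ne', Real.one_rpow, mul_one]

lemma le_xx (hσ : 0 < σ) (hM : 0 < M) (hN : 0 < N) {t : ℝ} (ht0 : 0 < t)
    (ht : t ≤ 2 ^ σ * M) : N ≤ xx σ M N t := by
  have := xx_anti hσ hM hN ht0 ht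
  refine le_trans ?_ this
  unfold xx
  have h1 : M / (2 ^ σ * M) = (2 : ℝ) ^ (-σ) := by
    rw [Real.rpow_neg (by norm_num)]; field_simp
  rw [h1, ← Real.rpow_mul (by norm_num), show -σ * (1 / σ) = -1 by field_simp,
    Real.rpow_neg_one]
  linarith

/-- size of the second derivative of the model -/
lemma second_bounds (hσ : 0 < σ) (hM : 0 < M) (hN : 0 < N) {x : ℝ} (hx : N ≤ x)
    (hx2 : x ≤ 2 * N) :
    σ * M / (2 * N) ≤ σ * (M * (2 * N) ^ σ) * x ^ (-σ - 1) ∧
    σ * (M * (2 * N) ^ σ) * x ^ (-σ - 1) ≤ σ * 2 ^ σ * (M / N) := by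
  have hx0 : 0 < x := by linarith
  have hneg : -σ - 1 ≤ 0 := by linarith
  constructor
  · have h1 : (2 * N) ^ (-σ - 1) ≤ x ^ (-σ - 1) :=
      Real.rpow_le_rpow_of_nonpos hx0 hx2 hneg
    have h2 : σ * (M * (2 * N) ^ σ) * (2 * N) ^ (-σ - 1) = σ * M / (2 * N) := by
      rw [show -σ - 1 = -(σ + 1) by ring, Real.rpow_neg (by positivity),
        Real.rpow_add (by positivity), Real.rpow_one]
      have : (0 : ℝ) < (2 * N) ^ σ := by positivity
      field_simp
    rw [← h2]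
    exact mul_le_mul_of_nonneg_left h1 (by positivity)
  · have h1 : x ^ (-σ - 1) ≤ N ^ (-σ - 1) :=
      Real.rpow_le_rpow_of_nonpos hN hx hneg
    have h2 : σ * (M * (2 * N) ^ σ) * N ^ (-σ - 1) = σ * 2 ^ σ * (M / N) := by
      rw [show -σ - 1 = -(σ + 1) by ring, Real.rpow_neg (by positivity),
        Real.rpow_add (by positivity), Real.rpow_one, Real.mul_rpow (by norm_num) hN.le]
      have : (0 : ℝ) < N ^ σ := by positivity
      field_simp
    rw [← h2]
    exact mul_le_mul_of_nonneg_left h1 (by positivity)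

end

/-- two-sided mean value estimate -/
lemma mvt_two {g g' : ℝ → ℝ} {a b lo hi : ℝ}
    (hder : ∀ x ∈ Set.Icc a b, HasDerivAt g (g' x) x)
    (h1 : ∀ x ∈ Set.Icc a b, lo ≤ -g' x) (h2 : ∀ x ∈ Set.Icc a b, -g' x ≤ hi)
    {x z : ℝ} (hx : a ≤ x) (hxz : x ≤ z) (hz : z ≤ b) :
    lo * (z - x) ≤ g x - g z ∧ g x - g z ≤ hi * (z - x) := by
  rcases hxz.eq_or_lt with h | h
  · subst h; simp
  · obtain ⟨ξ, hξ, he⟩ := exists_hasDerivAt_eq_slope g g' h
      (fun t ht => (hder t ⟨by linarith [ht.1], by linarith [ht.2]⟩).continuousAt.continuousWithinAt)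
      (fun t ht => hder t ⟨by linarith [ht.1], by linarith [ht.2]⟩)
    have hzx : 0 < z - x := by linarith
    have e : g x - g z = (-g' ξ) * (z - x) := by
      rw [he]; field_simp; ring
    rw [e]
    have hmem : ξ ∈ Set.Icc a b := ⟨by linarith [hξ.1], by linarith [hξ.2]⟩
    exact ⟨mul_le_mul_of_nonneg_right (h1 ξ hmem) hzx.le,
      mul_le_mul_of_nonneg_right (h2 ξ hmem) hzx.le⟩

end Pool.Agent.H76.EP
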