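import Mathlib

/-!
# Metric Lie groups on `ℝ³`, mean curvature of level surfaces, leaves

Definitions used in the hand-in for `MP_c71f82_gt` (CMC foliations of three-dimensional metric
Lie groups).
-/

open scoped ContDiff Matrix

namespace Pool.H76.CMC

/-- The manifold `ℝ³`. -/
abbrev R3 : Type := Fin 3 → ℝ

/-- The `i`-th partial derivative at `p` of a real function on `ℝ³`. -/
noncomputable def pd (i : Fin 3) (F : R3 → ℝ) (p : R3) : ℝ := fderiv ℝ F p (Pi.single i 1)

/-- The differential of `f` at `p`, as the vector of its three coordinate derivatives. -/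
noncomputable def partials (f : R3 → ℝ) (p : R3) : R3 := fun i => pd i f p

/-- A metric Lie group with underlying manifold `ℝ³`: a smooth group structure on `ℝ³` together
with a smooth Riemannian metric `g` on `ℝ³` (a field of symmetric positive definite matrices, in
the standard coordinates) that is invariant under every left translation.  Since `ℝ³` is simply
connected, it is a simply connected three-dimensional metric Lie group. -/
structure MetricLieGroup where
  /-- the group multiplication -/
  mul : R3 → R3 → R3
  /-- the neutral element -/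
  one : R3
  /-- the inverse -/
  inv : R3 → R3
  mul_assoc : ∀ a b c, mul (mul a b) c = mul a (mul b c)
  one_mul : ∀ a, mul one a = a
  mul_one : ∀ a, mul a one = a
  inv_mul : ∀ a, mul (inv a) a = one
  /-- multiplication is smooth -/
  contDiff_mul : ContDiff ℝ ∞ (fun ab : R3 × R3 => mul ab.1 ab.2)
  /-- inversion is smooth -/
  contDiff_inv : ContDiff ℝ ∞ inv
  /-- the Riemannian metric: `g p i j = ⟨∂ᵢ, ∂ⱼ⟩` at `p` -/
  g : R3 → Matrix (Fin 3) (Fin 3) ℝ
  /-- the metric is smooth -/
  contDiff_g : ∀ i j, ContDiff ℝ ∞ (fun p => g p i j)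
  /-- the metric is symmetric and positive definite -/
  posDef_g : ∀ p, (g p).PosDef
  /-- the left translation `q ↦ a * q` is an isometry: its differential at `p` preserves inner
  products of tangent vectors -/
  left_invariant : ∀ a p v w : R3,
    (fderiv ℝ (mul a) p v) ⬝ᵥ (g (mul a p) *ᵥ (fderiv ℝ (mul a) p w)) = v ⬝ᵥ (g p *ᵥ w)

namespace MetricLieGroup

variable (X : MetricLieGroup)

/-- The Riemannian gradient of `f`: `(∇f)ⁱ = ∑ⱼ gⁱʲ ∂ⱼf`. -/
noncomputable def grad (f : R3 → ℝ) (p : R3) : R3 := (X.g p)⁻¹ *ᵥ partials f p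

/-- The Riemannian norm of a tangent vector `v` at `p`. -/
noncomputable def norm (p v : R3) : ℝ := Real.sqrt (v ⬝ᵥ (X.g p *ᵥ v))

/-- The unit normal field `∇f / |∇f|` of the level surfaces of `f`. -/
noncomputable def unitNormal (f : R3 → ℝ) (p : R3) : R3 :=
  (X.norm p (X.grad f p))⁻¹ • X.grad f p

/-- The Riemannian divergence of a vector field `V`:
`div V = (det g)^{-1/2} ∑ᵢ ∂ᵢ ((det g)^{1/2} Vⁱ)`. -/
noncomputable def div (V : R3 → R3) (p : R3) : ℝ :=
  (Real.sqrt (X.g p).det)⁻¹ * ∑ i, pd i (fun q => Real.sqrt (X.g q).det * V q i) p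

/-- The mean curvature at `p` (average of the two principal curvatures) of the level surface of
`f` through `p`, with respect to the unit normal field `N = ∇f / |∇f|`: `H = - (1/2) div N`. -/
noncomputable def meanCurv (f : R3 → ℝ) (p : R3) : ℝ :=
  -(1 / 2) * X.div (X.unitNormal f) p

end MetricLieGroup

/-- The leaf through `p` of the foliation of `ℝ³` defined by a submersion `f : ℝ³ → ℝ`: the
connected component of the level set `{q | f q = f p}` containing `p`. -/
def leaf (f : R3 → ℝ) (p : R3) : Set R3 := connectedComponentIn {q | f q = f p} p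

/-- `f` is a smooth submersion `ℝ³ → ℝ`. -/
def IsSubmersion (f : R3 → ℝ) : Prop := ContDiff ℝ ∞ f ∧ ∀ p, fderiv ℝ f p ≠ 0

/-- The foliation of `ℝ³` by the connected components of the level sets of `f` is a CMC foliation
of `X`: `f` is a smooth submersion and the mean curvature is constant on every leaf. -/
def IsCMCFoliation (X : MetricLieGroup) (f : R3 → ℝ) : Prop :=
  IsSubmersion f ∧ ∀ p, ∀ q ∈ leaf f p, X.meanCurv f q = X.meanCurv f p

/-- The foliation by the connected components of the level sets of `f` is, up to homeomorphism, a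
product foliation by planes: some homeomorphism `ℝ³ → ℝ² × ℝ` carries its leaves onto the slices
`ℝ² × {t}`.  (A product foliation by planes, where a diffeomorphism is asked for, has this
property.) -/
def IsTopologicalProduct (f : R3 → ℝ) : Prop :=
  ∃ Ψ : R3 ≃ₜ ((Fin 2 → ℝ) × ℝ), ∀ p q, q ∈ leaf f p ↔ (Ψ q).2 = (Ψ p).2

end Pool.H76.CMC
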