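import Pool.Agent.H76.CMCPlane
import Pool.Agent.H76.CMCDefs

/-!
# The metric Lie group and the foliation
-/

open scoped ContDiff Topology Matrix
open Set Filter

namespace Pool.H76.CMC

/-- The linear part of left translation by `a`. -/
noncomputable def Llin (a : R3) : R3 →L[ℝ] R3 :=
  ContinuousLinearMap.pi fun i =>
    (![Real.exp (5 * a 2), Real.exp (-a 2), 1] i) • ContinuousLinearMap.proj (R := ℝ) i

theorem Llin_apply (a v : R3) (i : Fin 3) :
    Llin a v i = (![Real.exp (5 * a 2), Real.exp (-a 2), 1] i) * v i := by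
  simp [Llin]

/-- The multiplication of `ℝ² ⋊ ℝ`, `A = diag(5,-1)`. -/
noncomputable def mulG (a b : R3) : R3 := a + Llin a b

theorem mulG_apply (a b : R3) (i : Fin 3) :
    mulG a b i = a i + (![Real.exp (5 * a 2), Real.exp (-a 2), 1] i) * b i := by
  simp [mulG, Llin_apply]

/-- The inversion. -/
noncomputable def invG (a : R3) : R3 :=
  ![-(Real.exp (-(5 * a 2)) * a 0), -(Real.exp (a 2) * a 1), -a 2]

/-- The metric. -/
noncomputable def gG (p : R3) : Matrix (Fin 3) (Fin 3) ℝ :=
  Matrix.diagonal ![Real.exp (-(10 * p 2)), Real.exp (2 * p 2), 1]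

theorem fderiv_mulG (a p : R3) : fderiv ℝ (mulG a) p = Llin a := by
  have : HasFDerivAt (mulG a) (Llin a) p := ((Llin a).hasFDerivAt (x := p)).const_add a
  exact this.fderiv

/-- The metric Lie group `ℝ² ⋊ ℝ`, `A = diag(5,-1)`. -/
noncomputable def XG : MetricLieGroup where
  mul := mulG
  one := 0
  inv := invG
  mul_assoc a b c := by
    funext i
    have h2 : mulG a b 2 = a 2 + b 2 := by simp [mulG_apply]
    rw [mulG_apply (mulG a b) c, mulG_apply a (mulG b c), h2, mulG_apply a b, mulG_apply b c]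
    fin_cases i
    · simp only [Fin.zero_eta, Matrix.cons_val_zero]
      rw [mul_add, Real.exp_add]
      ring
    · simp only [Fin.mk_one, Matrix.cons_val_one, Matrix.cons_val_zero]
      rw [neg_add, Real.exp_add]
      ring
    · simp
      ring
  one_mul a := by
    funext i
    rw [mulG_apply]
    fin_cases i <;> simp
  mul_one a := by
    funext i
    rw [mulG_apply]
    simp
  inv_mul a := by
    funext i
    rw [mulG_apply]
    fin_cases i
    · simp [invG]
    · simp [invG]
    · simp [invG]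
  contDiff_mul := by
    rw [contDiff_pi]
    intro i
    simp only [mulG_apply]
    apply ContDiff.add (by fun_prop)
    apply ContDiff.mul _ (by fun_prop)
    fin_cases i
    · simp only [Fin.zero_eta, Matrix.cons_val_zero]
      fun_prop
    · simp only [Fin.mk_one, Matrix.cons_val_one, Matrix.cons_val_zero]
      fun_prop
    · simp only [Fin.reduceFinMk, Matrix.cons_val]
      fun_prop
  contDiff_inv := by
    rw [contDiff_pi]
    intro i
    fin_cases i
    · simp only [invG, Fin.zero_eta, Matrix.cons_val_zero]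
      fun_prop
    · simp only [invG, Fin.mk_one, Matrix.cons_val_one, Matrix.cons_val_zero]
      fun_prop
    · simp only [invG, Fin.reduceFinMk, Matrix.cons_val]
      fun_prop
  g := gG
  contDiff_g i j := by
    unfold gG
    rcases eq_or_ne i j with h | h
    · subst h
      simp only [Matrix.diagonal_apply_eq]
      fin_cases i
      · simp only [Fin.zero_eta, Matrix.cons_val_zero]
        fun_prop
      · simp only [Fin.mk_one, Matrix.cons_val_one, Matrix.cons_val_zero]
        fun_prop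
      · simp only [Fin.reduceFinMk, Matrix.cons_val]
        fun_prop
    · simp only [Matrix.diagonal_apply_ne _ h]
      fun_prop
  posDef_g p := by
    unfold gG
    rw [Matrix.posDef_diagonal_iff]
    intro i
    fin_cases i
    · simp [Real.exp_pos]
    · simp [Real.exp_pos]
    · simp
  left_invariant a p v w := by
    rw [fderiv_mulG]
    unfold gG
    have h2 : mulG a p 2 = a 2 + p 2 := by simp [mulG_apply]
    simp only [dotProduct, Matrix.mulVec_diagonal, Llin_apply, Fin.sum_univ_three, h2,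
      Matrix.cons_val_zero, Matrix.cons_val_one, Matrix.cons_val]
    have e1 : Real.exp (5 * a 2) * Real.exp (-(10 * (a 2 + p 2))) * Real.exp (5 * a 2) =
        Real.exp (-(10 * p 2)) := by
      rw [← Real.exp_add, ← Real.exp_add]
      congr 1
      ring
    have e2 : Real.exp (-a 2) * Real.exp (2 * (a 2 + p 2)) * Real.exp (-a 2) =
        Real.exp (2 * p 2) := by
      rw [← Real.exp_add, ← Real.exp_add]
      congr 1
      ring
    linear_combination (v 0 * w 0) * e1 + (v 1 * w 1) * e2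

/-- The map to the `(y,η)` half plane, `η = e^{-z}`. -/
noncomputable def Phi (p : R3) : ℝ × ℝ := (p 1, Real.exp (-p 2))

theorem Phi_snd_pos (p : R3) : 0 < (Phi p).2 := Real.exp_pos _

theorem contDiff_Phi : ContDiff ℝ ∞ Phi := by
  unfold Phi
  fun_prop

theorem hasFDerivAt_Phi (p : R3) : HasFDerivAt Phi
    ((ContinuousLinearMap.proj (R := ℝ) (φ := fun _ : Fin 3 => ℝ) 1).prod
      ((-Real.exp (-p 2)) • ContinuousLinearMap.proj (R := ℝ) (φ := fun _ : Fin 3 => ℝ) 2)) p := by
  have h1 : HasFDerivAt (fun p : R3 => p 1)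
      (ContinuousLinearMap.proj (R := ℝ) (φ := fun _ : Fin 3 => ℝ) 1) p :=
    (ContinuousLinearMap.proj (R := ℝ) (φ := fun _ : Fin 3 => ℝ) 1).hasFDerivAt
  have h2 : HasFDerivAt (fun p : R3 => p 2)
      (ContinuousLinearMap.proj (R := ℝ) (φ := fun _ : Fin 3 => ℝ) 2) p :=
    (ContinuousLinearMap.proj (R := ℝ) (φ := fun _ : Fin 3 => ℝ) 2).hasFDerivAt
  have h3 : HasFDerivAt (fun p : R3 => Real.exp (-p 2))
      (Real.exp (-p 2) • -(ContinuousLinearMap.proj (R := ℝ) (φ := fun _ : Fin 3 => ℝ) 2)) p :=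
    h2.neg.exp
  have h4 := h1.prodMk h3
  refine h4.congr_fderiv ?_
  ext v
  · simp
  · simp

/-- Partial derivatives of a function of `(y,η)`. -/
theorem pd_comp {G : ℝ × ℝ → ℝ} {p : R3} (hG : DifferentiableAt ℝ G (Phi p)) (i : Fin 3) :
    pd i (fun q => G (Phi q)) p =
      (![0, fderiv ℝ G (Phi p) (1, 0), -((Phi p).2 * fderiv ℝ G (Phi p) (0, 1))] i) := by
  have h1 := HasFDerivAt.comp (f := Phi) (g := G) p hG.hasFDerivAt (hasFDerivAt_Phi p)
  unfold pd
  have h2 : HasFDerivAt (fun q => G (Phi q)) _ p := h1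
  rw [h2.fderiv]
  simp only [ContinuousLinearMap.comp_apply, ContinuousLinearMap.prod_apply,
    ContinuousLinearMap.proj_apply, _root_.smul_apply]
  fin_cases i
  · simp
    exact map_zero (fderiv ℝ G (Phi p))
  · simp
  · simp only [Fin.reduceFinMk, Matrix.cons_val]
    have : ((Pi.single (2 : Fin 3) (1 : ℝ) : Fin 3 → ℝ) 1,
        -Real.exp (-p 2) • (Pi.single (2 : Fin 3) (1 : ℝ) : Fin 3 → ℝ) 2) =
        (-(Phi p).2) • ((0 : ℝ), (1 : ℝ)) := by
      simp [Phi]
    rw [this, map_smul]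
    simp

/-- The defining submersion of the counterexample. -/
noncomputable def fG (p : R3) : ℝ := ph (Phi p)

theorem contDiff_fG : ContDiff ℝ ∞ fG := by
  rw [contDiff_iff_contDiffAt]
  intro p
  exact ContDiffAt.comp (f := Phi) (g := ph) p (contDiffAt_ph (Phi_snd_pos p))
    contDiff_Phi.contDiffAt

theorem partials_fG (p : R3) :
    partials fG p = ![0, phy (Phi p), -((Phi p).2 * phη (Phi p))] := by
  funext i
  exact pd_comp ((contDiffAt_ph (Phi_snd_pos p)).differentiableAt (by simp)) i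

theorem fderiv_fG_ne (p : R3) : fderiv ℝ fG p ≠ 0 := by
  intro h
  have h1 : partials fG p 2 = 0 := by
    unfold partials pd
    rw [h]; rfl
  rw [partials_fG] at h1
  simp only [Matrix.cons_val] at h1
  have h2 : phη (Phi p) < 0 := ph_η_neg (Phi_snd_pos p)
  have h3 := mul_pos_of_neg_of_neg (neg_neg_of_pos (Phi_snd_pos p)) h2
  linarith

theorem gG_inv (p : R3) : (gG p)⁻¹ =
    Matrix.diagonal ![Real.exp (10 * p 2), Real.exp (-(2 * p 2)), 1] := by
  apply Matrix.inv_eq_right_inv
  unfold gG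
  rw [Matrix.diagonal_mul_diagonal]
  rw [← Matrix.diagonal_one]
  congr 1
  funext i
  fin_cases i
  · simp [← Real.exp_add]
  · simp [← Real.exp_add]
  · simp

theorem grad_fG (p : R3) : XG.grad fG p =
    ![0, (Phi p).2 ^ 2 * phy (Phi p), -((Phi p).2 * phη (Phi p))] := by
  unfold MetricLieGroup.grad
  rw [partials_fG]
  change (gG p)⁻¹ *ᵥ _ = _
  rw [gG_inv]
  funext i
  rw [Matrix.mulVec_diagonal]
  fin_cases i
  · simp
  · simp only [Fin.mk_one, Matrix.cons_val_one, Matrix.cons_val_zero]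
    have : Real.exp (-(2 * p 2)) = (Phi p).2 ^ 2 := by
      unfold Phi
      rw [← Real.exp_nat_mul]
      congr 1
      push_cast
      ring
    rw [this]
  · simp

theorem norm_grad_fG (p : R3) : XG.norm p (XG.grad fG p) = (Phi p).2 * DD (Phi p) := by
  unfold MetricLieGroup.norm
  rw [grad_fG]
  change √(_ ⬝ᵥ (gG p *ᵥ _)) = _
  unfold gG
  simp only [dotProduct, Matrix.mulVec_diagonal, Fin.sum_univ_three,
      Matrix.cons_val_zero, Matrix.cons_val_one, Matrix.cons_val]
  have hη := Phi_snd_pos p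
  have e : Real.exp (2 * p 2) * (Phi p).2 ^ 2 = 1 := by
    unfold Phi
    rw [← Real.exp_nat_mul, ← Real.exp_add]
    simp
  have e2 : (0 : ℝ) * (Real.exp (-(10 * p 2)) * 0) + (Phi p).2 ^ 2 * phy (Phi p) *
      (Real.exp (2 * p 2) * ((Phi p).2 ^ 2 * phy (Phi p))) +
      -((Phi p).2 * phη (Phi p)) * (1 * -((Phi p).2 * phη (Phi p))) =
      (Phi p).2 ^ 2 * (phy (Phi p) ^ 2 + phη (Phi p) ^ 2) := by
    linear_combination ((Phi p).2 ^ 2 * phy (Phi p) ^ 2) * e
  rw [e2, Real.sqrt_mul (by positivity), Real.sqrt_sq hη.le]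
  rfl

theorem sqrt_det (p : R3) : √(XG.g p).det = (Phi p).2 ^ 4 := by
  change √(gG p).det = _
  unfold gG
  rw [Matrix.det_diagonal]
  simp only [Fin.prod_univ_three, Matrix.cons_val_zero, Matrix.cons_val_one, Matrix.cons_val]
  have : Real.exp (-(10 * p 2)) * Real.exp (2 * p 2) * 1 = ((Phi p).2 ^ 4) ^ 2 := by
    unfold Phi
    rw [mul_one, ← Real.exp_add, ← Real.exp_nat_mul, ← Real.exp_nat_mul]
    congr 1
    push_cast
    ring
  rw [this, Real.sqrt_sq (by positivity)]

theorem density_normal (p : R3) (i : Fin 3) :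
    √(XG.g p).det * XG.unitNormal fG p i = (![0, aV (Phi p), bV (Phi p)] i) := by
  rw [sqrt_det]
  unfold MetricLieGroup.unitNormal
  rw [norm_grad_fG, grad_fG]
  have hη := Phi_snd_pos p
  have hD := DD_pos hη
  fin_cases i
  · simp
  · simp only [Fin.mk_one, Pi.smul_apply, Matrix.cons_val_one, Matrix.cons_val_zero, smul_eq_mul]
    unfold aV
    field_simp
  · simp only [Fin.reduceFinMk, Pi.smul_apply, Matrix.cons_val, smul_eq_mul]
    unfold bV
    field_simp

/-- The mean curvature of the level surfaces of `f` is `2 f`. -/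
theorem meanCurv_fG (p : R3) : XG.meanCurv fG p = 2 * fG p := by
  unfold MetricLieGroup.meanCurv MetricLieGroup.div
  rw [sqrt_det]
  have hη := Phi_snd_pos p
  have h0 : pd 0 (fun q => √(XG.g q).det * XG.unitNormal fG q 0) p = 0 := by
    have : (fun q => √(XG.g q).det * XG.unitNormal fG q 0) = fun _ => (0 : ℝ) := by
      funext q
      rw [density_normal]
      simp
    rw [this]
    simp [pd]
  have h1 : pd 1 (fun q => √(XG.g q).det * XG.unitNormal fG q 1) p =
      fderiv ℝ aV (Phi p) (1, 0) := by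
    have : (fun q => √(XG.g q).det * XG.unitNormal fG q 1) = fun q => aV (Phi q) := by
      funext q
      rw [density_normal]
      simp
    rw [this, pd_comp ((contDiffAt_aV hη).differentiableAt (by simp)) 1]
    simp
  have h2 : pd 2 (fun q => √(XG.g q).det * XG.unitNormal fG q 2) p =
      -((Phi p).2 * fderiv ℝ bV (Phi p) (0, 1)) := by
    have : (fun q => √(XG.g q).det * XG.unitNormal fG q 2) = fun q => bV (Phi q) := by
      funext q
      rw [density_normal]
      simp
    rw [this, pd_comp ((contDiffAt_bV hη).differentiableAt (by simp)) 2]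
    simp
  rw [Fin.sum_univ_three, h0, h1, h2]
  have h3 := plane_eq hη
  have h4 : (0 : ℝ) + fderiv ℝ aV (Phi p) (1, 0) + -((Phi p).2 * fderiv ℝ bV (Phi p) (0, 1)) =
      -(4 * (Phi p).2 ^ 4 * ph (Phi p)) := by
    rw [← h3]; ring
  rw [h4]
  unfold fG
  field_simp
  ring

/-! ### The foliation is not a product -/

theorem fG_eq_of {p : R3} {h : ℝ} (h0 : 1 / 2 < h) (h1 : h < 1)
    (hρ : sg h / (Phi p).2 ≤ 1) (hR : RR h (sg h / (Phi p).2) = |(Phi p).1| / (Phi p).2) :
    fG p = h := by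
  unfold fG
  apply ph_unique (Phi_snd_pos p) h0 h1
  unfold TT
  rw [SS_of_le hρ, hR]

/-- The level `3/4` does not meet `{y = 0}`. -/
theorem ne_zero_of_level {p : R3} (hp : fG p = 3 / 4) : p 1 ≠ 0 := by
  intro hy
  obtain ⟨a1, a2, a3, a4, a5⟩ := ph_rel (Phi_snd_pos p)
  have h1 : ph (Phi p) = 3 / 4 := hp
  rw [h1, sg_eq_zero le_rfl, zero_div, RR_zero] at a5
  have h2 : (Phi p).1 = 0 := hy
  rw [h2, abs_zero, zero_div] at a5
  have h3 : FF 0 < FF (3 / 4) :=
    FF_strictMonoOn ⟨le_rfl, by norm_num⟩ ⟨by norm_num, by norm_num⟩ (by norm_num)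
  rw [a5] at h3
  simp [FF] at h3

/-- A point of the level curve `h` at height `η = e^{-z}`. -/
noncomputable def curvePt (s h z : ℝ) : R3 :=
  ![0, s * (Real.exp (-z) * RR h (sg h / Real.exp (-z))), z]

theorem Phi_curvePt (s h z : ℝ) :
    Phi (curvePt s h z) = (s * (Real.exp (-z) * RR h (sg h / Real.exp (-z))), Real.exp (-z)) := by
  simp [Phi, curvePt]

theorem fG_curvePt {s h z : ℝ} (hs : |s| = 1) (h0 : 1 / 2 < h) (h1 : h < 1)
    (hρ : sg h ≤ Real.exp (-z)) : fG (curvePt s h z) = h := by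
  have hη : 0 < Real.exp (-z) := Real.exp_pos _
  have h2 : 0 ≤ sg h / Real.exp (-z) := div_nonneg (sg_nonneg h0) hη.le
  have h3 : sg h / Real.exp (-z) ≤ 1 := by rw [div_le_one hη]; exact hρ
  have h4 : 0 ≤ RR h (sg h / Real.exp (-z)) := by
    rcases eq_or_lt_of_le h3 with h5 | h5
    · rw [h5, RR_one]
    · exact (RR_pos h0.le h1 h2 h5).le
  apply fG_eq_of h0 h1
  · rw [Phi_curvePt]; exact h3
  · rw [Phi_curvePt]
    simp only
    rw [abs_mul, hs, one_mul, abs_of_nonneg (by positivity)]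
    field_simp

theorem continuousOn_curvePt (s : ℝ) {h z₀ : ℝ} (h0 : 1 / 2 < h) (h1 : h < 1)
    (hz₀ : sg h ≤ Real.exp (-z₀)) : ContinuousOn (curvePt s h) (Iic z₀) := by
  rw [continuousOn_pi]
  have hR : ContinuousOn (fun z => RR h (sg h / Real.exp (-z))) (Iic z₀) := by
    apply (continuousOn_RR (show 0 < h by linarith) h1).comp
    · apply ContinuousOn.div (by fun_prop) (by fun_prop)
      intro z _
      exact (Real.exp_pos _).ne'
    · intro z hz
      have hη : 0 < Real.exp (-z) := Real.exp_pos _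
      refine ⟨div_nonneg (sg_nonneg h0) hη.le, ?_⟩
      rw [div_le_one hη]
      refine hz₀.trans (Real.exp_le_exp.2 ?_)
      rw [mem_Iic] at hz
      linarith
  intro i
  fin_cases i
  · simp only [curvePt, Fin.zero_eta, Matrix.cons_val_zero]
    fun_prop
  · simp only [curvePt, Fin.mk_one, Matrix.cons_val_one, Matrix.cons_val_zero]
    apply ContinuousOn.mul (by fun_prop)
    exact ContinuousOn.mul (by fun_prop) hR
  · simp only [curvePt, Fin.reduceFinMk, Matrix.cons_val]
    fun_prop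

/-- For `1/2 < h < 3/4` with `σ(h) ≤ 1` the two points of the level curve `h` at height `η = 1`
lie on the same leaf. -/
theorem mem_leaf {h : ℝ} (h0 : 1 / 2 < h) (h1 : h < 3 / 4) (hs : sg h ≤ 1) :
    curvePt 1 h 0 ∈ leaf fG (curvePt (-1) h 0) := by
  have hpos := sg_pos h0 h1
  set z₀ := -Real.log (sg h) with hz₀
  have hez : Real.exp (-z₀) = sg h := by rw [hz₀, neg_neg, Real.exp_log hpos]
  have hz0 : 0 ≤ z₀ := by
    rw [hz₀]
    have := Real.log_nonpos hpos.le hs
    linarith
  have hc : ∀ s : ℝ, ContinuousOn (curvePt s h) (Icc 0 z₀) := fun s =>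
    (continuousOn_curvePt s h0 (by linarith) (z₀ := z₀) hez.ge).mono Icc_subset_Iic_self
  have hpc : ∀ s : ℝ, IsPreconnected (curvePt s h '' Icc 0 z₀) := fun s =>
    isPreconnected_Icc.image _ (hc s)
  have hsub : ∀ s : ℝ, |s| = 1 → curvePt s h '' Icc 0 z₀ ⊆ {q | fG q = h} := by
    rintro s hs' _ ⟨z, hz, rfl⟩
    apply fG_curvePt hs' h0 (by linarith)
    rw [← hez]
    exact Real.exp_le_exp.2 (by linarith [hz.2])
  have hcommon : curvePt 1 h z₀ = curvePt (-1) h z₀ := by
    unfold curvePt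
    rw [hez, div_self hpos.ne', RR_one]
    simp
  have hun : IsPreconnected (curvePt (-1) h '' Icc 0 z₀ ∪ curvePt 1 h '' Icc 0 z₀) := by
    apply IsPreconnected.union (curvePt 1 h z₀)
    · exact ⟨z₀, ⟨hz0, le_rfl⟩, hcommon.symm⟩
    · exact ⟨z₀, ⟨hz0, le_rfl⟩, rfl⟩
    · exact hpc _
    · exact hpc _
  have hval : fG (curvePt (-1) h 0) = h := by
    apply hsub (-1) (by simp)
    exact ⟨0, ⟨le_rfl, hz0⟩, rfl⟩
  unfold leaf
  rw [hval]
  apply hun.subset_connectedComponentIn (x := curvePt (-1) h 0)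
  · left; exact ⟨0, ⟨le_rfl, hz0⟩, rfl⟩
  · apply union_subset
    · exact hsub (-1) (by simp)
    · exact hsub 1 (by simp)
  · right; exact ⟨0, ⟨le_rfl, hz0⟩, rfl⟩

theorem not_mem_leaf : curvePt 1 (3 / 4) 0 ∉ leaf fG (curvePt (-1) (3 / 4) 0) := by
  intro hmem
  have hs : sg (3 / 4) = 0 := sg_eq_zero le_rfl
  have hval : fG (curvePt (-1) (3 / 4) 0) = 3 / 4 := by
    apply fG_curvePt (by simp) (by norm_num) (by norm_num)
    rw [hs]; positivity
  have hF : 0 < FF (3 / 4) := by
    have := FF_strictMonoOn (a := 0) (b := 3 / 4) ⟨le_rfl, by norm_num⟩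
      ⟨by norm_num, by norm_num⟩ (by norm_num)
    simpa [FF] using this
  unfold leaf at hmem
  rw [hval] at hmem
  have hpre : IsPreconnected (connectedComponentIn {q | fG q = 3 / 4} (curvePt (-1) (3 / 4) 0)) :=
    isPreconnected_connectedComponentIn
  have hself : curvePt (-1) (3 / 4) 0 ∈
      connectedComponentIn {q | fG q = 3 / 4} (curvePt (-1) (3 / 4) 0) :=
    mem_connectedComponentIn hval
  have h0 : (0 : ℝ) ∈ (fun q : R3 => q 1) ''
      connectedComponentIn {q | fG q = 3 / 4} (curvePt (-1) (3 / 4) 0) := by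
    apply hpre.intermediate_value hself hmem (by fun_prop)
    constructor
    · simp only [curvePt, Matrix.cons_val_one, Matrix.cons_val_zero, neg_zero, Real.exp_zero,
        hs, zero_div, RR_zero]
      linarith
    · simp only [curvePt, Matrix.cons_val_one, Matrix.cons_val_zero, neg_zero, Real.exp_zero,
        hs, zero_div, RR_zero]
      linarith
  obtain ⟨q, hq, hq0⟩ := h0
  exact ne_zero_of_level (connectedComponentIn_subset {q | fG q = 3 / 4} _ hq) hq0

theorem continuousAt_curvePt_h (s : ℝ) :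
    ContinuousAt (fun h => curvePt s h 0) (3 / 4) := by
  rw [continuousAt_pi]
  have hd : ((3 / 4 : ℝ), (0 : ℝ)) ∈ domW :=
    mem_domW (by norm_num) (by norm_num) le_rfl zero_le_one
  have hW : ContinuousAt (Function.uncurry WW) ((3 / 4 : ℝ), (0 : ℝ)) :=
    contDiffOn_WW.continuousOn.continuousAt (isOpen_domW.mem_nhds hd)
  have hsg : ContinuousAt sg (3 / 4) := (contDiffAt_sg (by norm_num)).continuousAt
  have hcur : ContinuousAt (fun h : ℝ => (h, sg h)) (3 / 4) := continuousAt_id.prodMk hsg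
  have hW2 : ContinuousAt (fun h : ℝ => WW h (sg h)) (3 / 4) := by
    apply ContinuousAt.comp (f := fun h : ℝ => (h, sg h)) (g := Function.uncurry WW) _ hcur
    rw [sg_eq_zero le_rfl]
    exact hW
  have hR : ContinuousAt (fun h : ℝ => RR h (sg h)) (3 / 4) := by
    unfold RR
    exact (continuousAt_const.sub hsg).sqrt.mul hW2
  intro i
  fin_cases i
  · simp only [curvePt, Fin.zero_eta, Matrix.cons_val_zero]
    fun_prop
  · simp only [curvePt, Fin.mk_one, Matrix.cons_val_one, Matrix.cons_val_zero, neg_zero,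
      Real.exp_zero, div_one, one_mul]
    exact continuousAt_const.mul hR
  · simp only [curvePt, Fin.reduceFinMk, Matrix.cons_val]
    fun_prop

theorem not_topologicalProduct : ¬ IsTopologicalProduct fG := by
  rintro ⟨Ψ, hΨ⟩
  apply not_mem_leaf
  rw [hΨ]
  have hc : ∀ s : ℝ, ContinuousAt (fun h => (Ψ (curvePt s h 0)).2) (3 / 4) := fun s =>
    continuous_snd.continuousAt.comp (Ψ.continuous.continuousAt.comp (continuousAt_curvePt_h s))
  have hsg : ContinuousAt sg (3 / 4) := (contDiffAt_sg (by norm_num)).continuousAt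
  have hev : ∀ᶠ h in 𝓝[<] (3 / 4 : ℝ),
      (Ψ (curvePt 1 h 0)).2 = (Ψ (curvePt (-1) h 0)).2 := by
    have e1 : ∀ᶠ h in 𝓝[<] (3 / 4 : ℝ), h < 3 / 4 := self_mem_nhdsWithin
    have e2 : ∀ᶠ h in 𝓝[<] (3 / 4 : ℝ), 1 / 2 < h :=
      nhdsWithin_le_nhds (lt_mem_nhds (by norm_num))
    have e4 : ∀ᶠ h in 𝓝 (3 / 4 : ℝ), sg h < 1 :=
      hsg.eventually (gt_mem_nhds (by rw [sg_eq_zero le_rfl]; norm_num))
    have e3 : ∀ᶠ h in 𝓝[<] (3 / 4 : ℝ), sg h < 1 := nhdsWithin_le_nhds e4
    filter_upwards [e1, e2, e3] with h h1 h2 h3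
    exact (hΨ _ _).1 (mem_leaf h2 h1 h3.le)
  have t1 := (hc 1).tendsto.mono_left (nhdsWithin_le_nhds (s := Iio (3 / 4)))
  have t2 := (hc (-1)).tendsto.mono_left (nhdsWithin_le_nhds (s := Iio (3 / 4)))
  exact tendsto_nhds_unique (t1.congr' hev) t2

/-- The CMC foliation. -/
theorem isCMCFoliation_fG : IsCMCFoliation XG fG := by
  refine ⟨⟨contDiff_fG, fderiv_fG_ne⟩, ?_⟩
  intro p q hq
  rw [meanCurv_fG, meanCurv_fG]
  have : fG q = fG p := connectedComponentIn_subset {q | fG q = fG p} _ hq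
  rw [this]

end Pool.H76.CMC
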