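import Pool.Agent.H76.CMCProfile

/-!
# The defining function `φ(y,η)` of the foliation
-/

open scoped ContDiff Topology
open Set Filter

namespace Pool.H76.CMC

/-- The size `σ(h)` of the curve of level `h`. -/
noncomputable def sg (h : ℝ) : ℝ := expNegInvGlue (3 / 4 - h) / (h - 1 / 2)

theorem sg_nonneg {h : ℝ} (h0 : 1 / 2 < h) : 0 ≤ sg h :=
  div_nonneg (expNegInvGlue.nonneg _) (by linarith)

theorem sg_pos {h : ℝ} (h0 : 1 / 2 < h) (h1 : h < 3 / 4) : 0 < sg h :=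
  div_pos (expNegInvGlue.pos_of_pos (by linarith)) (by linarith)

theorem sg_eq_zero {h : ℝ} (h1 : 3 / 4 ≤ h) : sg h = 0 := by
  unfold sg
  rw [expNegInvGlue.zero_of_nonpos (by linarith), zero_div]

theorem lt_of_sg_pos {h : ℝ} (h1 : 0 < sg h) : h < 3 / 4 := by
  by_contra hcon
  push Not at hcon
  rw [sg_eq_zero hcon] at h1
  exact lt_irrefl _ h1

theorem sg_antitone : AntitoneOn sg (Ioi (1 / 2)) := by
  intro x hx y hy hxy
  rw [mem_Ioi] at hx hy
  unfold sg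
  have h1 : expNegInvGlue (3 / 4 - y) ≤ expNegInvGlue (3 / 4 - x) :=
    expNegInvGlue.monotone (by linarith)
  apply div_le_div₀ (expNegInvGlue.nonneg _) h1 (by linarith) (by linarith)

theorem sg_lt {x y : ℝ} (hx : 1 / 2 < x) (hxy : x < y) (hx1 : x < 3 / 4) : sg y < sg x := by
  unfold sg
  have h1 : expNegInvGlue (3 / 4 - y) ≤ expNegInvGlue (3 / 4 - x) :=
    expNegInvGlue.monotone (by linarith)
  have h2 : 0 < expNegInvGlue (3 / 4 - x) := expNegInvGlue.pos_of_pos (by linarith)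
  calc expNegInvGlue (3 / 4 - y) / (y - 1 / 2) ≤ expNegInvGlue (3 / 4 - x) / (y - 1 / 2) :=
        div_le_div_of_nonneg_right h1 (by linarith)
    _ < expNegInvGlue (3 / 4 - x) / (x - 1 / 2) :=
        div_lt_div_of_pos_left h2 (by linarith) (by linarith)

theorem contDiffAt_sg {h : ℝ} (h0 : 1 / 2 < h) : ContDiffAt ℝ ∞ sg h := by
  unfold sg
  apply ContDiffAt.div
  · exact (expNegInvGlue.contDiff (n := ⊤)).contDiffAt.comp h (by fun_prop)
  · fun_prop
  · linarith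

theorem hasDerivAt_sg {h : ℝ} (h0 : 1 / 2 < h) : HasDerivAt sg (deriv sg h) h :=
  ((contDiffAt_sg h0).differentiableAt (by simp)).hasDerivAt

theorem deriv_sg {h : ℝ} (h0 : 1 / 2 < h) :
    deriv sg h = -(deriv expNegInvGlue (3 / 4 - h) / (h - 1 / 2)) -
      expNegInvGlue (3 / 4 - h) / (h - 1 / 2) ^ 2 := by
  have d1 : HasDerivAt (fun h => expNegInvGlue (3 / 4 - h)) (-deriv expNegInvGlue (3 / 4 - h)) h := by
    have d := ((expNegInvGlue.contDiff (n := ⊤)).differentiable (by simp) (3 / 4 - h)).hasDerivAt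
    have := d.comp_const_sub (3 / 4) h
    exact this
  have d2 : HasDerivAt (fun h : ℝ => h - 1 / 2) 1 h := (hasDerivAt_id h).sub_const _
  have hne : h - 1 / 2 ≠ 0 := by linarith
  have d3 : HasDerivAt sg _ h := d1.div d2 hne
  rw [d3.deriv]
  field_simp

theorem deriv_sg_nonpos {h : ℝ} (h0 : 1 / 2 < h) : deriv sg h ≤ 0 := by
  rw [deriv_sg h0]
  have h1 : 0 ≤ deriv expNegInvGlue (3 / 4 - h) := expNegInvGlue.monotone.deriv_nonneg
  have h2 : 0 ≤ expNegInvGlue (3 / 4 - h) := expNegInvGlue.nonneg _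
  have h3 : 0 < h - 1 / 2 := by linarith
  have h4 := div_nonneg h1 h3.le
  have h5 : 0 ≤ expNegInvGlue (3 / 4 - h) / (h - 1 / 2) ^ 2 := by positivity
  linarith

theorem deriv_sg_neg {h : ℝ} (h0 : 1 / 2 < h) (h1 : h < 3 / 4) : deriv sg h < 0 := by
  rw [deriv_sg h0]
  have h1 : 0 ≤ deriv expNegInvGlue (3 / 4 - h) := expNegInvGlue.monotone.deriv_nonneg
  have h2 : 0 < expNegInvGlue (3 / 4 - h) := expNegInvGlue.pos_of_pos (by linarith)
  have h3 : 0 < h - 1 / 2 := by linarith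
  have h4 := div_nonneg h1 h3.le
  have h5 : 0 < expNegInvGlue (3 / 4 - h) / (h - 1 / 2) ^ 2 := by positivity
  linarith

theorem exists_le_sg (η : ℝ) (hη : 0 < η) : ∃ h, 1 / 2 < h ∧ h < 3 / 4 ∧ η ≤ sg h := by
  have hc : 0 < expNegInvGlue (1 / 8) := expNegInvGlue.pos_of_pos (by norm_num)
  set c := expNegInvGlue (1 / 8) with hcdef
  set d := min (1 / 8) (c / η) with hd
  have hd0 : 0 < d := by
    rw [hd]
    exact lt_min (by norm_num) (by positivity)
  have hd1 : d ≤ 1 / 8 := min_le_left _ _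
  have hd2 : d ≤ c / η := min_le_right _ _
  refine ⟨1 / 2 + d, by linarith, by linarith, ?_⟩
  unfold sg
  have h1 : c ≤ expNegInvGlue (3 / 4 - (1 / 2 + d)) := by
    apply expNegInvGlue.monotone
    linarith
  have e : (1 : ℝ) / 2 + d - 1 / 2 = d := by ring
  rw [e, le_div_iff₀ hd0]
  have : η * d ≤ c := by
    have := mul_le_mul_of_nonneg_left hd2 hη.le
    rwa [mul_div_cancel₀ _ hη.ne'] at this
  linarith

/-- The extension of `R` to `ρ > 1`. -/
noncomputable def SS (h ρ : ℝ) : ℝ := RR h (min ρ 1) + min (1 - ρ) 0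

theorem SS_of_le {h ρ : ℝ} (hρ : ρ ≤ 1) : SS h ρ = RR h ρ := by
  unfold SS
  rw [min_eq_left hρ, min_eq_right (by linarith), add_zero]

theorem SS_of_ge {h ρ : ℝ} (hρ : 1 ≤ ρ) : SS h ρ = 1 - ρ := by
  unfold SS
  rw [min_eq_right hρ, min_eq_left (by linarith), RR_one, zero_add]

theorem SS_strictAntiOn {h : ℝ} (h0 : 1 / 2 ≤ h) (h1 : h < 1) : StrictAntiOn (SS h) (Ici 0) := by
  intro x hx y hy hxy
  rw [mem_Ici] at hx hy
  rcases le_or_gt y 1 with h2 | h2
  · rw [SS_of_le h2, SS_of_le (by linarith)]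
    exact RR_strictAntiOn h0 h1 ⟨hx, by linarith⟩ ⟨hy, h2⟩ hxy
  · rw [SS_of_ge h2.le]
    rcases le_or_gt x 1 with h3 | h3
    · rw [SS_of_le h3]
      have : 0 ≤ RR h x := by
        rcases eq_or_lt_of_le h3 with h4 | h4
        · rw [h4, RR_one]
        · exact (RR_pos h0 h1 hx h4).le
      linarith
    · rw [SS_of_ge h3.le]
      linarith

theorem SS_mono {h₁ h₂ ρ : ℝ} (h0 : 0 < h₁) (hh : h₁ ≤ h₂) (h1 : h₂ < 1) (hρ : 0 ≤ ρ) :
    SS h₁ ρ ≤ SS h₂ ρ := by
  rcases le_or_gt ρ 1 with h2 | h2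
  · rw [SS_of_le h2, SS_of_le h2]
    exact RR_mono h0 hh h1 hρ h2
  · rw [SS_of_ge h2.le, SS_of_ge h2.le]

/-- `T(h,η) = S(h, σ(h)/η)`. -/
noncomputable def TT (h η : ℝ) : ℝ := SS h (sg h / η)

theorem TT_strictMonoOn {η : ℝ} (hη : 0 < η) : StrictMonoOn (fun h => TT h η) (Ioo (1 / 2) 1) := by
  intro x hx y hy hxy
  simp only [TT]
  have hsx : 0 ≤ sg x / η := div_nonneg (sg_nonneg hx.1) hη.le
  have hsy : 0 ≤ sg y / η := div_nonneg (sg_nonneg hy.1) hη.le
  rcases lt_or_ge x (3 / 4) with h2 | h2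
  · have h3 : sg y / η < sg x / η := (div_lt_div_iff_of_pos_right hη).2 (sg_lt hx.1 hxy h2)
    calc SS x (sg x / η) ≤ SS y (sg x / η) := SS_mono (by linarith [hx.1]) hxy.le hy.2 hsx
      _ < SS y (sg y / η) := SS_strictAntiOn hy.1.le hy.2 hsy hsx h3
  · rw [sg_eq_zero h2, sg_eq_zero (by linarith), zero_div, SS_of_le zero_le_one,
      SS_of_le zero_le_one, RR_zero, RR_zero]
    exact FF_strictMonoOn ⟨by linarith [hx.1], hx.2⟩ ⟨by linarith [hy.1], hy.2⟩ hxy

theorem continuousOn_SS : ContinuousOn (Function.uncurry SS) (Ioo 0 1 ×ˢ Ici 0) := by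
  have h1 : ContinuousOn (fun p : ℝ × ℝ => √(1 - min p.2 1) * Function.uncurry WW (p.1, min p.2 1) +
      min (1 - p.2) 0) (Ioo 0 1 ×ˢ Ici 0) := by
    apply ContinuousOn.add
    · apply ContinuousOn.mul (by fun_prop)
      apply contDiffOn_WW.continuousOn.comp (by fun_prop)
      rintro ⟨h, ρ⟩ ⟨hh, hρ⟩
      simp only [mem_Ici] at hh hρ
      refine ⟨hh, ?_, ?_⟩
      · simp only
        have : 0 ≤ min ρ 1 := le_min hρ zero_le_one
        linarith
      · simp only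
        have : min ρ 1 ≤ 1 := min_le_right _ _
        linarith
    · fun_prop
  exact h1

theorem continuousOn_TT {η : ℝ} (hη : 0 < η) : ContinuousOn (fun h => TT h η) (Ioo (1 / 2) 1) := by
  have h1 : ContinuousOn (fun h => (h, sg h / η)) (Ioo (1 / 2) 1) := by
    apply ContinuousOn.prodMk continuousOn_id
    apply ContinuousOn.div_const
    intro h hh
    exact (contDiffAt_sg hh.1).continuousAt.continuousWithinAt
  apply continuousOn_SS.comp h1
  intro h hh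
  exact ⟨⟨by linarith [hh.1], hh.2⟩, div_nonneg (sg_nonneg hh.1) hη.le⟩

theorem continuousAt_TT {h η : ℝ} (h0 : 1 / 2 < h) (h1 : h < 1) (hη : 0 < η) :
    ContinuousAt (fun η => TT h η) η := by
  have h2 : ContinuousOn (fun η => (h, sg h / η)) (Ioi (0 : ℝ)) := by
    apply ContinuousOn.prodMk continuousOn_const
    apply ContinuousOn.div continuousOn_const continuousOn_id
    intro x hx
    exact (ne_of_gt hx)
  have h3 : ContinuousOn (fun η => TT h η) (Ioi (0 : ℝ)) := by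
    apply continuousOn_SS.comp h2
    intro x hx
    exact ⟨⟨by linarith, h1⟩, div_nonneg (sg_nonneg h0) (le_of_lt hx)⟩
  exact h3.continuousAt (Ioi_mem_nhds hη)

theorem FF_surj {t : ℝ} (_ht : 0 ≤ t) : FF (t / √(1 + t ^ 2)) = t := by
  have h1 : 0 < √(1 + t ^ 2) := Real.sqrt_pos.2 (by positivity)
  have h2 : √(1 + t ^ 2) ^ 2 = 1 + t ^ 2 := Real.sq_sqrt (by positivity)
  unfold FF
  have h3 : 1 - (t / √(1 + t ^ 2)) ^ 2 = (1 / √(1 + t ^ 2)) ^ 2 := by
    rw [div_pow, div_pow, h2]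
    field_simp
    ring
  rw [h3, Real.sqrt_sq (by positivity)]
  field_simp

theorem exists_TT_eq {η t : ℝ} (hη : 0 < η) (ht : 0 ≤ t) :
    ∃ h ∈ Ioo (1 / 2 : ℝ) 1, TT h η = t := by
  obtain ⟨ha, ha0, ha1, ha2⟩ := exists_le_sg η hη
  have h1 : 0 < √(1 + t ^ 2) := Real.sqrt_pos.2 (by positivity)
  have hb0 : 0 ≤ t / √(1 + t ^ 2) := by positivity
  have hb1 : t / √(1 + t ^ 2) < 1 := by
    rw [div_lt_one h1]
    apply Real.lt_sqrt_of_sq_lt
    linarith
  set hb := max (3 / 4) (t / √(1 + t ^ 2)) with hhb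
  have hb2 : 3 / 4 ≤ hb := le_max_left _ _
  have hb3 : hb < 1 := max_lt (by norm_num) hb1
  have hTa : TT ha η ≤ t := by
    unfold TT
    rw [SS_of_ge (by rw [le_div_iff₀ hη]; linarith)]
    have : 1 ≤ sg ha / η := by rw [le_div_iff₀ hη]; linarith
    linarith
  have hTb : t ≤ TT hb η := by
    unfold TT
    rw [sg_eq_zero hb2, zero_div, SS_of_le zero_le_one, RR_zero]
    calc t = FF (t / √(1 + t ^ 2)) := (FF_surj ht).symm
      _ ≤ FF hb := FF_strictMonoOn.monotoneOn ⟨hb0, hb1⟩ ⟨by linarith, hb3⟩ (le_max_right _ _)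
  have hsub : Icc ha hb ⊆ Ioo (1 / 2) 1 := by
    intro x hx
    exact ⟨by linarith [hx.1], by linarith [hx.2]⟩
  have := intermediate_value_Icc (show ha ≤ hb by linarith) ((continuousOn_TT hη).mono hsub)
  obtain ⟨h, hh, hh2⟩ := this ⟨hTa, hTb⟩
  exact ⟨h, hsub hh, hh2⟩

/-- The defining function of the foliation in the `(y,η)` half plane. -/
noncomputable def ph (p : ℝ × ℝ) : ℝ :=
  Classical.epsilon fun h => h ∈ Ioo (1 / 2 : ℝ) 1 ∧ TT h p.2 = |p.1| / p.2

theorem ph_spec {p : ℝ × ℝ} (hη : 0 < p.2) :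
    ph p ∈ Ioo (1 / 2 : ℝ) 1 ∧ TT (ph p) p.2 = |p.1| / p.2 := by
  have := exists_TT_eq hη (show 0 ≤ |p.1| / p.2 by positivity)
  obtain ⟨h, hh, hh2⟩ := this
  exact Classical.epsilon_spec (p := fun h => h ∈ Ioo (1 / 2 : ℝ) 1 ∧ TT h p.2 = |p.1| / p.2)
    ⟨h, hh, hh2⟩

theorem ph_unique {p : ℝ × ℝ} (hη : 0 < p.2) {h : ℝ} (h0 : 1 / 2 < h) (h1 : h < 1)
    (hT : TT h p.2 = |p.1| / p.2) : ph p = h := by
  obtain ⟨a, b⟩ := ph_spec hη
  exact (TT_strictMonoOn hη).injOn a ⟨h0, h1⟩ (b.trans hT.symm)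

theorem ph_lt {p : ℝ × ℝ} (hη : 0 < p.2) {h : ℝ} (h0 : 1 / 2 < h) (h1 : h < 1)
    (hT : |p.1| / p.2 < TT h p.2) : ph p < h := by
  obtain ⟨a, b⟩ := ph_spec hη
  by_contra hcon
  push Not at hcon
  have := (TT_strictMonoOn hη).monotoneOn ⟨h0, h1⟩ a hcon
  change TT _ p.2 ≤ TT _ p.2 at this
  rw [b] at this
  linarith

theorem lt_ph {p : ℝ × ℝ} (hη : 0 < p.2) {h : ℝ} (h0 : 1 / 2 < h) (h1 : h < 1)
    (hT : TT h p.2 < |p.1| / p.2) : h < ph p := by
  obtain ⟨a, b⟩ := ph_spec hη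
  by_contra hcon
  push Not at hcon
  have := (TT_strictMonoOn hη).monotoneOn a ⟨h0, h1⟩ hcon
  change TT _ p.2 ≤ TT _ p.2 at this
  rw [b] at this
  linarith

theorem continuousAt_ph {p : ℝ × ℝ} (hη : 0 < p.2) : ContinuousAt ph p := by
  obtain ⟨a, b⟩ := ph_spec hη
  rw [ContinuousAt, tendsto_order]
  have hev : ∀ᶠ q : ℝ × ℝ in 𝓝 p, 0 < q.2 := continuousAt_snd.eventually (lt_mem_nhds hη)
  have hc : ContinuousAt (fun q : ℝ × ℝ => |q.1| / q.2) p := by
    apply ContinuousAt.div (by fun_prop) (by fun_prop) hη.ne'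
  constructor
  · intro c hcc
    set h := max c ((1 / 2 + ph p) / 2) with hh
    have h0 : 1 / 2 < h := lt_of_lt_of_le (by linarith [a.1]) (le_max_right _ _)
    have h1 : h < ph p := max_lt hcc (by linarith [a.1])
    have h2 : TT h p.2 < |p.1| / p.2 := by
      rw [← b]
      exact TT_strictMonoOn hη ⟨h0, by linarith [a.2]⟩ a h1
    have hc2 : ContinuousAt (fun q : ℝ × ℝ => TT h q.2) p :=
      ContinuousAt.comp (g := fun η => TT h η) (continuousAt_TT h0 (by linarith [a.2]) hη)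
        continuousAt_snd
    filter_upwards [hev, hc2.eventually_lt hc h2] with q hq1 hq2
    exact lt_of_le_of_lt (le_max_left _ _) (lt_ph hq1 h0 (by linarith [a.2]) hq2)
  · intro c hcc
    set h := min c ((1 + ph p) / 2) with hh
    have h0 : h < 1 := lt_of_le_of_lt (min_le_right _ _) (by linarith [a.2])
    have h1 : ph p < h := lt_min hcc (by linarith [a.2])
    have h2 : |p.1| / p.2 < TT h p.2 := by
      rw [← b]
      exact TT_strictMonoOn hη a ⟨by linarith [a.1], h0⟩ h1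
    have hc2 : ContinuousAt (fun q : ℝ × ℝ => TT h q.2) p :=
      ContinuousAt.comp (g := fun η => TT h η) (continuousAt_TT (by linarith [a.1]) h0 hη)
        continuousAt_snd
    filter_upwards [hev, hc.eventually_lt hc2 h2] with q hq1 hq2
    exact lt_of_lt_of_le (ph_lt hq1 (by linarith [a.1]) h0 hq2) (min_le_left _ _)

end Pool.H76.CMC
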