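import Pool.Agent.H76.CMCPhi

/-!
# Smoothness of `φ` and its derivatives
-/

open scoped ContDiff Topology
open Set Filter

namespace Pool.H76.CMC

/-- `Q = R² = (1-ρ) W²`. -/
noncomputable def QQ (q : ℝ × ℝ) : ℝ := (1 - q.2) * Function.uncurry WW q ^ 2

theorem contDiffAt_QQ {q : ℝ × ℝ} (hq : q ∈ domW) : ContDiffAt ℝ ∞ QQ q := by
  have := contDiffOn_WW.contDiffAt (isOpen_domW.mem_nhds hq)
  unfold QQ
  exact (by fun_prop : ContDiffAt ℝ ∞ (fun q : ℝ × ℝ => 1 - q.2) q).mul (this.pow 2)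

theorem QQ_eq {h ρ : ℝ} (hρ : ρ ≤ 1) : QQ (h, ρ) = RR h ρ ^ 2 := by
  unfold QQ RR Function.uncurry
  rw [mul_pow, Real.sq_sqrt (by linarith)]

theorem mem_domW {h ρ : ℝ} (h0 : 1 / 2 < h) (h1 : h < 1) (hρ : 0 ≤ ρ) (hρ1 : ρ ≤ 1) :
    (h, ρ) ∈ domW := by
  refine ⟨⟨?_, ?_⟩, ?_, ?_⟩ <;> simp only <;> linarith

theorem hasFDerivAt_QQ {q : ℝ × ℝ} (hq : q ∈ domW) : HasFDerivAt QQ (fderiv ℝ QQ q) q :=
  ((contDiffAt_QQ hq).differentiableAt (by simp)).hasFDerivAt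

theorem QQ_h_nonneg {h ρ : ℝ} (h0 : 1 / 2 < h) (h1 : h < 1) (hρ : 0 ≤ ρ) (hρ1 : ρ ≤ 1) :
    0 ≤ fderiv ℝ QQ (h, ρ) (1, 0) := by
  have hd := hasFDerivAt_QQ (mem_domW h0 h1 hρ hρ1)
  have hc : HasDerivAt (fun x : ℝ => (x, ρ)) ((1 : ℝ), (0 : ℝ)) h :=
    (hasDerivAt_id h).prodMk (hasDerivAt_const h ρ)
  have h2 := hd.comp_hasDerivAt h hc
  have hs : Ioo (1 / 2 : ℝ) 1 ∈ 𝓝 h := Ioo_mem_nhds h0 h1
  have hacc : AccPt h (𝓟 (Ioo (1 / 2 : ℝ) 1)) := by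
    have := (PerfectSpace.univ_preperfect h (mem_univ h)).nhds_inter hs
    rwa [inter_univ] at this
  apply (h2.hasDerivWithinAt (s := Ioo (1 / 2 : ℝ) 1)).nonneg_of_monotoneOn hacc
  intro x hx y hy hxy
  simp only [Function.comp]
  rw [QQ_eq hρ1, QQ_eq hρ1]
  have hnn : 0 ≤ RR x ρ := by
    rcases eq_or_lt_of_le hρ1 with h4 | h4
    · rw [h4, RR_one]
    · exact (RR_pos hx.1.le hx.2 hρ h4).le
  exact pow_le_pow_left₀ hnn (RR_mono (by linarith [hx.1]) hxy hy.2 hρ hρ1) 2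

theorem QQ_h_pos_zero {h : ℝ} (h0 : 1 / 2 < h) (h1 : h < 1) :
    0 < fderiv ℝ QQ (h, 0) (1, 0) := by
  have hd := hasFDerivAt_QQ (mem_domW h0 h1 le_rfl zero_le_one)
  have hc : HasDerivAt (fun x : ℝ => (x, (0 : ℝ))) ((1 : ℝ), (0 : ℝ)) h :=
    (hasDerivAt_id h).prodMk (hasDerivAt_const h 0)
  have h2 := hd.comp_hasDerivAt h hc
  have hpos : 0 < 1 - h ^ 2 := by nlinarith
  have h3 : HasDerivAt (fun x : ℝ => x ^ 2 / (1 - x ^ 2))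
      ((2 * h * (1 - h ^ 2) - h ^ 2 * (-(2 * h))) / (1 - h ^ 2) ^ 2) h := by
    have e1 : HasDerivAt (fun x : ℝ => x ^ 2) (2 * h) h := by simpa using hasDerivAt_pow 2 h
    exact e1.div (e1.const_sub 1) hpos.ne'
  have h4 : (QQ ∘ fun x : ℝ => (x, (0 : ℝ))) =ᶠ[𝓝 h] fun x : ℝ => x ^ 2 / (1 - x ^ 2) := by
    filter_upwards [Ioo_mem_nhds h0 h1] with x hx
    simp only [Function.comp]
    rw [QQ_eq zero_le_one, RR_zero]
    unfold FF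
    rw [div_pow, Real.sq_sqrt (by nlinarith [hx.1, hx.2])]
  have h5 := h3.congr_of_eventuallyEq h4
  rw [h2.unique h5]
  apply div_pos _ (by positivity)
  nlinarith

theorem QQ_ρ_eq {h ρ : ℝ} (h0 : 1 / 2 < h) (h1 : h < 1) (hρ : 0 ≤ ρ) (hρ1 : ρ < 1) :
    fderiv ℝ QQ (h, ρ) (0, 1) = 2 * RR h ρ * RR' h ρ := by
  have hd := hasFDerivAt_QQ (mem_domW h0 h1 hρ hρ1.le)
  have hc : HasDerivAt (fun x : ℝ => (h, x)) ((0 : ℝ), (1 : ℝ)) ρ :=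
    (hasDerivAt_const ρ h).prodMk (hasDerivAt_id ρ)
  have h2 := hd.comp_hasDerivAt ρ hc
  have h3 : HasDerivAt (fun x : ℝ => RR h x ^ 2) (2 * RR h ρ * RR' h ρ) ρ := by
    have := (hasDerivAt_RR (by linarith) h1 (by linarith) hρ1).pow 2
    exact (this : HasDerivAt (fun x : ℝ => RR h x ^ 2) _ ρ).congr_deriv (by simp)
  have h4 : (QQ ∘ fun x : ℝ => (h, x)) =ᶠ[𝓝 ρ] fun x : ℝ => RR h x ^ 2 := by
    filter_upwards [Iio_mem_nhds hρ1] with x hx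
    exact QQ_eq (le_of_lt hx)
  exact h2.unique (h3.congr_of_eventuallyEq h4)

theorem QQ_ρ_one {h : ℝ} (h0 : 1 / 2 < h) (h1 : h < 1) :
    fderiv ℝ QQ (h, 1) (0, 1) = -(WW h 1 ^ 2) := by
  have hd := hasFDerivAt_QQ (mem_domW h0 h1 zero_le_one le_rfl)
  have hc : HasDerivAt (fun x : ℝ => (h, x)) ((0 : ℝ), (1 : ℝ)) 1 :=
    (hasDerivAt_const 1 h).prodMk (hasDerivAt_id 1)
  have h2 := hd.comp_hasDerivAt 1 hc
  have hW : HasFDerivAt (Function.uncurry WW) (fderiv ℝ (Function.uncurry WW) (h, 1)) (h, 1) :=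
    ((contDiffOn_WW.contDiffAt (isOpen_domW.mem_nhds
      (mem_domW h0 h1 zero_le_one le_rfl))).differentiableAt (by simp)).hasFDerivAt
  have hW2 := hW.comp_hasDerivAt 1 hc
  have h3 := ((hasDerivAt_id (1 : ℝ)).const_sub 1).mul (hW2.pow 2)
  have h4 : HasDerivAt (QQ ∘ fun x : ℝ => (h, x)) _ 1 := h3
  rw [h2.unique h4]
  simp [Function.uncurry]

theorem QQ_ρ_neg {h ρ : ℝ} (h0 : 1 / 2 < h) (h1 : h < 1) (hρ : 0 ≤ ρ) (hρ1 : ρ ≤ 1) :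
    fderiv ℝ QQ (h, ρ) (0, 1) < 0 := by
  rcases eq_or_lt_of_le hρ1 with h4 | h4
  · rw [h4, QQ_ρ_one h0 h1]
    have := WW_one_pos (show 0 < h by linarith) h1
    have : 0 < WW h 1 ^ 2 := by positivity
    linarith
  · rw [QQ_ρ_eq h0 h1 hρ h4]
    have e1 := RR_pos h0.le h1 hρ h4
    have e2 := RR'_neg h0.le h1 hρ h4
    nlinarith

/-- The implicit equation `G = η² Q(h,σ(h)/η) - y²`. -/
noncomputable def GG (v : (ℝ × ℝ) × ℝ) : ℝ := v.1.2 ^ 2 * QQ (v.2, sg v.2 / v.1.2) - v.1.1 ^ 2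

/-- The relations satisfied by `h = φ(y,η)` and `ρ = σ(h)/η`. -/
theorem ph_rel {p : ℝ × ℝ} (hη : 0 < p.2) :
    1 / 2 < ph p ∧ ph p < 1 ∧ 0 ≤ sg (ph p) / p.2 ∧ sg (ph p) / p.2 ≤ 1 ∧
      RR (ph p) (sg (ph p) / p.2) = |p.1| / p.2 := by
  obtain ⟨a, b⟩ := ph_spec hη
  have h1 : 0 ≤ sg (ph p) / p.2 := div_nonneg (sg_nonneg a.1) hη.le
  have h2 : sg (ph p) / p.2 ≤ 1 := by
    by_contra hcon
    push Not at hcon
    unfold TT at b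
    rw [SS_of_ge hcon.le] at b
    have : 0 ≤ |p.1| / p.2 := by positivity
    linarith
  refine ⟨a.1, a.2, h1, h2, ?_⟩
  unfold TT at b
  rwa [SS_of_le h2] at b

theorem GG_ph {p : ℝ × ℝ} (hη : 0 < p.2) : GG (p, ph p) = 0 := by
  obtain ⟨a1, a2, a3, a4, a5⟩ := ph_rel hη
  unfold GG
  simp only
  rw [QQ_eq a4, a5, div_pow, sq_abs]
  field_simp
  ring

theorem contDiffAt_GG {p : ℝ × ℝ} {h : ℝ} (hη : 0 < p.2) (h0 : 1 / 2 < h) (h1 : h < 1)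
    (hρ : 0 ≤ sg h / p.2) (hρ1 : sg h / p.2 ≤ 1) : ContDiffAt ℝ ∞ GG (p, h) := by
  unfold GG
  apply ContDiffAt.sub _ (by fun_prop)
  apply ContDiffAt.mul (by fun_prop)
  have hc : ContDiffAt ℝ ∞ (fun v : (ℝ × ℝ) × ℝ => (v.2, sg v.2 / v.1.2)) (p, h) := by
    apply ContDiffAt.prodMk contDiffAt_snd
    apply ContDiffAt.div
    · exact ContDiffAt.comp (p, h) (contDiffAt_sg h0) contDiffAt_snd
    · fun_prop
    · exact hη.ne'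
  exact ContDiffAt.comp (p, h) (contDiffAt_QQ (mem_domW h0 h1 hρ hρ1)) hc

theorem hasFDerivAt_GG {p : ℝ × ℝ} {h : ℝ} (hη : 0 < p.2) (h0 : 1 / 2 < h) (h1 : h < 1)
    (hρ : 0 ≤ sg h / p.2) (hρ1 : sg h / p.2 ≤ 1) :
    HasFDerivAt GG (fderiv ℝ GG (p, h)) (p, h) :=
  ((contDiffAt_GG hη h0 h1 hρ hρ1).differentiableAt (by simp)).hasFDerivAt

theorem GG_h {p : ℝ × ℝ} {h : ℝ} (hη : 0 < p.2) (h0 : 1 / 2 < h) (h1 : h < 1)
    (hρ : 0 ≤ sg h / p.2) (hρ1 : sg h / p.2 ≤ 1) :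
    fderiv ℝ GG (p, h) (0, 1) = p.2 ^ 2 * (fderiv ℝ QQ (h, sg h / p.2) (1, 0) +
      deriv sg h / p.2 * fderiv ℝ QQ (h, sg h / p.2) (0, 1)) := by
  have hG := hasFDerivAt_GG hη h0 h1 hρ hρ1
  have hc : HasDerivAt (fun x : ℝ => (p, x)) ((0 : ℝ × ℝ), (1 : ℝ)) h :=
    (hasDerivAt_const h p).prodMk (hasDerivAt_id h)
  have h2 := hG.comp_hasDerivAt h hc
  have hQ := hasFDerivAt_QQ (mem_domW h0 h1 hρ hρ1)
  have hc2 : HasDerivAt (fun x : ℝ => (x, sg x / p.2)) ((1 : ℝ), deriv sg h / p.2) h :=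
    (hasDerivAt_id h).prodMk ((hasDerivAt_sg h0).div_const _)
  have h3 := (((hQ.comp_hasDerivAt h hc2).const_mul (p.2 ^ 2)).sub_const (p.1 ^ 2))
  have h4 : HasDerivAt (GG ∘ fun x : ℝ => (p, x)) _ h := h3
  rw [h2.unique h4]
  have : ((1 : ℝ), deriv sg h / p.2) = (1, 0) + (deriv sg h / p.2) • ((0 : ℝ), (1 : ℝ)) := by
    simp
  rw [this, map_add, map_smul, smul_eq_mul]

theorem GG_h_pos {p : ℝ × ℝ} {h : ℝ} (hη : 0 < p.2) (h0 : 1 / 2 < h) (h1 : h < 1)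
    (hρ : 0 ≤ sg h / p.2) (hρ1 : sg h / p.2 ≤ 1) : 0 < fderiv ℝ GG (p, h) (0, 1) := by
  rw [GG_h hη h0 h1 hρ hρ1]
  apply mul_pos (by positivity)
  have e1 := QQ_ρ_neg h0 h1 hρ hρ1
  rcases eq_or_lt_of_le hρ with h2 | h2
  · have e2 := QQ_h_pos_zero h0 h1
    rw [← h2] at e1 ⊢
    have e3 : deriv sg h / p.2 ≤ 0 := div_nonpos_of_nonpos_of_nonneg (deriv_sg_nonpos h0) hη.le
    have := mul_nonneg_of_nonpos_of_nonpos e3 e1.le
    linarith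
  · have e2 := QQ_h_nonneg h0 h1 hρ hρ1
    have hs : 0 < sg h := by
      have := mul_pos h2 hη
      rwa [div_mul_cancel₀ _ hη.ne'] at this
    have e3 : deriv sg h / p.2 < 0 := div_neg_of_neg_of_pos (deriv_sg_neg h0 (lt_of_sg_pos hs)) hη
    have := mul_pos_of_neg_of_neg e3 e1
    linarith

theorem GG_y {p : ℝ × ℝ} {h : ℝ} (hη : 0 < p.2) (h0 : 1 / 2 < h) (h1 : h < 1)
    (hρ : 0 ≤ sg h / p.2) (hρ1 : sg h / p.2 ≤ 1) :
    fderiv ℝ GG (p, h) ((1, 0), 0) = -(2 * p.1) := by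
  have hG := hasFDerivAt_GG hη h0 h1 hρ hρ1
  have hc : HasDerivAt (fun x : ℝ => ((x, p.2), h)) (((1 : ℝ), (0 : ℝ)), (0 : ℝ)) p.1 :=
    ((hasDerivAt_id p.1).prodMk (hasDerivAt_const _ _)).prodMk (hasDerivAt_const _ _)
  have h2 := HasFDerivAt.comp_hasDerivAt (f := fun x : ℝ => ((x, p.2), h)) (l := GG) p.1 hG hc
  have h3 : HasDerivAt (fun x : ℝ => p.2 ^ 2 * QQ (h, sg h / p.2) - x ^ 2) (-(2 * p.1)) p.1 := by
    have e1 : HasDerivAt (fun x : ℝ => x ^ 2) (2 * p.1) p.1 := by simpa using hasDerivAt_pow 2 p.1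
    exact e1.const_sub _
  exact h2.unique h3

theorem GG_η {p : ℝ × ℝ} {h : ℝ} (hη : 0 < p.2) (h0 : 1 / 2 < h) (h1 : h < 1)
    (hρ : 0 ≤ sg h / p.2) (hρ1 : sg h / p.2 ≤ 1) :
    fderiv ℝ GG (p, h) ((0, 1), 0) = 2 * p.2 * QQ (h, sg h / p.2) -
      sg h * fderiv ℝ QQ (h, sg h / p.2) (0, 1) := by
  have hG := hasFDerivAt_GG hη h0 h1 hρ hρ1
  have hc : HasDerivAt (fun x : ℝ => ((p.1, x), h)) (((0 : ℝ), (1 : ℝ)), (0 : ℝ)) p.2 :=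
    ((hasDerivAt_const _ _).prodMk (hasDerivAt_id p.2)).prodMk (hasDerivAt_const _ _)
  have h2 := HasFDerivAt.comp_hasDerivAt (f := fun x : ℝ => ((p.1, x), h)) (l := GG) p.2 hG hc
  have hQ := hasFDerivAt_QQ (mem_domW h0 h1 hρ hρ1)
  have hc2 : HasDerivAt (fun x : ℝ => (h, sg h / x)) ((0 : ℝ), -(sg h) / p.2 ^ 2) p.2 := by
    apply (hasDerivAt_const _ _).prodMk
    have := (hasDerivAt_const p.2 (sg h)).div (hasDerivAt_id p.2) hη.ne'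
    exact (this : HasDerivAt (fun x : ℝ => sg h / x) _ p.2).congr_deriv (by simp)
  have hQ2 := HasFDerivAt.comp_hasDerivAt (f := fun x : ℝ => (h, sg h / x)) (l := QQ) p.2 hQ hc2
  have e1 : HasDerivAt (fun x : ℝ => x ^ 2) (2 * p.2) p.2 := by simpa using hasDerivAt_pow 2 p.2
  have h3 := (e1.mul hQ2).sub_const (p.1 ^ 2)
  have h4 : HasDerivAt (GG ∘ fun x : ℝ => ((p.1, x), h)) _ p.2 := h3
  rw [h2.unique h4]
  have : ((0 : ℝ), -(sg h) / p.2 ^ 2) = (-(sg h) / p.2 ^ 2) • ((0 : ℝ), (1 : ℝ)) := by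
    simp
  rw [this, map_smul, smul_eq_mul]
  simp only [Function.comp]
  field_simp
  ring

theorem GG_η_eq {p : ℝ × ℝ} {h : ℝ} (hη : 0 < p.2) (h0 : 1 / 2 < h) (h1 : h < 1)
    (hρ : 0 ≤ sg h / p.2) (hρ1 : sg h / p.2 < 1) :
    fderiv ℝ GG (p, h) ((0, 1), 0) =
      2 * p.2 * RR h (sg h / p.2) * FF (uu h ((sg h / p.2) ^ 4)) := by
  rw [GG_η hη h0 h1 hρ hρ1.le, QQ_eq hρ1.le, QQ_ρ_eq h0 h1 hρ hρ1,
    ← RR_ode (by linarith) h1 (by linarith) hρ1]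
  have : sg h = p.2 * (sg h / p.2) := by field_simp
  generalize sg h / p.2 = r at *
  rw [this]
  ring

theorem GG_η_pos {p : ℝ × ℝ} {h : ℝ} (hη : 0 < p.2) (h0 : 1 / 2 < h) (h1 : h < 1)
    (hρ : 0 ≤ sg h / p.2) (hρ1 : sg h / p.2 ≤ 1) : 0 < fderiv ℝ GG (p, h) ((0, 1), 0) := by
  rcases eq_or_lt_of_le hρ1 with h2 | h2
  · rw [GG_η hη h0 h1 hρ hρ1, QQ_eq hρ1, h2, RR_one, QQ_ρ_one h0 h1]
    have e1 := WW_one_pos (show 0 < h by linarith) h1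
    have hs : sg h = p.2 := by field_simp at h2; exact h2
    rw [hs]
    have : 0 < p.2 * WW h 1 ^ 2 := by positivity
    linarith
  · rw [GG_η_eq hη h0 h1 hρ h2]
    have e1 := RR_pos h0.le h1 hρ h2
    have e2 : 0 < uu h ((sg h / p.2) ^ 4) := uu_pos (by linarith) h1 (by positivity)
    have e3 : uu h ((sg h / p.2) ^ 4) < 1 := uu_lt_one h1 (pow_lt_one₀ hρ h2 (by norm_num))
    have e4 : 0 < FF (uu h ((sg h / p.2) ^ 4)) := by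
      unfold FF
      apply div_pos e2 (Real.sqrt_pos.2 (by nlinarith))
    positivity

theorem isInvertible_of_ne_zero {L : ℝ →L[ℝ] ℝ} (hL : L 1 ≠ 0) : L.IsInvertible := by
  refine ⟨ContinuousLinearEquiv.unitsEquivAut ℝ (Units.mk0 (L 1) hL), ?_⟩
  ext
  simp

theorem contDiffAt_ph {p : ℝ × ℝ} (hη : 0 < p.2) : ContDiffAt ℝ ∞ ph p := by
  obtain ⟨a1, a2, a3, a4, a5⟩ := ph_rel hη
  have cG := contDiffAt_GG hη a1 a2 a3 a4
  have hinv : (fderiv ℝ GG (p, ph p) ∘L .inr ℝ (ℝ × ℝ) ℝ).IsInvertible := by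
    apply isInvertible_of_ne_zero
    simp only [ContinuousLinearMap.comp_apply, ContinuousLinearMap.inr_apply]
    exact (GG_h_pos hη a1 a2 a3 a4).ne'
  have h1 := cG.eventually_apply_eq_iff_implicitFunction (by simp) hinv
  have h2 := cG.contDiffAt_implicitFunction (by simp) hinv
  apply h2.congr_of_eventuallyEq
  have hcont : Tendsto (fun q : ℝ × ℝ => (q, ph q)) (𝓝 p) (𝓝 (p, ph p)) :=
    (continuousAt_id.prodMk (continuousAt_ph hη)).tendsto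
  have hev : ∀ᶠ q : ℝ × ℝ in 𝓝 p, 0 < q.2 := continuousAt_snd.eventually (lt_mem_nhds hη)
  filter_upwards [hcont.eventually h1, hev] with q hq1 hq2
  have := hq1.1 (by rw [GG_ph hq2, GG_ph hη])
  exact this.symm

theorem hasFDerivAt_ph {p : ℝ × ℝ} (hη : 0 < p.2) : HasFDerivAt ph (fderiv ℝ ph p) p :=
  ((contDiffAt_ph hη).differentiableAt (by simp)).hasFDerivAt

theorem GG_chain {p : ℝ × ℝ} (hη : 0 < p.2) (v : ℝ × ℝ) :
    fderiv ℝ GG (p, ph p) (v, 0) + fderiv ℝ ph p v * fderiv ℝ GG (p, ph p) (0, 1) = 0 := by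
  obtain ⟨a1, a2, a3, a4, a5⟩ := ph_rel hη
  have hG := hasFDerivAt_GG hη a1 a2 a3 a4
  have hc : HasFDerivAt (fun q : ℝ × ℝ => (q, ph q))
      ((ContinuousLinearMap.id ℝ (ℝ × ℝ)).prod (fderiv ℝ ph p)) p :=
    (hasFDerivAt_id p).prodMk (hasFDerivAt_ph hη)
  have h1 := HasFDerivAt.comp (f := fun q : ℝ × ℝ => (q, ph q)) (g := GG) p hG hc
  have hev : ∀ᶠ q : ℝ × ℝ in 𝓝 p, 0 < q.2 := continuousAt_snd.eventually (lt_mem_nhds hη)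
  have h2 : HasFDerivAt (GG ∘ fun q : ℝ × ℝ => (q, ph q)) (0 : ℝ × ℝ →L[ℝ] ℝ) p := by
    apply (hasFDerivAt_const (0 : ℝ) p).congr_of_eventuallyEq
    filter_upwards [hev] with q hq
    exact GG_ph hq
  have h3 := h1.unique h2
  have h4 : (fderiv ℝ GG (p, ph p) ∘L
      ((ContinuousLinearMap.id ℝ (ℝ × ℝ)).prod (fderiv ℝ ph p))) v = 0 := by
    rw [h3]; rfl
  simp only [ContinuousLinearMap.comp_apply, ContinuousLinearMap.prod_apply,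
    ContinuousLinearMap.id_apply] at h4
  have h5 : (v, fderiv ℝ ph p v) = (v, (0 : ℝ)) + (fderiv ℝ ph p v) • ((0 : ℝ × ℝ), (1 : ℝ)) := by
    simp
  rw [h5, map_add, map_smul, smul_eq_mul] at h4
  exact h4

theorem ph_η_neg {p : ℝ × ℝ} (hη : 0 < p.2) : fderiv ℝ ph p (0, 1) < 0 := by
  obtain ⟨a1, a2, a3, a4, a5⟩ := ph_rel hη
  have h1 := GG_chain hη (0, 1)
  have h2 := GG_η_pos hη a1 a2 a3 a4
  have h3 := GG_h_pos hη a1 a2 a3 a4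
  by_contra hcon
  push Not at hcon
  have := mul_nonneg hcon h3.le
  linarith

theorem ph_y_eq {p : ℝ × ℝ} (hη : 0 < p.2) :
    fderiv ℝ ph p (1, 0) * fderiv ℝ GG (p, ph p) (0, 1) = 2 * p.1 := by
  obtain ⟨a1, a2, a3, a4, a5⟩ := ph_rel hη
  have h1 := GG_chain hη (1, 0)
  rw [GG_y hη a1 a2 a3 a4] at h1
  linarith

theorem ρ_lt_one {p : ℝ × ℝ} (hη : 0 < p.2) (hy : p.1 ≠ 0) : sg (ph p) / p.2 < 1 := by
  obtain ⟨a1, a2, a3, a4, a5⟩ := ph_rel hη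
  rcases eq_or_lt_of_le a4 with h | h
  · exfalso
    rw [h, RR_one] at a5
    have : 0 < |p.1| / p.2 := by
      have := abs_pos.2 hy
      positivity
    linarith
  · exact h

theorem ph_y_pos {p : ℝ × ℝ} (hη : 0 < p.2) (hy : p.1 ≠ 0) : 0 < p.1 * fderiv ℝ ph p (1, 0) := by
  obtain ⟨a1, a2, a3, a4, a5⟩ := ph_rel hη
  have h1 := ph_y_eq hη
  have h3 := GG_h_pos hη a1 a2 a3 a4
  have h4 : p.1 * fderiv ℝ ph p (1, 0) * fderiv ℝ GG (p, ph p) (0, 1) = 2 * p.1 ^ 2 := by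
    rw [mul_assoc, h1]; ring
  have h5 : 0 < p.1 ^ 2 := by positivity
  by_contra hcon
  push Not at hcon
  have := mul_nonneg (neg_nonneg.2 hcon) h3.le
  linarith

theorem ph_slope {p : ℝ × ℝ} (hη : 0 < p.2) (hy : p.1 ≠ 0) :
    fderiv ℝ ph p (0, 1) =
      -(FF (uu (ph p) ((sg (ph p) / p.2) ^ 4)) * |fderiv ℝ ph p (1, 0)|) := by
  obtain ⟨a1, a2, a3, a4, a5⟩ := ph_rel hη
  have h1 := ph_y_eq hη
  have h2 := GG_chain hη (0, 1)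
  have h3 := GG_h_pos hη a1 a2 a3 a4
  rw [GG_η_eq hη a1 a2 a3 (ρ_lt_one hη hy), a5] at h2
  have h4 : |fderiv ℝ ph p (1, 0)| * fderiv ℝ GG (p, ph p) (0, 1) = 2 * |p.1| := by
    calc |fderiv ℝ ph p (1, 0)| * fderiv ℝ GG (p, ph p) (0, 1)
        = |fderiv ℝ ph p (1, 0)| * |fderiv ℝ GG (p, ph p) (0, 1)| := by rw [abs_of_pos h3]
      _ = |fderiv ℝ ph p (1, 0) * fderiv ℝ GG (p, ph p) (0, 1)| := (abs_mul _ _).symm
      _ = |2 * p.1| := by rw [h1]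
      _ = 2 * |p.1| := by rw [abs_mul, abs_two]
  have h5 : 2 * p.2 * (|p.1| / p.2) = 2 * |p.1| := by field_simp
  rw [h5, ← h4] at h2
  have h6 : (fderiv ℝ ph p (0, 1) +
      FF (uu (ph p) ((sg (ph p) / p.2) ^ 4)) * |fderiv ℝ ph p (1, 0)|) *
        fderiv ℝ GG (p, ph p) (0, 1) = 0 := by linear_combination h2
  rcases mul_eq_zero.1 h6 with h7 | h7
  · linarith
  · exact absurd h7 h3.ne'

end Pool.H76.CMC
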