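import Pool.Agent.H76.CMCPhiSmooth

/-!
# The curvature equation in the `(y,η)` half plane
-/

open scoped ContDiff Topology
open Set Filter

namespace Pool.H76.CMC

/-- `φ_y`. -/
noncomputable def phy (q : ℝ × ℝ) : ℝ := fderiv ℝ ph q (1, 0)

/-- `φ_η`. -/
noncomputable def phη (q : ℝ × ℝ) : ℝ := fderiv ℝ ph q (0, 1)

/-- The Euclidean norm of `Dφ`. -/
noncomputable def DD (q : ℝ × ℝ) : ℝ := √(phy q ^ 2 + phη q ^ 2)

/-- `a = η⁵ φ_y / |Dφ|`. -/
noncomputable def aV (q : ℝ × ℝ) : ℝ := q.2 ^ 5 * (phy q / DD q)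

/-- `b = - η⁴ φ_η / |Dφ|`. -/
noncomputable def bV (q : ℝ × ℝ) : ℝ := q.2 ^ 4 * (-(phη q / DD q))

theorem contDiffAt_phy {q : ℝ × ℝ} (hη : 0 < q.2) : ContDiffAt ℝ ∞ phy q := by
  have h1 : ContDiffAt ℝ ∞ (fderiv ℝ ph) q := (contDiffAt_ph hη).fderiv_right (by simp)
  exact h1.clm_apply contDiffAt_const

theorem contDiffAt_phη {q : ℝ × ℝ} (hη : 0 < q.2) : ContDiffAt ℝ ∞ phη q := by
  have h1 : ContDiffAt ℝ ∞ (fderiv ℝ ph) q := (contDiffAt_ph hη).fderiv_right (by simp)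
  exact h1.clm_apply contDiffAt_const

theorem sq_add_sq_pos {q : ℝ × ℝ} (hη : 0 < q.2) : 0 < phy q ^ 2 + phη q ^ 2 := by
  have h1 : phη q < 0 := ph_η_neg hη
  have h2 : 0 < phη q ^ 2 := by nlinarith
  have h3 := sq_nonneg (phy q)
  linarith

theorem DD_pos {q : ℝ × ℝ} (hη : 0 < q.2) : 0 < DD q := Real.sqrt_pos.2 (sq_add_sq_pos hη)

theorem contDiffAt_DD {q : ℝ × ℝ} (hη : 0 < q.2) : ContDiffAt ℝ ∞ DD q := by
  unfold DD
  apply ContDiffAt.sqrt
  · exact ((contDiffAt_phy hη).pow 2).add ((contDiffAt_phη hη).pow 2)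
  · exact (sq_add_sq_pos hη).ne'

theorem contDiffAt_aV {q : ℝ × ℝ} (hη : 0 < q.2) : ContDiffAt ℝ ∞ aV q := by
  unfold aV
  exact (contDiffAt_snd.pow 5).mul ((contDiffAt_phy hη).div (contDiffAt_DD hη) (DD_pos hη).ne')

theorem contDiffAt_bV {q : ℝ × ℝ} (hη : 0 < q.2) : ContDiffAt ℝ ∞ bV q := by
  unfold bV
  exact (contDiffAt_snd.pow 4).mul
    (((contDiffAt_phη hη).div (contDiffAt_DD hη) (DD_pos hη).ne').neg)

/-- `u` at the point `q`. -/
noncomputable def UU (q : ℝ × ℝ) : ℝ := uu (ph q) ((sg (ph q) / q.2) ^ 4)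

theorem UU_pos {q : ℝ × ℝ} (hη : 0 < q.2) : 0 < UU q := by
  obtain ⟨a1, a2, a3, a4, a5⟩ := ph_rel hη
  exact uu_pos (by linarith) a2 (by positivity)

theorem UU_lt_one {q : ℝ × ℝ} (hη : 0 < q.2) (hy : q.1 ≠ 0) : UU q < 1 := by
  obtain ⟨a1, a2, a3, a4, a5⟩ := ph_rel hη
  exact uu_lt_one a2 (pow_lt_one₀ a3 (ρ_lt_one hη hy) (by norm_num))

theorem sqrt_UU_pos {q : ℝ × ℝ} (hη : 0 < q.2) (hy : q.1 ≠ 0) : 0 < √(1 - UU q ^ 2) := by
  have h1 := UU_pos hη
  have h2 := UU_lt_one hη hy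
  exact Real.sqrt_pos.2 (by nlinarith)

theorem phη_eq {q : ℝ × ℝ} (hη : 0 < q.2) (hy : q.1 ≠ 0) :
    phη q = -(UU q / √(1 - UU q ^ 2) * |phy q|) := ph_slope hη hy

theorem DD_eq {q : ℝ × ℝ} (hη : 0 < q.2) (hy : q.1 ≠ 0) :
    DD q = |phy q| / √(1 - UU q ^ 2) := by
  have h1 := sqrt_UU_pos hη hy
  have h2 : √(1 - UU q ^ 2) ^ 2 = 1 - UU q ^ 2 := Real.sq_sqrt (by
    have h1 := UU_pos hη
    have h2 := UU_lt_one hη hy
    nlinarith)
  unfold DD
  have h3 : phy q ^ 2 + phη q ^ 2 = (|phy q| / √(1 - UU q ^ 2)) ^ 2 := by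
    rw [phη_eq hη hy, div_pow, sq_abs, h2, neg_sq, mul_pow, div_pow, h2, sq_abs]
    have : 1 - UU q ^ 2 ≠ 0 := by rw [← h2]; positivity
    field_simp
    ring
  rw [h3, Real.sqrt_sq (by positivity)]

theorem abs_phy_pos {q : ℝ × ℝ} (hη : 0 < q.2) (hy : q.1 ≠ 0) : 0 < |phy q| := by
  have := ph_y_pos hη hy
  rw [abs_pos]
  intro h
  unfold phy at h
  rw [h, mul_zero] at this
  exact lt_irrefl _ this

theorem bV_eq {q : ℝ × ℝ} (hη : 0 < q.2) (hy : q.1 ≠ 0) :
    bV q = q.2 ^ 4 * ph q + (1 - ph q) * sg (ph q) ^ 4 := by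
  have h1 := sqrt_UU_pos hη hy
  have h2 := abs_phy_pos hη hy
  have h3 : -(phη q / DD q) = UU q := by
    rw [DD_eq hη hy, phη_eq hη hy]
    field_simp
  unfold bV
  rw [h3]
  unfold UU uu
  field_simp

theorem aV_eq {q : ℝ × ℝ} (hη : 0 < q.2) (hy : q.1 ≠ 0) :
    aV q = q.2 ^ 5 * (SignType.sign q.1 * √(1 - UU q ^ 2)) := by
  have h1 := sqrt_UU_pos hη hy
  have h2 := abs_phy_pos hη hy
  have h4 : phy q = SignType.sign q.1 * |phy q| := by
    have h5 := ph_y_pos hη hy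
    rcases lt_or_gt_of_ne hy with h | h
    · have : phy q < 0 := by
        by_contra hcon
        push Not at hcon
        have := mul_nonneg (neg_nonneg.2 h.le) hcon
        unfold phy at this
        linarith
      rw [abs_of_neg this, sign_neg h]
      simp
    · have : 0 < phy q := by
        by_contra hcon
        push Not at hcon
        have := mul_nonneg h.le (neg_nonneg.2 hcon)
        unfold phy at this
        linarith
      rw [abs_of_pos this, sign_pos h]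
      simp
  have h3 : phy q / DD q = SignType.sign q.1 * √(1 - UU q ^ 2) := by
    rw [DD_eq hη hy]
    rw [div_div_eq_mul_div]
    nth_rewrite 1 [h4]
    field_simp
  unfold aV
  rw [h3]

/-- The derivative of `C(h) = (1-h) σ(h)⁴`. -/
noncomputable def CC' (h : ℝ) : ℝ := -(sg h ^ 4) + (1 - h) * (4 * sg h ^ 3 * deriv sg h)

theorem hasDerivAt_CC {h : ℝ} (h0 : 1 / 2 < h) :
    HasDerivAt (fun h => (1 - h) * sg h ^ 4) (CC' h) h := by
  have h1 := ((hasDerivAt_id h).const_sub 1).mul ((hasDerivAt_sg h0).pow 4)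
  refine (h1 : HasDerivAt (fun h => (1 - h) * sg h ^ 4) _ h).congr_deriv ?_
  unfold CC'
  simp

theorem plane_eq_of_ne {q : ℝ × ℝ} (hη : 0 < q.2) (hy : q.1 ≠ 0) :
    fderiv ℝ aV q (1, 0) - q.2 * fderiv ℝ bV q (0, 1) = -(4 * q.2 ^ 4 * ph q) := by
  obtain ⟨a1, a2, a3, a4, a5⟩ := ph_rel hη
  have hs := sqrt_UU_pos hη hy
  have hU : ∀ {q : ℝ × ℝ}, 0 < q.2 → UU q = ph q + (1 - ph q) * sg (ph q) ^ 4 / q.2 ^ 4 := by
    intro q hη
    unfold UU uu
    rw [div_pow]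
    ring
  -- derivative of `b`
  have db : fderiv ℝ bV q (0, 1) =
      4 * q.2 ^ 3 * ph q + (q.2 ^ 4 + CC' (ph q)) * phη q := by
    have hb : HasFDerivAt bV (fderiv ℝ bV q) q :=
      ((contDiffAt_bV hη).differentiableAt (by simp)).hasFDerivAt
    have hc : HasDerivAt (fun x : ℝ => (q.1, x)) ((0 : ℝ), (1 : ℝ)) q.2 :=
      (hasDerivAt_const _ _).prodMk (hasDerivAt_id _)
    have h2 := HasFDerivAt.comp_hasDerivAt (f := fun x : ℝ => (q.1, x)) (l := bV) q.2 hb hc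
    have hp := HasFDerivAt.comp_hasDerivAt (f := fun x : ℝ => (q.1, x)) (l := ph) q.2
      (hasFDerivAt_ph hη) hc
    have e1 : HasDerivAt (fun x : ℝ => x ^ 4) (4 * q.2 ^ 3) q.2 := by
      simpa using hasDerivAt_pow 4 q.2
    have hC := HasDerivAt.comp (h₂ := fun h => (1 - h) * sg h ^ 4)
      (h := fun x : ℝ => ph (q.1, x)) q.2 (hasDerivAt_CC a1) hp
    have h3 := (e1.mul hp).add hC
    have h4 : (bV ∘ fun x : ℝ => (q.1, x)) =ᶠ[𝓝 q.2]
        fun x : ℝ => x ^ 4 * ph (q.1, x) + (1 - ph (q.1, x)) * sg (ph (q.1, x)) ^ 4 := by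
      filter_upwards [lt_mem_nhds hη] with x hx
      exact bV_eq (q := (q.1, x)) hx hy
    have h5 := (h3 : HasDerivAt (fun x : ℝ => x ^ 4 * ph (q.1, x) +
      (1 - ph (q.1, x)) * sg (ph (q.1, x)) ^ 4) _ q.2).congr_of_eventuallyEq h4
    rw [h2.unique h5]
    unfold phη
    simp only [Function.comp]
    ring
  -- derivative of `u`
  have hUd : HasDerivAt (fun x : ℝ => UU (x, q.2)) ((1 + CC' (ph q) / q.2 ^ 4) * phy q) q.1 := by
    have hc : HasDerivAt (fun x : ℝ => (x, q.2)) ((1 : ℝ), (0 : ℝ)) q.1 :=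
      (hasDerivAt_id _).prodMk (hasDerivAt_const _ _)
    have hp := HasFDerivAt.comp_hasDerivAt (f := fun x : ℝ => (x, q.2)) (l := ph) q.1
      (hasFDerivAt_ph hη) hc
    have hC := HasDerivAt.comp (h₂ := fun h => (1 - h) * sg h ^ 4)
      (h := fun x : ℝ => ph (x, q.2)) q.1 (hasDerivAt_CC a1) hp
    have h3 := hp.add (hC.div_const (q.2 ^ 4))
    have h4 : (fun x : ℝ => UU (x, q.2)) = fun x : ℝ => ph (x, q.2) +
        (1 - ph (x, q.2)) * sg (ph (x, q.2)) ^ 4 / q.2 ^ 4 := by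
      funext x
      exact hU (q := (x, q.2)) hη
    rw [h4]
    refine (h3 : HasDerivAt (fun x : ℝ => ph (x, q.2) +
      (1 - ph (x, q.2)) * sg (ph (x, q.2)) ^ 4 / q.2 ^ 4) _ q.1).congr_deriv ?_
    unfold phy
    ring
  -- derivative of `a`
  have da : fderiv ℝ aV q (1, 0) = q.2 ^ 5 * (SignType.sign q.1 *
      (-(2 * UU q * ((1 + CC' (ph q) / q.2 ^ 4) * phy q)) / (2 * √(1 - UU q ^ 2)))) := by
    have ha : HasFDerivAt aV (fderiv ℝ aV q) q :=
      ((contDiffAt_aV hη).differentiableAt (by simp)).hasFDerivAt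
    have hc : HasDerivAt (fun x : ℝ => (x, q.2)) ((1 : ℝ), (0 : ℝ)) q.1 :=
      (hasDerivAt_id _).prodMk (hasDerivAt_const _ _)
    have h2 := HasFDerivAt.comp_hasDerivAt (f := fun x : ℝ => (x, q.2)) (l := aV) q.1 ha hc
    have hpos : 1 - UU q ^ 2 ≠ 0 := (Real.sqrt_pos.1 hs).ne'
    have h3 := ((((hUd.pow 2).const_sub 1).sqrt hpos).const_mul
      ((SignType.sign q.1 : ℝ))).const_mul (q.2 ^ 5)
    have h4 : (aV ∘ fun x : ℝ => (x, q.2)) =ᶠ[𝓝 q.1]
        fun x : ℝ => q.2 ^ 5 * ((SignType.sign q.1 : ℝ) * √(1 - UU (x, q.2) ^ 2)) := by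
      have hev : ∀ᶠ x in 𝓝 q.1, SignType.sign x = SignType.sign q.1 ∧ x ≠ 0 := by
        rcases lt_or_gt_of_ne hy with h | h
        · filter_upwards [gt_mem_nhds h] with x hx
          rw [sign_neg h, sign_neg hx]
          exact ⟨rfl, hx.ne⟩
        · filter_upwards [lt_mem_nhds h] with x hx
          rw [sign_pos h, sign_pos hx]
          exact ⟨rfl, hx.ne'⟩
      filter_upwards [hev] with x hx
      simp only [Function.comp]
      rw [aV_eq (q := (x, q.2)) hη hx.2]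
      simp only
      rw [hx.1]
    have h5 := (h3 : HasDerivAt (fun x : ℝ => q.2 ^ 5 * ((SignType.sign q.1 : ℝ) *
      √(1 - UU (x, q.2) ^ 2))) _ q.1).congr_of_eventuallyEq h4
    rw [h2.unique h5]
    simp
  rw [da, db]
  have h6 : (SignType.sign q.1 : ℝ) * phy q = |phy q| := by
    have h5 := ph_y_pos hη hy
    rcases lt_or_gt_of_ne hy with h | h
    · have : phy q < 0 := by
        by_contra hcon
        push Not at hcon
        have := mul_nonneg (neg_nonneg.2 h.le) hcon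
        unfold phy at this
        linarith
      rw [abs_of_neg this, sign_neg h]
      simp
    · have : 0 < phy q := by
        by_contra hcon
        push Not at hcon
        have := mul_nonneg h.le (neg_nonneg.2 hcon)
        unfold phy at this
        linarith
      rw [abs_of_pos this, sign_pos h]
      simp
  have h7 := phη_eq hη hy
  have h8 : q.2 ^ 5 * (SignType.sign q.1 *
      (-(2 * UU q * ((1 + CC' (ph q) / q.2 ^ 4) * phy q)) / (2 * √(1 - UU q ^ 2)))) =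
      q.2 * (q.2 ^ 4 + CC' (ph q)) * (-(UU q / √(1 - UU q ^ 2) *
        ((SignType.sign q.1 : ℝ) * phy q))) := by
    field_simp
  rw [h8, h6, ← h7]
  ring

theorem plane_eq {q : ℝ × ℝ} (hη : 0 < q.2) :
    fderiv ℝ aV q (1, 0) - q.2 * fderiv ℝ bV q (0, 1) = -(4 * q.2 ^ 4 * ph q) := by
  by_cases hy : q.1 ≠ 0
  · exact plane_eq_of_ne hη hy
  · push Not at hy
    set H : ℝ × ℝ → ℝ := fun q => fderiv ℝ aV q (1, 0) - q.2 * fderiv ℝ bV q (0, 1) +
      4 * q.2 ^ 4 * ph q with hH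
    have hHc : ContinuousAt H q := by
      have c1 : ContDiffAt ℝ 1 (fderiv ℝ aV) q := (contDiffAt_aV hη).fderiv_right (by
        norm_cast)
      have c2 : ContDiffAt ℝ 1 (fderiv ℝ bV) q := (contDiffAt_bV hη).fderiv_right (by
        norm_cast)
      have c3 := continuousAt_ph hη
      have c4 : ContinuousAt (fun q => fderiv ℝ aV q (1, 0)) q :=
        c1.continuousAt.clm_apply continuousAt_const
      have c5 : ContinuousAt (fun q => fderiv ℝ bV q (0, 1)) q :=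
        c2.continuousAt.clm_apply continuousAt_const
      exact (c4.sub (continuousAt_snd.mul c5)).add
        ((continuousAt_const.mul (continuousAt_snd.pow 4)).mul c3)
    have hcurve : Tendsto (fun t : ℝ => (t, q.2)) (𝓝[≠] 0) (𝓝 q) := by
      have : ContinuousAt (fun t : ℝ => (t, q.2)) 0 := by fun_prop
      have h2 : Tendsto (fun t : ℝ => (t, q.2)) (𝓝 0) (𝓝 ((0 : ℝ), q.2)) := this
      have h3 : ((0 : ℝ), q.2) = q := by rw [← hy]
      rw [h3] at h2
      exact h2.mono_left nhdsWithin_le_nhds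
    have h1 : Tendsto (fun t : ℝ => H (t, q.2)) (𝓝[≠] 0) (𝓝 (H q)) := hHc.tendsto.comp hcurve
    have h2 : Tendsto (fun t : ℝ => H (t, q.2)) (𝓝[≠] 0) (𝓝 0) := by
      apply Tendsto.congr' _ tendsto_const_nhds
      filter_upwards [self_mem_nhdsWithin] with t ht
      have := plane_eq_of_ne (q := (t, q.2)) hη ht
      rw [hH]
      simp only at this ⊢
      linarith
    have h3 := tendsto_nhds_unique h1 h2
    rw [hH] at h3
    simp only at h3
    linarith

end Pool.H76.CMC
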