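import Pool.Agent.H76.ParamInt

/-!
# The profile function of the counterexample
-/

open scoped ContDiff Topology
open Set Filter MeasureTheory

namespace Pool.H76.CMC

/-- `u = h + (1-h) w`. -/
noncomputable def uu (h w : ℝ) : ℝ := h + (1 - h) * w

/-- `F(u) = u / √(1-u²)`. -/
noncomputable def FF (u : ℝ) : ℝ := u / √(1 - u ^ 2)

/-- `a(h,w) = F(u) √(1-w) / (1+w)`. -/
noncomputable def aa (h w : ℝ) : ℝ := uu h w / (√(1 - h) * √(1 + uu h w) * (1 + w))

/-- `b = ∂a/∂w`. -/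
noncomputable def bb (h w : ℝ) : ℝ :=
  (2 + uu h w - uu h w ^ 2 - 2 * h * (uu h w + 2)) /
    (2 * √(1 - h) * (√(1 + uu h w) ^ 3) * (1 + w) ^ 2)

/-- The kernel `√((1+r)(1+r²)) r² b(h,r⁴)`. -/
noncomputable def kk (h r : ℝ) : ℝ := √((1 + r) * (1 + r ^ 2)) * r ^ 2 * bb h (r ^ 4)

/-- The function `W`, smooth on `(0,1) × (-1,∞)`, with `R = √(1-ρ) W`. -/
noncomputable def WW (h ρ : ℝ) : ℝ :=
  aa h (ρ ^ 4) * √((1 + ρ) * (1 + ρ ^ 2)) +
    4 * ρ * (1 - ρ) * ∫ t in (0 : ℝ)..1, √(1 - t) • kk h (t + ρ * (1 - t))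

/-- `R(h,ρ) = ρ ∫_ρ^1 F(h + (1-h) r⁴) r⁻² dr`. -/
noncomputable def RR (h ρ : ℝ) : ℝ := √(1 - ρ) * WW h ρ

theorem uu_pos {h w : ℝ} (h0 : 0 < h) (h1 : h < 1) (hw : 0 ≤ w) : 0 < uu h w := by
  unfold uu
  have : 0 ≤ (1 - h) * w := mul_nonneg (by linarith) hw
  linarith

theorem one_sub_uu (h w : ℝ) : 1 - uu h w = (1 - h) * (1 - w) := by
  unfold uu; ring

theorem uu_one (h : ℝ) : uu h 1 = 1 := by unfold uu; ring

theorem uu_zero (h : ℝ) : uu h 0 = h := by unfold uu; ring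

theorem aa_pos {h w : ℝ} (h0 : 0 < h) (h1 : h < 1) (hw : 0 ≤ w) : 0 < aa h w := by
  have hu := uu_pos h0 h1 hw
  unfold aa
  have e1 : 0 < √(1 - h) := Real.sqrt_pos.2 (by linarith)
  have e2 : 0 < √(1 + uu h w) := Real.sqrt_pos.2 (by linarith)
  positivity

theorem FF_uu {h w : ℝ} (h0 : 0 < h) (h1 : h < 1) (hw : 0 ≤ w) (hw1 : w < 1) :
    FF (uu h w) = aa h w * (1 + w) / √(1 - w) := by
  have hu := uu_pos h0 h1 hw
  unfold FF aa
  have e1 : 0 < √(1 - h) := Real.sqrt_pos.2 (by linarith)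
  have e2 : 0 < √(1 + uu h w) := Real.sqrt_pos.2 (by linarith)
  have e3 : 0 < √(1 - w) := Real.sqrt_pos.2 (by linarith)
  have : √(1 - uu h w ^ 2) = √(1 - h) * √(1 - w) * √(1 + uu h w) := by
    rw [← Real.sqrt_mul (by linarith), ← Real.sqrt_mul (by
      apply mul_nonneg <;> linarith), ← one_sub_uu]
    congr 1
    ring
  rw [this]
  field_simp

theorem hasDerivAt_aa {h w : ℝ} (h0 : 0 < h) (h1 : h < 1) (hw : 0 ≤ w) :
    HasDerivAt (aa h) (bb h w) w := by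
  have hu := uu_pos h0 h1 hw
  have e1 : 0 < √(1 - h) := Real.sqrt_pos.2 (by linarith)
  have e2 : 0 < √(1 + uu h w) := Real.sqrt_pos.2 (by linarith)
  have d1 : HasDerivAt (fun w => uu h w) (1 - h) w := by
    unfold uu
    simpa using ((hasDerivAt_id w).const_mul (1 - h)).const_add h
  have d2 : HasDerivAt (fun w => √(1 + uu h w)) ((1 - h) / (2 * √(1 + uu h w))) w :=
    (d1.const_add 1).sqrt (by linarith)
  have d3 : HasDerivAt (fun w => √(1 - h) * √(1 + uu h w) * (1 + w))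
      (√(1 - h) * ((1 - h) / (2 * √(1 + uu h w))) * (1 + w) + √(1 - h) * √(1 + uu h w) * 1) w :=
    (d2.const_mul _).mul ((hasDerivAt_id w).const_add 1)
  have d4 := d1.div d3 (by positivity)
  unfold aa
  refine d4.congr_deriv ?_
  unfold bb
  have hs : √(1 + uu h w) ^ 2 = 1 + uu h w := Real.sq_sqrt (by linarith)
  have hs3 : √(1 + uu h w) ^ 3 = (1 + uu h w) * √(1 + uu h w) := by rw [pow_succ, hs]
  have hh : (1 - h) * (1 + w) = 1 + uu h w - 2 * h := by unfold uu; ring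
  rw [div_eq_div_iff (by positivity) (by positivity)]
  generalize √(1 + uu h w) = s at *
  generalize √(1 - h) = c at *
  have hw' : (1 : ℝ) + w ≠ 0 := by positivity
  field_simp
  generalize uu h w = u at *
  linear_combination (2 * s ^ 2 - u) * hh + (2 * (1 + u - 2 * h) - 2 * u) * hs

theorem bb_neg {h w : ℝ} (h0 : 1 / 2 ≤ h) (h1 : h < 1) (hw : 0 ≤ w) : bb h w < 0 := by
  have hu := uu_pos (by linarith) h1 hw
  have e1 : 0 < √(1 - h) := Real.sqrt_pos.2 (by linarith)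
  have e2 : 0 < √(1 + uu h w) := Real.sqrt_pos.2 (by linarith)
  unfold bb
  apply div_neg_of_neg_of_pos _ (by positivity)
  nlinarith [mul_pos hu hu, mul_nonneg (show (0 : ℝ) ≤ 2 * h - 1 by linarith)
    (show (0 : ℝ) ≤ uu h w + 2 by linarith)]

/-- The function `m(r) = √(1-r⁴) r² b(h,r⁴)`. -/
noncomputable def mm (h r : ℝ) : ℝ := √(1 - r ^ 4) * r ^ 2 * bb h (r ^ 4)

theorem continuous_bb {h : ℝ} (h0 : 0 < h) (h1 : h < 1) :
    Continuous (fun r : ℝ => bb h (r ^ 4)) := by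
  unfold bb
  apply Continuous.div
  · unfold uu; fun_prop
  · unfold uu; fun_prop
  · intro r
    have hr : (0 : ℝ) ≤ r ^ 4 := by positivity
    have hu := uu_pos h0 h1 hr
    have e1 : 0 < √(1 - h) := Real.sqrt_pos.2 (by linarith)
    have e2 : 0 < √(1 + uu h (r ^ 4)) := Real.sqrt_pos.2 (by linarith)
    positivity

theorem continuous_mm {h : ℝ} (h0 : 0 < h) (h1 : h < 1) : Continuous (mm h) := by
  unfold mm
  exact (by fun_prop : Continuous fun r : ℝ => √(1 - r ^ 4) * r ^ 2).mul (continuous_bb h0 h1)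

theorem sqrt_one_sub_pow {r : ℝ} (hr1 : r ≤ 1) :
    √(1 - r ^ 4) = √(1 - r) * √((1 + r) * (1 + r ^ 2)) := by
  rw [← Real.sqrt_mul (by linarith)]
  congr 1
  ring

theorem RR_eq {h ρ : ℝ} (hρ1 : ρ ≤ 1) :
    RR h ρ = aa h (ρ ^ 4) * √(1 - ρ ^ 4) + 4 * ρ * ∫ r in ρ..1, mm h r := by
  have key : (∫ r in ρ..1, mm h r) =
      √(1 - ρ) * ((1 - ρ) * ∫ t in (0 : ℝ)..1, √(1 - t) • kk h (t + ρ * (1 - t))) := by
    have h1 := intervalIntegral.integral_comp_mul_add (a := 0) (b := 1) (mm h) (c := 1 - ρ)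
    rcases eq_or_lt_of_le hρ1 with h' | h'
    · subst h'
      simp
    · have h2 := h1 (by linarith) ρ
      have h3 : (∫ r in ρ..1, mm h r) = (1 - ρ) * ∫ t in (0 : ℝ)..1, mm h ((1 - ρ) * t + ρ) := by
        rw [h2]
        have : (1 - ρ) ≠ 0 := by linarith
        simp only [mul_zero, zero_add, mul_one, sub_add_cancel, smul_eq_mul]
        field_simp
      rw [h3, mul_left_comm, ← intervalIntegral.integral_const_mul (√(1 - ρ))]
      congr 1
      apply intervalIntegral.integral_congr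
      intro t ht
      rw [uIcc_of_le zero_le_one] at ht
      simp only [smul_eq_mul]
      have e : (1 - ρ) * t + ρ = t + ρ * (1 - t) := by ring
      rw [e]
      set r := t + ρ * (1 - t) with hr
      have hr1 : r ≤ 1 := by
        have : 0 ≤ (1 - ρ) * (1 - t) := mul_nonneg (by linarith) (by linarith [ht.2])
        rw [hr]; nlinarith
      unfold mm kk
      rw [sqrt_one_sub_pow hr1]
      have e2 : √(1 - r) = √(1 - ρ) * √(1 - t) := by
        rw [← Real.sqrt_mul (by linarith)]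
        congr 1
        rw [hr]; ring
      rw [e2]
      ring
  rw [key]
  unfold RR WW
  rw [sqrt_one_sub_pow hρ1]
  ring

theorem RR_one (h : ℝ) : RR h 1 = 0 := by simp [RR]

theorem RR_zero (h : ℝ) : RR h 0 = FF h := by
  rw [RR_eq (by norm_num)]
  unfold aa FF
  simp only [ne_eq, OfNat.ofNat_ne_zero, not_false_eq_true, zero_pow, uu_zero, add_zero, mul_one,
    sub_zero, Real.sqrt_one, mul_zero, zero_mul]
  rcases le_or_gt h 1 with h1 | h1
  · rw [← Real.sqrt_mul (by linarith)]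
    congr 2
    ring
  · have e1 : √(1 - h) = 0 := Real.sqrt_eq_zero_of_nonpos (by linarith)
    have e2 : √(1 - h ^ 2) = 0 := Real.sqrt_eq_zero_of_nonpos (by nlinarith)
    rw [e1, e2]; simp

/-- The derivative of `R` in `ρ`. -/
noncomputable def RR' (h ρ : ℝ) : ℝ :=
  -(2 * ρ ^ 3 * aa h (ρ ^ 4) / √(1 - ρ ^ 4)) + 4 * ∫ r in ρ..1, mm h r

theorem hasDerivAt_RR {h ρ : ℝ} (h0 : 0 < h) (h1 : h < 1) (hρ : -1 < ρ) (hρ1 : ρ < 1) :
    HasDerivAt (RR h) (RR' h ρ) ρ := by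
  have hlt : ρ ^ 4 < 1 := by
    have : ρ ^ 2 < 1 := by nlinarith
    nlinarith [sq_nonneg ρ]
  have hge : 0 ≤ ρ ^ 4 := by positivity
  have e1 : 0 < √(1 - ρ ^ 4) := Real.sqrt_pos.2 (by linarith)
  have d0 : HasDerivAt (fun x : ℝ => x ^ 4) (4 * ρ ^ 3) ρ := by
    simpa using hasDerivAt_pow 4 ρ
  have d1 : HasDerivAt (fun x : ℝ => aa h (x ^ 4)) (bb h (ρ ^ 4) * (4 * ρ ^ 3)) ρ :=
    HasDerivAt.comp (h₂ := aa h) (h := fun x : ℝ => x ^ 4) ρ (hasDerivAt_aa h0 h1 hge) d0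
  have d2 : HasDerivAt (fun x : ℝ => √(1 - x ^ 4)) (-(4 * ρ ^ 3) / (2 * √(1 - ρ ^ 4))) ρ :=
    (d0.const_sub 1).sqrt (by linarith)
  have d3 : HasDerivAt (fun x : ℝ => ∫ r in x..1, mm h r) (-(mm h ρ)) ρ := by
    apply intervalIntegral.integral_hasDerivAt_left
    · exact (continuous_mm h0 h1).intervalIntegrable _ _
    · exact (continuous_mm h0 h1).stronglyMeasurableAtFilter _ _
    · exact (continuous_mm h0 h1).continuousAt
  have d4 := (d1.mul d2).add (((hasDerivAt_id ρ).const_mul 4).mul d3)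
  have d5 : HasDerivAt (RR h) _ ρ := d4.congr_of_eventuallyEq (by
    filter_upwards [Iio_mem_nhds hρ1] with x hx
    rw [RR_eq (le_of_lt hx)]
    rfl)
  refine d5.congr_deriv ?_
  unfold RR' mm
  have hs : √(1 - ρ ^ 4) ^ 2 = 1 - ρ ^ 4 := Real.sq_sqrt (by linarith)
  simp only [id]
  field_simp
  ring

theorem RR_ode {h ρ : ℝ} (h0 : 0 < h) (h1 : h < 1) (hρ : -1 < ρ) (hρ1 : ρ < 1) :
    RR h ρ - ρ * RR' h ρ = FF (uu h (ρ ^ 4)) := by
  have hlt : ρ ^ 4 < 1 := by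
    have : ρ ^ 2 < 1 := by nlinarith
    nlinarith [sq_nonneg ρ]
  have hge : 0 ≤ ρ ^ 4 := by positivity
  have e1 : 0 < √(1 - ρ ^ 4) := Real.sqrt_pos.2 (by linarith)
  have hs : √(1 - ρ ^ 4) ^ 2 = 1 - ρ ^ 4 := Real.sq_sqrt (by linarith)
  rw [FF_uu h0 h1 hge hlt, RR_eq hρ1.le]
  unfold RR'
  field_simp
  linear_combination (aa h (ρ ^ 4)) * hs

theorem RR'_neg {h ρ : ℝ} (h0 : 1 / 2 ≤ h) (h1 : h < 1) (hρ : 0 ≤ ρ) (hρ1 : ρ < 1) :
    RR' h ρ < 0 := by
  have hlt : ρ ^ 4 < 1 := pow_lt_one₀ hρ hρ1 (by norm_num)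
  have hge : 0 ≤ ρ ^ 4 := by positivity
  have e1 : 0 < √(1 - ρ ^ 4) := Real.sqrt_pos.2 (by linarith)
  have ha : 0 < aa h (ρ ^ 4) := aa_pos (by linarith) h1 hge
  have hint : 0 < ∫ r in ρ..1, -(mm h r) := by
    apply intervalIntegral.intervalIntegral_pos_of_pos_on
    · exact (continuous_mm (by linarith) h1).neg.intervalIntegrable _ _
    · intro r hr
      have hr0 : 0 < r := lt_of_le_of_lt hρ hr.1
      have hr1 : r ^ 4 < 1 := pow_lt_one₀ hr0.le hr.2 (by norm_num)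
      have hb := bb_neg h0 h1 (show (0 : ℝ) ≤ r ^ 4 by positivity)
      have e2 : 0 < √(1 - r ^ 4) := Real.sqrt_pos.2 (by linarith)
      unfold mm
      have : 0 < √(1 - r ^ 4) * r ^ 2 * (-(bb h (r ^ 4))) := by
        have : 0 < -(bb h (r ^ 4)) := by linarith
        positivity
      linarith
    · exact hρ1
  rw [intervalIntegral.integral_neg] at hint
  unfold RR'
  have : 0 ≤ 2 * ρ ^ 3 * aa h (ρ ^ 4) / √(1 - ρ ^ 4) := by positivity
  linarith


theorem continuousOn_RR {h : ℝ} (h0 : 0 < h) (h1 : h < 1) : ContinuousOn (RR h) (Icc 0 1) := by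
  have : ContinuousOn (fun ρ : ℝ => aa h (ρ ^ 4) * √(1 - ρ ^ 4) + 4 * ρ * ∫ r in ρ..1, mm h r)
      (Icc 0 1) := by
    apply ContinuousOn.add
    · apply ContinuousOn.mul
      · intro ρ hρ
        have hge : (0 : ℝ) ≤ ρ ^ 4 := pow_nonneg hρ.1 4
        have d0 : ContinuousAt (fun x : ℝ => x ^ 4) ρ := by fun_prop
        exact (ContinuousAt.comp (g := aa h) (f := fun x : ℝ => x ^ 4)
          (hasDerivAt_aa h0 h1 hge).continuousAt d0).continuousWithinAt
      · fun_prop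
    · apply ContinuousOn.mul (by fun_prop)
      have : (fun ρ : ℝ => ∫ r in ρ..1, mm h r) = fun ρ : ℝ => -∫ r in (1 : ℝ)..ρ, mm h r := by
        funext ρ
        exact intervalIntegral.integral_symm _ _
      rw [this]
      exact (intervalIntegral.continuous_primitive
        (fun a b => (continuous_mm h0 h1).intervalIntegrable a b) 1).neg.continuousOn
  apply this.congr
  intro ρ hρ
  exact RR_eq hρ.2

theorem RR_strictAntiOn {h : ℝ} (h0 : 1 / 2 ≤ h) (h1 : h < 1) :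
    StrictAntiOn (RR h) (Icc 0 1) := by
  apply strictAntiOn_of_deriv_neg (convex_Icc 0 1) (continuousOn_RR (by linarith) h1)
  intro ρ hρ
  rw [interior_Icc] at hρ
  rw [(hasDerivAt_RR (by linarith) h1 (by linarith [hρ.1]) hρ.2).deriv]
  exact RR'_neg h0 h1 hρ.1.le hρ.2

theorem RR_pos {h ρ : ℝ} (h0 : 1 / 2 ≤ h) (h1 : h < 1) (hρ : 0 ≤ ρ) (hρ1 : ρ < 1) :
    0 < RR h ρ := by
  have := RR_strictAntiOn h0 h1 ⟨hρ, hρ1.le⟩ ⟨zero_le_one, le_rfl⟩ hρ1
  rwa [RR_one] at this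

theorem FF_strictMonoOn : StrictMonoOn FF (Ico 0 1) := by
  intro x hx y hy hxy
  unfold FF
  have e1 : 0 < √(1 - x ^ 2) := Real.sqrt_pos.2 (by nlinarith [hx.1, hx.2])
  have e2 : 0 < √(1 - y ^ 2) := Real.sqrt_pos.2 (by nlinarith [hy.1, hy.2])
  have e3 : √(1 - y ^ 2) ≤ √(1 - x ^ 2) := Real.sqrt_le_sqrt (by nlinarith [hx.1, hy.1])
  rw [div_lt_div_iff₀ e1 e2]
  calc x * √(1 - y ^ 2) ≤ x * √(1 - x ^ 2) := mul_le_mul_of_nonneg_left e3 hx.1
    _ < y * √(1 - x ^ 2) := mul_lt_mul_of_pos_right hxy e1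

theorem uu_lt_one {h w : ℝ} (h1 : h < 1) (hw1 : w < 1) : uu h w < 1 := by
  have := one_sub_uu h w
  have h2 : 0 < (1 - h) * (1 - w) := mul_pos (by linarith) (by linarith)
  linarith

theorem uu_mono {h₁ h₂ w : ℝ} (hh : h₁ ≤ h₂) (hw1 : w ≤ 1) : uu h₁ w ≤ uu h₂ w := by
  unfold uu
  nlinarith [mul_nonneg (show 0 ≤ h₂ - h₁ by linarith) (show 0 ≤ 1 - w by linarith)]

theorem RR_mono {h₁ h₂ ρ : ℝ} (h0 : 0 < h₁) (hh : h₁ ≤ h₂) (h1 : h₂ < 1) (hρ : 0 ≤ ρ)
    (hρ1 : ρ ≤ 1) : RR h₁ ρ ≤ RR h₂ ρ := by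
  rcases eq_or_lt_of_le hρ with h' | hρ0
  · subst h'
    rw [RR_zero, RR_zero]
    exact FF_strictMonoOn.monotoneOn ⟨h0.le, by linarith⟩ ⟨by linarith, h1⟩ hh
  · have hanti : AntitoneOn (fun x => (RR h₂ x - RR h₁ x) / x) (Ioc 0 1) := by
      apply antitoneOn_of_deriv_nonpos (convex_Ioc 0 1)
      · apply ContinuousOn.div
        · exact ((continuousOn_RR (by linarith) h1).mono Ioc_subset_Icc_self).sub
            ((continuousOn_RR h0 (by linarith)).mono Ioc_subset_Icc_self)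
        · fun_prop
        · intro x hx
          exact hx.1.ne'
      · rw [interior_Ioc]
        intro x hx
        have d1 := hasDerivAt_RR (h := h₂) (ρ := x) (by linarith) h1 (by linarith [hx.1]) hx.2
        have d2 := hasDerivAt_RR (h := h₁) (ρ := x) h0 (by linarith) (by linarith [hx.1]) hx.2
        exact ((d1.sub d2).div (hasDerivAt_id x) hx.1.ne').differentiableAt.differentiableWithinAt
      · rw [interior_Ioc]
        intro x hx
        have d1 := hasDerivAt_RR (h := h₂) (ρ := x) (by linarith) h1 (by linarith [hx.1]) hx.2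
        have d2 := hasDerivAt_RR (h := h₁) (ρ := x) h0 (by linarith) (by linarith [hx.1]) hx.2
        have d3 := (d1.sub d2).div (hasDerivAt_id x) hx.1.ne'
        have o1 := RR_ode (h := h₂) (ρ := x) (by linarith) h1 (by linarith [hx.1]) hx.2
        have o2 := RR_ode (h := h₁) (ρ := x) h0 (by linarith) (by linarith [hx.1]) hx.2
        have d4 : HasDerivAt (fun x => (RR h₂ x - RR h₁ x) / x) _ x := d3
        rw [d4.deriv]
        apply div_nonpos_of_nonpos_of_nonneg _ (by positivity)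
        have hx4 : x ^ 4 < 1 := pow_lt_one₀ hx.1.le hx.2 (by norm_num)
        have hx4' : 0 ≤ x ^ 4 := by positivity
        have hF : FF (uu h₁ (x ^ 4)) ≤ FF (uu h₂ (x ^ 4)) := by
          apply FF_strictMonoOn.monotoneOn
          · exact ⟨(uu_pos h0 (by linarith) hx4').le, uu_lt_one (by linarith) hx4⟩
          · exact ⟨(uu_pos (by linarith) h1 hx4').le, uu_lt_one h1 hx4⟩
          · exact uu_mono hh hx4.le
        simp only [id, Pi.sub_apply]
        nlinarith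
    have := hanti ⟨hρ0, hρ1⟩ ⟨zero_lt_one, le_rfl⟩ hρ1
    simp only [RR_one, sub_zero, zero_div] at this
    by_contra hcon
    push Not at hcon
    have h3 := div_neg_of_neg_of_pos (show RR h₂ ρ - RR h₁ ρ < 0 by linarith) hρ0
    linarith

theorem WW_one_pos {h : ℝ} (h0 : 0 < h) (h1 : h < 1) : 0 < WW h 1 := by
  unfold WW
  have ha : 0 < aa h (1 ^ 4) := aa_pos h0 h1 (by norm_num)
  have : 0 < √((1 + (1 : ℝ)) * (1 + 1 ^ 2)) := Real.sqrt_pos.2 (by norm_num)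
  simp only [sub_self, mul_zero, zero_mul, add_zero]
  positivity

/-- The domain of smoothness of `W`. -/
def domW : Set (ℝ × ℝ) := Ioo 0 1 ×ˢ Ioo (-1 / 2) 2

theorem isOpen_domW : IsOpen domW := isOpen_Ioo.prod isOpen_Ioo

theorem contDiffAt_uu (p : ℝ × ℝ) : ContDiffAt ℝ ∞ (fun p : ℝ × ℝ => uu p.1 p.2) p := by
  unfold uu; fun_prop

theorem contDiffAt_aa {p : ℝ × ℝ} (h0 : 0 < p.1) (h1 : p.1 < 1) (hw : 0 ≤ p.2) :
    ContDiffAt ℝ ∞ (fun p : ℝ × ℝ => aa p.1 p.2) p := by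
  have hu := uu_pos h0 h1 hw
  have e1 : 0 < √(1 - p.1) := Real.sqrt_pos.2 (by linarith)
  have e2 : 0 < √(1 + uu p.1 p.2) := Real.sqrt_pos.2 (by linarith)
  unfold aa
  apply ContDiffAt.div (contDiffAt_uu p)
  · apply ContDiffAt.mul
    · apply ContDiffAt.mul
      · apply ContDiffAt.sqrt (by fun_prop) (by linarith)
      · apply ContDiffAt.sqrt (contDiffAt_const.add (contDiffAt_uu p)) (by linarith)
    · fun_prop
  · positivity

theorem contDiffAt_bb {p : ℝ × ℝ} (h0 : 0 < p.1) (h1 : p.1 < 1) (hw : 0 ≤ p.2) :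
    ContDiffAt ℝ ∞ (fun p : ℝ × ℝ => bb p.1 p.2) p := by
  have hu := uu_pos h0 h1 hw
  have e1 : 0 < √(1 - p.1) := Real.sqrt_pos.2 (by linarith)
  have e2 : 0 < √(1 + uu p.1 p.2) := Real.sqrt_pos.2 (by linarith)
  have c1 := contDiffAt_uu p
  unfold bb
  apply ContDiffAt.div
  · fun_prop
  · apply ContDiffAt.mul
    · apply ContDiffAt.mul
      · apply ContDiffAt.mul contDiffAt_const
        apply ContDiffAt.sqrt (by fun_prop) (by linarith)
      · apply ContDiffAt.pow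
        apply ContDiffAt.sqrt (contDiffAt_const.add (contDiffAt_uu p)) (by linarith)
    · fun_prop
  · positivity

theorem contDiffOn_WW : ContDiffOn ℝ ∞ (Function.uncurry WW) domW := by
  have hK : ContDiffOn ℝ ∞ (Function.uncurry (fun (p : ℝ × ℝ) (t : ℝ) =>
      kk p.1 (t + p.2 * (1 - t)))) (domW ×ˢ Ioo (-1 / 4) (5 / 4)) := by
    rintro ⟨⟨h, ρ⟩, t⟩ ⟨⟨hh, hρ⟩, ht⟩
    simp only at hh hρ ht
    have hr : 0 < 1 + (t + ρ * (1 - t)) := by
      rcases le_or_gt ρ 1 with h1 | h1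
      · nlinarith [mul_nonneg (show 0 ≤ 1 - ρ by linarith) (show 0 ≤ t + 1 / 4 by linarith [ht.1]),
          hρ.1]
      · nlinarith [mul_nonneg (show 0 ≤ ρ - 1 by linarith) (show 0 ≤ 5 / 4 - t by linarith [ht.2]),
          hρ.2, ht.1]
    apply ContDiffAt.contDiffWithinAt
    have hcr : ContDiffAt ℝ ∞ (fun q : (ℝ × ℝ) × ℝ => q.2 + q.1.2 * (1 - q.2)) ((h, ρ), t) := by
      fun_prop
    unfold kk Function.uncurry
    apply ContDiffAt.mul
    · apply ContDiffAt.mul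
      · apply ContDiffAt.sqrt (by fun_prop)
        simp only
        positivity
      · fun_prop
    · have hb : ContDiffAt ℝ ∞ (fun p : ℝ × ℝ => bb p.1 p.2)
          ((fun q : (ℝ × ℝ) × ℝ => (q.1.1, (q.2 + q.1.2 * (1 - q.2)) ^ 4)) ((h, ρ), t)) :=
        contDiffAt_bb hh.1 hh.2 (by simp only; positivity)
      have hc : ContDiffAt ℝ ∞ (fun q : (ℝ × ℝ) × ℝ => (q.1.1, (q.2 + q.1.2 * (1 - q.2)) ^ 4))
          ((h, ρ), t) := by fun_prop
      exact ContDiffAt.comp ((h, ρ), t) hb hc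
  have hint := contDiffOn_paramInt isOpen_domW (V := Ioo (-1 / 4) (5 / 4))
    (by intro t ht; exact ⟨by linarith [ht.1], by linarith [ht.2]⟩) isOpen_Ioo
    (w := fun t => √(1 - t)) (by fun_prop) hK
  have e : Function.uncurry WW = fun p : ℝ × ℝ =>
      aa p.1 (p.2 ^ 4) * √((1 + p.2) * (1 + p.2 ^ 2)) +
        4 * p.2 * (1 - p.2) * ∫ t in (0 : ℝ)..1, √(1 - t) • kk p.1 (t + p.2 * (1 - t)) := rfl
  rw [e]
  apply ContDiffOn.add
  · rintro ⟨h, ρ⟩ ⟨hh, hρ⟩
    simp only at hh hρ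
    apply ContDiffAt.contDiffWithinAt
    apply ContDiffAt.mul
    · have hb : ContDiffAt ℝ ∞ (fun p : ℝ × ℝ => aa p.1 p.2)
          ((fun q : (ℝ × ℝ) => (q.1, q.2 ^ 4)) (h, ρ)) :=
        contDiffAt_aa hh.1 hh.2 (by simp only; positivity)
      have hc : ContDiffAt ℝ ∞ (fun q : (ℝ × ℝ) => (q.1, q.2 ^ 4)) (h, ρ) := by fun_prop
      exact ContDiffAt.comp (h, ρ) hb hc
    · apply ContDiffAt.sqrt (by fun_prop)
      simp only
      have : 0 < 1 + ρ := by linarith [hρ.1]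
      positivity
  · exact ContDiffOn.mul (by fun_prop) hint

end Pool.H76.CMC
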