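import Pool.Agent.H76.EPCM

set_option autoImplicit false

/-! Iterates of the inverse of `v + v^2 / r`. -/

namespace Pool.Agent.H76.EP

open Real Set

/-- the inverse of `v + v^2 / r` on `[0, ∞)` -/
noncomputable def bt (r t : ℝ) : ℝ := r / 2 * ((1 + 4 / r * t) ^ ((1 : ℝ) / 2) - 1)

lemma bt_sq {r t : ℝ} (hr : 0 < r) (ht : 0 ≤ t) : bt r t + bt r t ^ 2 / r = t := by
  unfold bt
  have h0 : 0 ≤ 1 + 4 / r * t := by positivity
  have h1 : ((1 + 4 / r * t) ^ ((1 : ℝ) / 2)) ^ 2 = 1 + 4 / r * t := by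
    rw [← Real.rpow_natCast, ← Real.rpow_mul h0]; norm_num
  set w := (1 + 4 / r * t) ^ ((1 : ℝ) / 2) with hw
  have h2 : r / 2 * (w - 1) + (r / 2 * (w - 1)) ^ 2 / r = r / 4 * (w ^ 2 - 1) := by
    field_simp; ring
  rw [h2, h1]; field_simp; ring

lemma bt_nonneg {r t : ℝ} (hr : 0 < r) (ht : 0 ≤ t) : 0 ≤ bt r t := by
  unfold bt
  have h0 : 1 ≤ 1 + 4 / r * t := by
    have : 0 ≤ 4 / r * t := by positivity
    linarith
  have := Real.one_le_rpow h0 (by norm_num : (0 : ℝ) ≤ 1 / 2)
  exact mul_nonneg (by positivity) (by linarith)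

lemma bt_pos {r t : ℝ} (hr : 0 < r) (ht : 0 < t) : 0 < bt r t := by
  unfold bt
  have h0 : 1 < 1 + 4 / r * t := by
    have : 0 < 4 / r * t := by positivity
    linarith
  have := Real.one_lt_rpow h0 (by norm_num : (0 : ℝ) < 1 / 2)
  exact mul_pos (by positivity) (by linarith)

lemma bt_inv {r v : ℝ} (hr : 0 < r) (hv : 0 ≤ v) : bt r (v + v ^ 2 / r) = v := by
  unfold bt
  have h1 : 1 + 4 / r * (v + v ^ 2 / r) = (1 + 2 * v / r) ^ 2 := by field_simp; ring
  rw [h1, ← Real.rpow_natCast, ← Real.rpow_mul (by positivity)]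
  norm_num
  field_simp

lemma bt_hasDerivAt {r t : ℝ} (hr : 0 < r) (ht : 0 < t) :
    HasDerivAt (bt r) ((1 + 4 / r * t) ^ (-(1 / 2 : ℝ))) t := by
  have h1 : HasDerivAt (fun t : ℝ => 1 + 4 / r * t) (4 / r) t := by
    simpa using ((hasDerivAt_id t).const_mul (4 / r)).const_add 1
  have h2 := ((h1.rpow_const (p := (1 : ℝ) / 2) (Or.inl (by positivity))).sub_const 1).const_mul
    (r / 2)
  have e : (1 + 4 / r * t) ^ (-(1 / 2 : ℝ)) =
      r / 2 * (4 / r * (1 / 2) * (1 + 4 / r * t) ^ ((1 : ℝ) / 2 - 1)) := by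
    rw [show ((1 : ℝ) / 2 - 1) = -(1 / 2) by norm_num]
    field_simp
    norm_num
  rw [e]
  exact h2

lemma bt_bern {r : ℝ} (hr : 0 < r) (n : ℕ) : Bern n (bt r) := by
  refine ⟨fun x hx => bt_pos hr hx,
    fun x hx => (bt_hasDerivAt hr hx).differentiableAt.differentiableWithinAt, ?_⟩
  apply (CM.pw (a := 4 / r) (by positivity) n (α := 1 / 2) (by norm_num)).congr
  intro x hx
  exact ((bt_hasDerivAt hr hx).deriv).symm

/-- iterates -/
noncomputable def gi (r : ℝ) : ℕ → ℝ → ℝ
  | 0, t => t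
  | k + 1, t => bt r (gi r k t)

lemma gi_bern {r : ℝ} (hr : 0 < r) (n k : ℕ) : Bern n (gi r (k + 1)) := by
  induction k with
  | zero => exact bt_bern hr n
  | succ k ih => exact (bt_bern hr n).comp ih

lemma gi_nonneg {r : ℝ} (hr : 0 < r) (k : ℕ) {t : ℝ} (ht : 0 ≤ t) : 0 ≤ gi r k t := by
  induction k with
  | zero => exact ht
  | succ k ih => exact bt_nonneg hr ih

lemma gi_pos {r : ℝ} (hr : 0 < r) (k : ℕ) {t : ℝ} (ht : 0 < t) : 0 < gi r k t := by
  induction k with
  | zero => exact ht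
  | succ k ih => exact bt_pos hr ih

/-- the inverse polynomial map -/
noncomputable def Psi (r : ℝ) : ℕ → ℝ → ℝ
  | 0, v => v
  | k + 1, v => Psi r k (v + v ^ 2 / r)

lemma Psi_gi {r : ℝ} (hr : 0 < r) (k : ℕ) {t : ℝ} (ht : 0 ≤ t) : Psi r k (gi r k t) = t := by
  induction k with
  | zero => rfl
  | succ k ih =>
    show Psi r k (bt r (gi r k t) + bt r (gi r k t) ^ 2 / r) = t
    rw [bt_sq hr (gi_nonneg hr k ht)]
    exact ih

lemma gi_Psi {r : ℝ} (hr : 0 < r) (k : ℕ) : ∀ {v : ℝ}, 0 ≤ v → gi r k (Psi r k v) = v := by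
  induction k with
  | zero => intro v _; rfl
  | succ k ih =>
    intro v hv
    show bt r (gi r k (Psi r k (v + v ^ 2 / r))) = v
    rw [ih (by positivity), bt_inv hr hv]

lemma Psi_nonneg {r : ℝ} (hr : 0 < r) (k : ℕ) : ∀ {v : ℝ}, 0 ≤ v → 0 ≤ Psi r k v := by
  induction k with
  | zero => intro v hv; exact hv
  | succ k ih =>
    intro v hv
    show 0 ≤ Psi r k (v + v ^ 2 / r)
    exact ih (by positivity)

lemma Psi_mono {r : ℝ} (hr : 0 < r) (k : ℕ) : ∀ {v w : ℝ}, 0 ≤ v → v ≤ w →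
    Psi r k v ≤ Psi r k w := by
  induction k with
  | zero => intro v w _ h; exact h
  | succ k ih =>
    intro v w hv hvw
    show Psi r k (v + v ^ 2 / r) ≤ Psi r k (w + w ^ 2 / r)
    apply ih (by positivity)
    have : v ^ 2 / r ≤ w ^ 2 / r :=
      div_le_div_of_nonneg_right (pow_le_pow_left₀ hv hvw 2) hr.le
    linarith

lemma gi_contDiffOn {r : ℝ} (hr : 0 < r) (k : ℕ) : ContDiffOn ℝ (⊤ : ℕ∞) (gi r k) (Ioi 0) := by
  induction k with
  | zero => exact contDiffOn_id
  | succ k ih =>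
    have h1 : ContDiffOn ℝ (⊤ : ℕ∞) (bt r) (Ioi 0) := by
      intro x hx
      have hx' : (0 : ℝ) < x := hx
      have hp : 0 < 1 + 4 / r * x := by positivity
      unfold bt
      exact (contDiffAt_const.mul (((contDiffAt_const.add
        (contDiffAt_const.mul contDiffAt_id)).rpow_const_of_ne hp.ne').sub
          contDiffAt_const)).contDiffWithinAt
    exact h1.comp ih (fun x hx => gi_pos hr k hx)

/-- bounds for the iterates -/
lemma gi_inv_bounds {r : ℝ} (hr : 0 < r) (k : ℕ) {t : ℝ} (ht : 0 < t) :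
    gi r k t ≤ t ∧ 1 / t + k / (r + t) ≤ 1 / gi r k t ∧ 1 / gi r k t ≤ 1 / t + k / r := by
  induction k with
  | zero => simp [gi]
  | succ k ih =>
    obtain ⟨h1, h2, h3⟩ := ih
    have hp := gi_pos hr k ht
    have hp1 : 0 < gi r (k + 1) t := gi_pos hr (k + 1) ht
    have hsq : gi r (k + 1) t + gi r (k + 1) t ^ 2 / r = gi r k t := bt_sq hr hp.le
    set v := gi r (k + 1) t with hv
    have hle : v ≤ gi r k t := by
      have : 0 ≤ v ^ 2 / r := by positivity
      linarith
    have hstep : 1 / v = 1 / gi r k t + 1 / (r + v) := by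
      rw [← hsq]
      field_simp
    refine ⟨by linarith, ?_, ?_⟩
    · rw [hstep]; push_cast
      have h4 : 1 / (r + t) ≤ 1 / (r + v) :=
        one_div_le_one_div_of_le (by positivity) (by linarith)
      have e : ((k : ℝ) + 1) / (r + t) = k / (r + t) + 1 / (r + t) := by ring
      rw [e]; linarith
    · rw [hstep]; push_cast
      have h4 : 1 / (r + v) ≤ 1 / r := one_div_le_one_div_of_le hr (by linarith)
      have e : ((k : ℝ) + 1) / r = k / r + 1 / r := by ring
      rw [e]; linarith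

/-- the functions used: `r`-fold iterate with parameter `r` (shifted by one to have `r ≥ 1`) -/
noncomputable def gg (r : ℕ) (t : ℝ) : ℝ := gi ((r : ℝ) + 1) (r + 1) t

lemma gg_tendsto {t : ℝ} (ht : 0 < t) :
    Filter.Tendsto (fun r => gg r t) Filter.atTop (nhds (t / (1 + t))) := by
  have h1 : Filter.Tendsto (fun r : ℕ => 1 / gg r t) Filter.atTop (nhds (1 / t + 1)) := by
    have hlow : Filter.Tendsto (fun r : ℕ => 1 / t + ((r : ℝ) + 1) / ((r : ℝ) + 1 + t))
        Filter.atTop (nhds (1 / t + 1)) := by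
      apply Filter.Tendsto.const_add
      have e : (fun r : ℕ => ((r : ℝ) + 1) / ((r : ℝ) + 1 + t)) =
          fun r : ℕ => 1 - t / ((r : ℝ) + 1 + t) := by
        funext r
        have : (0 : ℝ) < (r : ℝ) + 1 + t := by positivity
        field_simp; ring
      rw [e]
      have h2 : Filter.Tendsto (fun r : ℕ => t / ((r : ℝ) + 1 + t)) Filter.atTop (nhds 0) := by
        apply Filter.Tendsto.div_atTop tendsto_const_nhds
        apply Filter.tendsto_atTop_add_const_right
        apply Filter.tendsto_atTop_add_const_right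
        exact tendsto_natCast_atTop_atTop
      simpa using h2.const_sub 1
    apply tendsto_of_tendsto_of_tendsto_of_le_of_le hlow tendsto_const_nhds
    · intro r
      have := (gi_inv_bounds (r := (r : ℝ) + 1) (by positivity) (r + 1) ht).2.1
      push_cast at this
      exact this
    · intro r
      have := (gi_inv_bounds (r := (r : ℝ) + 1) (by positivity) (r + 1) ht).2.2
      push_cast at this
      rw [div_self (by positivity)] at this
      exact this
  have h2 := h1.inv₀ (by positivity)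
  have e1 : (1 / t + 1)⁻¹ = t / (1 + t) := by field_simp
  rw [e1] at h2
  simpa using h2

end Pool.Agent.H76.EP
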