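import Pool.Agent.H76.EPHalf

set_option autoImplicit false

/-! Blocks around integral stationary points of a convex phase, and sums over many blocks. -/

namespace Pool.Agent.H76.EP

open Real Finset Pool.Agent.H21

/-- right half of a block -/
lemma rhalf (F G : ℝ → ℝ) (x0 v s ρ : ℝ) (K : ℕ) (ν m : ℤ)
    (hs : 0 < s) (hρ : 1 ≤ ρ) (hsmall : 8 * ρ * s ≤ 1)
    (hder : ∀ x ∈ Set.Icc x0 v, HasDerivAt F (G x) x)
    (hlow : ∀ x y, x0 ≤ x → x ≤ y → y ≤ v → s ^ 2 * (y - x) ≤ G y - G x)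
    (hup : ∀ x y, x0 ≤ x → x ≤ y → y ≤ v → G y - G x ≤ ρ * s ^ 2 * (y - x))
    (hG : G x0 = ν) (hF : F x0 = m) (hv : G v ≤ ν + 1 / 2) (hKv : x0 + K ≤ v)
    (hK : 2 ≤ K * s) :
    1 / (320 * ρ ^ 3 * s) - 1 / 2 ≤ ∑ k ∈ range K, Real.sin (2 * π * F (x0 + k)) := by
  have hK1 : 1 ≤ K := by
    rcases Nat.eq_zero_or_pos K with h | h
    · subst h; norm_num at hK
    · exact h
  set φ : ℕ → ℝ := fun k => F (x0 + k) - m - ν * k with hφ
  have hsum : ∑ k ∈ range K, Real.sin (2 * π * F (x0 + k)) =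
      ∑ k ∈ range K, Real.sin (2 * π * φ k) := by
    apply Finset.sum_congr rfl
    intro k _
    have : 2 * π * F (x0 + k) = 2 * π * φ k + ((m + ν * k : ℤ) : ℝ) * (2 * π) := by
      simp only [hφ]; push_cast; ring
    rw [this, Real.sin_add_int_mul_two_pi]
  rw [hsum]
  -- the increment via the mean value theorem
  have hmvt : ∀ k : ℕ, k + 1 ≤ K → ∃ ξ : ℝ, x0 + k < ξ ∧ ξ < x0 + k + 1 ∧
      φ (k + 1) - φ k = G ξ - ν := by
    intro k hk
    have hkR : (k : ℝ) + 1 ≤ K := by exact_mod_cast hk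
    have hk0 : (0 : ℝ) ≤ k := by positivity
    have hmem : ∀ x ∈ Set.Icc (x0 + k) (x0 + k + 1), HasDerivAt F (G x) x := by
      intro x hx
      exact hder x ⟨by linarith [hx.1], by linarith [hx.2]⟩
    obtain ⟨ξ, hξ, he⟩ := exists_hasDerivAt_eq_slope F G (by linarith : x0 + (k : ℝ) < x0 + k + 1)
      (fun x hx => (hmem x hx).continuousAt.continuousWithinAt)
      (fun x hx => hmem x ⟨hx.1.le, hx.2.le⟩)
    refine ⟨ξ, hξ.1, hξ.2, ?_⟩
    rw [he]
    simp only [hφ]; push_cast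
    rw [show x0 + ((k : ℝ) + 1) = x0 + k + 1 by ring]
    have : x0 + (k : ℝ) + 1 - (x0 + k) = 1 := by ring
    rw [this]; ring
  have hsecond : ∀ k : ℕ, k + 2 ≤ K →
      s ^ 2 ≤ (φ (k + 2) - φ (k + 1)) - (φ (k + 1) - φ k) ∧
      (φ (k + 2) - φ (k + 1)) - (φ (k + 1) - φ k) ≤ ρ * s ^ 2 := by
    intro k hk
    have hkR : (k : ℝ) + 2 ≤ K := by exact_mod_cast hk
    have hk0 : (0 : ℝ) ≤ k := by positivity
    have hmem : ∀ x ∈ Set.Icc (x0 + k) (x0 + k + 1),
        HasDerivAt (fun x => F (x + 1) - F x) (G (x + 1) - G x) x := by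
      intro x hx
      have h1 : HasDerivAt F (G (x + 1)) (x + 1) :=
        hder (x + 1) ⟨by linarith [hx.1], by linarith [hx.2]⟩
      have h2 : HasDerivAt F (G x) x := hder x ⟨by linarith [hx.1], by linarith [hx.2]⟩
      exact (h1.comp_add_const x 1).sub h2
    obtain ⟨ξ, hξ, he⟩ := exists_hasDerivAt_eq_slope (fun x => F (x + 1) - F x)
      (fun x => G (x + 1) - G x) (by linarith : x0 + (k : ℝ) < x0 + k + 1)
      (fun x hx => (hmem x hx).continuousAt.continuousWithinAt)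
      (fun x hx => hmem x ⟨hx.1.le, hx.2.le⟩)
    have e1 : (φ (k + 2) - φ (k + 1)) - (φ (k + 1) - φ k) = G (ξ + 1) - G ξ := by
      rw [he]
      simp only [hφ]; push_cast
      rw [show x0 + ((k : ℝ) + 1) = x0 + k + 1 by ring,
        show x0 + ((k : ℝ) + 2) = x0 + k + 1 + 1 by ring]
      have : x0 + (k : ℝ) + 1 - (x0 + k) = 1 := by ring
      rw [this]; ring
    rw [e1]
    have h1 := hlow ξ (ξ + 1) (by linarith [hξ.1]) (by linarith) (by linarith [hξ.2])
    have h2 := hup ξ (ξ + 1) (by linarith [hξ.1]) (by linarith) (by linarith [hξ.2])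
    constructor <;> nlinarith
  have hKR : (1 : ℝ) ≤ K := by exact_mod_cast hK1
  apply half φ K s ρ hs hρ hsmall hK
  · simp [hφ, hF]
  · obtain ⟨ξ, h1, h2, he⟩ := hmvt 0 (by omega)
    rw [zero_add] at he
    rw [he, ← hG]
    push_cast at h1 h2
    have := hlow x0 ξ le_rfl (by linarith) (by linarith)
    have h3 : 0 < s ^ 2 * (ξ - x0) := mul_pos (by positivity) (by linarith)
    linarith
  · obtain ⟨ξ, h1, h2, he⟩ := hmvt 0 (by omega)
    rw [zero_add] at he
    rw [he, ← hG]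
    push_cast at h1 h2
    have := hup x0 ξ le_rfl (by linarith) (by linarith)
    have h3 : ρ * s ^ 2 * (ξ - x0) ≤ ρ * s ^ 2 * 1 :=
      mul_le_mul_of_nonneg_left (by linarith) (by positivity)
    linarith
  · intro k hk; exact (hsecond k hk).1
  · intro k hk; exact (hsecond k hk).2
  · intro k hk
    obtain ⟨ξ, h1, h2, he⟩ := hmvt k (by omega)
    rw [he]
    have hkR : (k : ℝ) + 1 ≤ K := by exact_mod_cast hk
    have hk0 : (0 : ℝ) ≤ k := by positivity
    have := hlow ξ v (by linarith) (by linarith) le_rfl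
    have h3 : 0 ≤ s ^ 2 * (v - ξ) := mul_nonneg (by positivity) (by linarith)
    linarith

/-- A full block around an integral stationary point. -/
lemma block (F G : ℝ → ℝ) (u v s ρ : ℝ) (n0 : ℕ) (ν m : ℤ)
    (hs : 0 < s) (hρ : 1 ≤ ρ) (hsmall : 8 * ρ * s ≤ 1) (hu0 : 0 ≤ u)
    (hder : ∀ x ∈ Set.Icc u v, HasDerivAt F (G x) x)
    (hlow : ∀ x y, u ≤ x → x ≤ y → y ≤ v → s ^ 2 * (y - x) ≤ G y - G x)
    (hup : ∀ x y, u ≤ x → x ≤ y → y ≤ v → G y - G x ≤ ρ * s ^ 2 * (y - x))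
    (hun : u ≤ n0) (hnv : n0 ≤ v)
    (hG : G n0 = ν) (hF : F n0 = m) (hGu : G u = ν - 1 / 2) (hGv : G v = ν + 1 / 2) :
    1 / (160 * ρ ^ 3 * s) - 3 ≤
      ∑ n ∈ Finset.Ico (⌊u⌋₊ + 1) (⌊v⌋₊ + 1), Real.sin (2 * π * F ((n : ℕ) : ℝ)) := by
  have hρs : 0 < ρ * s ^ 2 := by positivity
  have hs8 : s ≤ 1 / 8 := by nlinarith
  have hv0 : 0 ≤ v := by linarith
  -- lengths
  have hlenr : 4 ≤ (v - n0) * s := by
    have h1 := hup n0 v hun hnv le_rfl
    rw [hGv, hG] at h1
    have h2 : 1 / 2 ≤ ρ * s ^ 2 * (v - n0) := by linarith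
    have h3 : ρ * s ^ 2 * (v - n0) = (ρ * s) * ((v - n0) * s) := by ring
    rw [h3] at h2
    have h4 : 0 ≤ (v - n0) * s := mul_nonneg (by linarith) hs.le
    have h5 : (ρ * s) * ((v - n0) * s) ≤ (1 / 8) * ((v - n0) * s) :=
      mul_le_mul_of_nonneg_right (by linarith) h4
    linarith
  have hlenl : 4 ≤ (n0 - u) * s := by
    have h1 := hup u n0 le_rfl hun hnv
    rw [hGu, hG] at h1
    have h2 : 1 / 2 ≤ ρ * s ^ 2 * (n0 - u) := by linarith
    have h3 : ρ * s ^ 2 * (n0 - u) = (ρ * s) * ((n0 - u) * s) := by ring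
    rw [h3] at h2
    have h4 : 0 ≤ (n0 - u) * s := mul_nonneg (by linarith) hs.le
    have h5 : (ρ * s) * ((n0 - u) * s) ≤ (1 / 8) * ((n0 - u) * s) :=
      mul_le_mul_of_nonneg_right (by linarith) h4
    linarith
  have hnv' : n0 ≤ ⌊v⌋₊ := Nat.le_floor hnv
  have hun' : ⌊u⌋₊ + 1 ≤ n0 := by
    have h1 : u < n0 := by
      by_contra hcon
      push Not at hcon
      have : (n0 - u) * s ≤ 0 := mul_nonpos_of_nonpos_of_nonneg (by linarith) hs.le
      linarith
    have := (Nat.floor_lt hu0).2 h1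
    omega
  rw [← Finset.sum_Ico_consecutive _ hun' (by omega : n0 ≤ ⌊v⌋₊ + 1)]
  -- right half
  have hR : 1 / (320 * ρ ^ 3 * s) - 3 / 2 ≤
      ∑ n ∈ Finset.Ico n0 (⌊v⌋₊ + 1), Real.sin (2 * π * F ((n : ℕ) : ℝ)) := by
    obtain ⟨K, hK⟩ : ∃ K, ⌊v⌋₊ = n0 + K := ⟨⌊v⌋₊ - n0, by omega⟩
    have hKv : (n0 : ℝ) + K ≤ v := by
      have := Nat.floor_le hv0
      rw [hK] at this; push_cast at this; exact this
    have hKv2 : v < (n0 : ℝ) + K + 1 := by
      have := Nat.lt_floor_add_one v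
      rw [hK] at this; push_cast at this; exact this
    have hKs : 2 ≤ K * s := by nlinarith
    have h1 := rhalf F G n0 v s ρ K ν m hs hρ hsmall
      (fun x hx => hder x ⟨by linarith [hx.1], hx.2⟩)
      (fun x y hx hxy hy => hlow x y (by linarith) hxy hy)
      (fun x y hx hxy hy => hup x y (by linarith) hxy hy) hG hF hGv.le hKv hKs
    rw [hK, Finset.sum_Ico_eq_sum_range, show n0 + K + 1 - n0 = K + 1 by omega,
      Finset.sum_range_succ]
    have h2 := Real.neg_one_le_sin (2 * π * F (((n0 + K : ℕ)) : ℝ))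
    have h3 : ∑ x ∈ range K, Real.sin (2 * π * F (((n0 + x : ℕ)) : ℝ)) =
        ∑ k ∈ range K, Real.sin (2 * π * F ((n0 : ℝ) + k)) := by
      apply Finset.sum_congr rfl
      intro k _; push_cast; rfl
    rw [h3]
    linarith
  have hL : 1 / (320 * ρ ^ 3 * s) - 3 / 2 ≤
      ∑ n ∈ Finset.Ico (⌊u⌋₊ + 1) n0, Real.sin (2 * π * F ((n : ℕ) : ℝ)) := by
    obtain ⟨K, hK⟩ : ∃ K, n0 = ⌊u⌋₊ + 1 + K := ⟨n0 - (⌊u⌋₊ + 1), by omega⟩
    have hKR : (n0 : ℝ) = ⌊u⌋₊ + 1 + K := by rw [hK]; push_cast; ring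
    have hKu : u ≤ (n0 : ℝ) - K := by
      have := (Nat.lt_floor_add_one u).le
      rw [hKR]; linarith
    have hKu2 : (n0 : ℝ) - K ≤ u + 1 := by
      have := Nat.floor_le hu0
      rw [hKR]; linarith
    have hKs : 2 ≤ K * s := by nlinarith
    have hder' : ∀ x ∈ Set.Icc (n0 : ℝ) (2 * n0 - u),
        HasDerivAt (fun x => F (2 * n0 - x)) (-G (2 * n0 - x)) x := by
      intro x hx
      have h1 : HasDerivAt F (G (2 * n0 - x)) (2 * n0 - x) :=
        hder _ ⟨by linarith [hx.2], by linarith [hx.1]⟩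
      have h2 : HasDerivAt (fun x : ℝ => 2 * (n0 : ℝ) - x) (-1) x := by
        simpa using (hasDerivAt_id x).const_sub (2 * (n0 : ℝ))
      have h3 := h1.comp x h2
      rw [mul_neg_one] at h3
      exact h3
    have h1 := rhalf (fun x => F (2 * n0 - x)) (fun x => -G (2 * n0 - x)) n0 (2 * n0 - u) s ρ K
      (-ν) m hs hρ hsmall hder'
      (fun x y hx hxy hy => by
        have := hlow (2 * n0 - y) (2 * n0 - x) (by linarith) (by linarith) (by linarith)
        linarith)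
      (fun x y hx hxy hy => by
        have := hup (2 * n0 - y) (2 * n0 - x) (by linarith) (by linarith) (by linarith)
        linarith)
      (by rw [show 2 * (n0 : ℝ) - n0 = n0 by ring, hG]; push_cast; ring)
      (by rw [show 2 * (n0 : ℝ) - n0 = n0 by ring, hF])
      (by rw [show 2 * (n0 : ℝ) - (2 * n0 - u) = u by ring, hGu]; push_cast; linarith)
      (by linarith) hKs
    have hzero : Real.sin (2 * π * F (n0 : ℝ)) = 0 := by
      rw [hF]
      have := Real.sin_int_mul_pi (2 * m)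
      rw [← this]; congr 1; push_cast; ring
    have h3 : ∑ n ∈ Finset.Ico (⌊u⌋₊ + 1) n0, Real.sin (2 * π * F ((n : ℕ) : ℝ)) =
        ∑ k ∈ range (K + 1), Real.sin (2 * π * F (2 * n0 - (n0 + k))) -
          Real.sin (2 * π * F (n0 : ℝ)) := by
      rw [Finset.sum_range_succ']
      have h4 : Real.sin (2 * π * F (2 * n0 - (n0 + ((0 : ℕ) : ℝ)))) =
          Real.sin (2 * π * F (n0 : ℝ)) := by
        congr 3; push_cast; ring
      rw [h4, add_sub_cancel_right]
      apply Finset.sum_nbij' (fun n => n0 - n - 1) (fun k => n0 - (k + 1))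
      · intro n hn
        simp only [Finset.mem_Ico] at hn
        simp only [Finset.mem_range]; omega
      · intro k hk
        simp only [Finset.mem_range] at hk
        simp only [Finset.mem_Ico]; omega
      · intro n hn
        simp only [Finset.mem_Ico] at hn
        omega
      · intro k hk
        simp only [Finset.mem_range] at hk
        omega
      · intro n hn
        simp only [Finset.mem_Ico] at hn
        congr 3
        have e : n0 - n - 1 + 1 = n0 - n := by omega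
        rw [e, Nat.cast_sub (by omega)]
        ring
    rw [h3, hzero, sub_zero, Finset.sum_range_succ]
    have h2 := Real.neg_one_le_sin (2 * π * F (2 * n0 - (n0 + (K : ℝ))))
    have h5 : ∑ k ∈ range K, Real.sin (2 * π * (fun x => F (2 * n0 - x)) ((n0 : ℝ) + k)) =
      ∑ k ∈ range K, Real.sin (2 * π * F (2 * n0 - (n0 + k))) := rfl
    rw [h5] at h1
    linarith
  have e : 1 / (160 * ρ ^ 3 * s) = 2 * (1 / (320 * ρ ^ 3 * s)) := by
    field_simp; norm_num
  rw [e]; linarith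

end Pool.Agent.H76.EP
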