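import Pool.Agent.H76.EPBlock

set_option autoImplicit false

/-! Sums over many blocks, and the resulting lower bound for the exponential sum of a concave
phase all of whose stationary points are integers with integral values. -/

namespace Pool.Agent.H76.EP

open Real Finset Pool.Agent.H21

lemma blocks (F G : ℝ → ℝ) (s ρ : ℝ) (y : ℕ → ℝ) (n : ℕ → ℕ) (ν m : ℕ → ℤ) (L : ℕ)
    (hs : 0 < s) (hρ : 1 ≤ ρ) (hsmall : 8 * ρ * s ≤ 1) (hy0 : 0 ≤ y 0)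
    (hyn : ∀ i < L, y i ≤ n i ∧ (n i : ℝ) ≤ y (i + 1))
    (hder : ∀ x ∈ Set.Icc (y 0) (y L), HasDerivAt F (G x) x)
    (hlow : ∀ x z, y 0 ≤ x → x ≤ z → z ≤ y L → s ^ 2 * (z - x) ≤ G z - G x)
    (hup : ∀ x z, y 0 ≤ x → x ≤ z → z ≤ y L → G z - G x ≤ ρ * s ^ 2 * (z - x))
    (hG : ∀ i < L, G (n i) = ν i) (hF : ∀ i < L, F (n i) = m i)
    (hGu : ∀ i < L, G (y i) = ν i - 1 / 2) (hGv : ∀ i < L, G (y (i + 1)) = ν i + 1 / 2) :
    L * (1 / (160 * ρ ^ 3 * s) - 3) ≤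
      ∑ n ∈ Finset.Ico (⌊y 0⌋₊ + 1) (⌊y L⌋₊ + 1), Real.sin (2 * π * F ((n : ℕ) : ℝ)) := by
  have hmono : ∀ i j, i + j ≤ L → y i ≤ y (i + j) := by
    intro i j
    induction j with
    | zero => intro _; simp
    | succ j ih =>
      intro h
      have h1 := ih (by omega)
      have h2 := hyn (i + j) (by omega)
      have : y (i + j) ≤ y (i + j + 1) := h2.1.trans h2.2
      exact h1.trans this
  have key : ∀ j, j ≤ L → (j : ℝ) * (1 / (160 * ρ ^ 3 * s) - 3) ≤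
      ∑ n ∈ Finset.Ico (⌊y 0⌋₊ + 1) (⌊y j⌋₊ + 1), Real.sin (2 * π * F ((n : ℕ) : ℝ)) := by
    intro j
    induction j with
    | zero => intro _; simp
    | succ j ih =>
      intro hj
      have h1 := ih (by omega)
      have e1 : y 0 ≤ y j := by have := hmono 0 j (by omega); rwa [zero_add] at this
      have e2 : y j ≤ y (j + 1) := hmono j 1 (by omega)
      have e3 : y (j + 1) ≤ y L := by
        have := hmono (j + 1) (L - (j + 1)) (by omega)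
        rwa [show j + 1 + (L - (j + 1)) = L by omega] at this
      have f1 : ⌊y 0⌋₊ + 1 ≤ ⌊y j⌋₊ + 1 := Nat.succ_le_succ (Nat.floor_mono e1)
      have f2 : ⌊y j⌋₊ + 1 ≤ ⌊y (j + 1)⌋₊ + 1 := Nat.succ_le_succ (Nat.floor_mono e2)
      rw [← Finset.sum_Ico_consecutive _ f1 f2]
      have hb := block F G (y j) (y (j + 1)) s ρ (n j) (ν j) (m j) hs hρ hsmall (by linarith)
        (fun x hx => hder x ⟨by linarith [hx.1], by linarith [hx.2]⟩)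
        (fun x z h1 h2 h3 => hlow x z (by linarith) h2 (by linarith))
        (fun x z h1 h2 h3 => hup x z (by linarith) h2 (by linarith))
        (hyn j (by omega)).1 (hyn j (by omega)).2 (hG j (by omega)) (hF j (by omega))
        (hGu j (by omega)) (hGv j (by omega))
      push_cast
      linarith
  exact key L le_rfl

/-- The exponential used in the sums. -/
noncomputable abbrev ex (t : ℝ) : ℂ := Complex.exp (2 * (Real.pi : ℂ) * Complex.I * ((t : ℝ) : ℂ))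

lemma ex_im (t : ℝ) : (ex t).im = Real.sin (2 * π * t) := by
  unfold ex
  have : 2 * (Real.pi : ℂ) * Complex.I * ((t : ℝ) : ℂ) = ((2 * π * t : ℝ) : ℂ) * Complex.I := by
    push_cast; ring
  rw [this, Complex.exp_ofReal_mul_I_im]

/-- Lower bound for sums of a concave phase with integral stationary points. -/
theorem main_lower (f g : ℝ → ℝ) (N s ρ : ℝ) (y : ℕ → ℝ) (n : ℕ → ℕ) (ν0 : ℤ) (m : ℕ → ℤ)
    (L : ℕ) (hs : 0 < s) (hρ : 1 ≤ ρ) (hsmall : 8 * ρ * s ≤ 1) (hN : 0 ≤ N)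
    (hNy : N ≤ y 0) (hy2 : y L ≤ 2 * N)
    (hder : ∀ x ∈ Set.Icc N (2 * N), HasDerivAt f (g x) x)
    (hlow : ∀ x z, N ≤ x → x ≤ z → z ≤ 2 * N → s ^ 2 * (z - x) ≤ g x - g z)
    (hup : ∀ x z, N ≤ x → x ≤ z → z ≤ 2 * N → g x - g z ≤ ρ * s ^ 2 * (z - x))
    (hyn : ∀ i < L, y i ≤ n i ∧ (n i : ℝ) ≤ y (i + 1))
    (hgn : ∀ i < L, g (n i) = ν0 - i) (hfn : ∀ i < L, f (n i) = m i)
    (hgy : ∀ i ≤ L, g (y i) = ν0 - i + 1 / 2) :
    L * (1 / (160 * ρ ^ 3 * s) - 3) ≤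
      ‖∑ k ∈ Finset.Icc ⌈N⌉₊ ⌊y L⌋₊, ex (f (k : ℝ))‖ +
      ‖∑ k ∈ Finset.Icc ⌈N⌉₊ ⌊y 0⌋₊, ex (f (k : ℝ))‖ := by
  have hmono : y 0 ≤ y L := by
    have key : ∀ j, j ≤ L → y 0 ≤ y j := by
      intro j
      induction j with
      | zero => intro _; exact le_rfl
      | succ j ih =>
        intro h
        exact (ih (by omega)).trans ((hyn j (by omega)).1.trans (hyn j (by omega)).2)
    exact key L le_rfl
  have h := blocks (fun x => -f x) (fun x => -g x) s ρ y n (fun i => -(ν0 - i)) (fun i => -m i) L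
    hs hρ hsmall (by linarith) hyn
    (fun x hx => (hder x ⟨by linarith [hx.1], by linarith [hx.2]⟩).neg)
    (fun x z h1 h2 h3 => by
      have := hlow x z (by linarith) h2 (by linarith)
      linarith)
    (fun x z h1 h2 h3 => by
      have := hup x z (by linarith) h2 (by linarith)
      linarith)
    (fun i hi => by rw [hgn i hi]; push_cast; ring)
    (fun i hi => by rw [hfn i hi]; push_cast; ring)
    (fun i hi => by rw [hgy i hi.le]; push_cast; ring)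
    (fun i hi => by rw [hgy (i + 1) hi]; push_cast; ring)
  refine h.trans ?_
  have hfl : ⌊y 0⌋₊ ≤ ⌊y L⌋₊ := Nat.floor_mono hmono
  have hce : ⌈N⌉₊ ≤ ⌊y 0⌋₊ + 1 := (Nat.ceil_mono hNy).trans (Nat.ceil_le_floor_add_one _)
  have hsplit : ∑ k ∈ Finset.Icc ⌈N⌉₊ ⌊y L⌋₊, ex (f (k : ℝ)) =
      ∑ k ∈ Finset.Icc ⌈N⌉₊ ⌊y 0⌋₊, ex (f (k : ℝ)) +
      ∑ k ∈ Finset.Ico (⌊y 0⌋₊ + 1) (⌊y L⌋₊ + 1), ex (f (k : ℝ)) := by
    have e1 : Finset.Icc ⌈N⌉₊ ⌊y L⌋₊ = Finset.Ico ⌈N⌉₊ (⌊y L⌋₊ + 1) := by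
      ext x; simp only [Finset.mem_Icc, Finset.mem_Ico]; omega
    have e2 : Finset.Icc ⌈N⌉₊ ⌊y 0⌋₊ = Finset.Ico ⌈N⌉₊ (⌊y 0⌋₊ + 1) := by
      ext x; simp only [Finset.mem_Icc, Finset.mem_Ico]; omega
    rw [e1, e2, Finset.sum_Ico_consecutive _ hce (by omega)]
  have h2 : ∑ k ∈ Finset.Ico (⌊y 0⌋₊ + 1) (⌊y L⌋₊ + 1), Real.sin (2 * π * (-f ((k : ℕ) : ℝ))) =
      (-(∑ k ∈ Finset.Ico (⌊y 0⌋₊ + 1) (⌊y L⌋₊ + 1), ex (f (k : ℝ)))).im := by
    rw [Complex.neg_im, Complex.im_sum, ← Finset.sum_neg_distrib]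
    apply Finset.sum_congr rfl
    intro k _
    rw [ex_im, ← Real.sin_neg]; congr 1; ring
  rw [h2]
  have h3 : -(∑ k ∈ Finset.Ico (⌊y 0⌋₊ + 1) (⌊y L⌋₊ + 1), ex (f (k : ℝ))) =
      ∑ k ∈ Finset.Icc ⌈N⌉₊ ⌊y 0⌋₊, ex (f (k : ℝ)) -
      ∑ k ∈ Finset.Icc ⌈N⌉₊ ⌊y L⌋₊, ex (f (k : ℝ)) := by
    rw [hsplit]; ring
  rw [h3]
  refine (Complex.im_le_norm _).trans ?_
  refine (norm_sub_le _ _).trans ?_
  linarith

end Pool.Agent.H76.EP
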