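import Mathlib

set_option autoImplicit false

/-! Sums of small smooth bumps with prescribed values and slopes at well separated points. -/

namespace Pool.Agent.H76.EP

open Real Finset

/-- a smooth bump: `1` on `[-1,1]`, `0` outside `(-2,2)` -/
noncomputable def bmp : ContDiffBump (0 : ℝ) := ⟨1, 2, one_pos, one_lt_two⟩

/-- the bump as a function -/
noncomputable def b (t : ℝ) : ℝ := bmp t

lemma b_contDiff : ContDiff ℝ (⊤ : ℕ∞) b := bmp.contDiff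

lemma b_one {t : ℝ} (h : |t| ≤ 1) : b t = 1 :=
  bmp.one_of_mem_closedBall (by
    rw [Metric.mem_closedBall, Real.dist_eq, sub_zero]; exact h)

lemma b_zero {t : ℝ} (h : 2 ≤ |t|) : b t = 0 :=
  bmp.zero_of_le_dist (by rw [Real.dist_eq, sub_zero]; exact h)

/-- value `θ` and slope `μ` at `0`, supported in `[-2,2]` -/
noncomputable def β (θ μ t : ℝ) : ℝ := θ * b t + μ * (t * b t)

lemma tb_contDiff : ContDiff ℝ (⊤ : ℕ∞) (fun t : ℝ => t * b t) := contDiff_id.mul b_contDiff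

lemma β_contDiff (θ μ : ℝ) : ContDiff ℝ (⊤ : ℕ∞) (β θ μ) :=
  (contDiff_const.mul b_contDiff).add (contDiff_const.mul tb_contDiff)

lemma iter_zero_of_far {h : ℝ → ℝ} (hz : ∀ t, 2 ≤ |t| → h t = 0) (j : ℕ) {t : ℝ}
    (ht : 2 < |t|) : iteratedDeriv j h t = 0 := by
  have h1 : h =ᶠ[nhds t] fun _ => 0 := by
    have : {x : ℝ | 2 < |x|} ∈ nhds t := (isOpen_lt continuous_const continuous_abs).mem_nhds ht
    filter_upwards [this] with x hx
    exact hz x (le_of_lt hx)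
  rw [h1.iteratedDeriv_eq j]
  exact iteratedDeriv_fun_const_zero

lemma exists_bdd {h : ℝ → ℝ} (hc : ContDiff ℝ (⊤ : ℕ∞) h) (hz : ∀ t, 2 ≤ |t| → h t = 0) (j : ℕ) :
    ∃ B : ℝ, 0 < B ∧ ∀ t, |iteratedDeriv j h t| ≤ B := by
  have hcont : Continuous (iteratedDeriv j h) :=
    hc.continuous_iteratedDeriv j (by exact_mod_cast le_top)
  obtain ⟨B, hB⟩ := (isCompact_Icc (a := (-3 : ℝ)) (b := 3)).exists_bound_of_continuousOn
    hcont.continuousOn
  refine ⟨max B 1, by positivity, fun t => ?_⟩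
  rcases le_or_gt |t| 2 with ht | ht
  · have h1 := abs_le.mp ht
    have := hB t ⟨by linarith, by linarith⟩
    rw [Real.norm_eq_abs] at this
    exact this.trans (le_max_left _ _)
  · rw [iter_zero_of_far hz j ht]; simp

lemma exists_bound (j : ℕ) : ∃ B : ℝ, 0 < B ∧ ∀ θ μ t : ℝ, |θ| ≤ 1 / 2 → |μ| ≤ 1 / 2 →
    |iteratedDeriv j (β θ μ) t| ≤ B := by
  obtain ⟨B1, hB1, h1⟩ := exists_bdd b_contDiff (fun t ht => b_zero ht) j
  obtain ⟨B2, hB2, h2⟩ := exists_bdd tb_contDiff (fun t ht => by simp [b_zero ht]) j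
  refine ⟨B1 + B2, by positivity, fun θ μ t hθ hμ => ?_⟩
  have e : β θ μ = (fun t => θ * b t) + (fun t => μ * (t * b t)) := rfl
  have c1 : ContDiff ℝ (⊤ : ℕ∞) (fun t => θ * b t) := contDiff_const.mul b_contDiff
  have c2 : ContDiff ℝ (⊤ : ℕ∞) (fun t => μ * (t * b t)) := contDiff_const.mul tb_contDiff
  rw [e, iteratedDeriv_add (c1.contDiffAt.of_le (by exact_mod_cast le_top))
    (c2.contDiffAt.of_le (by exact_mod_cast le_top)),
    iteratedDeriv_const_mul_field, iteratedDeriv_const_mul_field]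
  refine (abs_add_le _ _).trans ?_
  rw [abs_mul, abs_mul]
  have h3 : |θ| * |iteratedDeriv j b t| ≤ 1 * B1 :=
    mul_le_mul (by linarith) (h1 t) (abs_nonneg _) (by norm_num)
  have h4 : |μ| * |iteratedDeriv j (fun t => t * b t) t| ≤ 1 * B2 :=
    mul_le_mul (by linarith) (h2 t) (abs_nonneg _) (by norm_num)
  linarith

/-- bounds for the derivatives of the bumps -/
noncomputable def BB (j : ℕ) : ℝ := Classical.choose (exists_bound j)

lemma BB_pos (j : ℕ) : 0 < BB j := (Classical.choose_spec (exists_bound j)).1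

lemma BB_spec (j : ℕ) {θ μ : ℝ} (t : ℝ) (hθ : |θ| ≤ 1 / 2) (hμ : |μ| ≤ 1 / 2) :
    |iteratedDeriv j (β θ μ) t| ≤ BB j :=
  (Classical.choose_spec (exists_bound j)).2 θ μ t hθ hμ

lemma β_far (θ μ : ℝ) (j : ℕ) {t : ℝ} (ht : 2 < |t|) : iteratedDeriv j (β θ μ) t = 0 :=
  iter_zero_of_far (fun t ht => by simp [β, b_zero ht]) j ht

lemma β_val (θ μ : ℝ) : iteratedDeriv 0 (β θ μ) 0 = θ := by
  simp [β, b_one]

lemma β_slope (θ μ : ℝ) : iteratedDeriv 1 (β θ μ) 0 = μ := by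
  rw [iteratedDeriv_one]
  have h1 : β θ μ =ᶠ[nhds 0] fun t => θ + μ * t := by
    have : {x : ℝ | |x| < 1} ∈ nhds (0 : ℝ) :=
      (isOpen_lt continuous_abs continuous_const).mem_nhds (by simp)
    filter_upwards [this] with x hx
    simp [β, b_one (le_of_lt hx)]
  rw [h1.deriv_eq]
  simp

/-- the sum of the `j`-th derivatives of the scaled bumps -/
noncomputable def D (w : ℝ) (n θ μ : ℕ → ℝ) (L j : ℕ) (x : ℝ) : ℝ :=
  ∑ i ∈ range L, (w⁻¹) ^ j * iteratedDeriv j (β (θ i) (μ i)) (w⁻¹ * (x - n i))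

/-- the perturbed function -/
noncomputable def pert (f0 : ℝ → ℝ) (w : ℝ) (n θ μ : ℕ → ℝ) (L : ℕ) (x : ℝ) : ℝ :=
  f0 x + ∑ i ∈ range L, β (θ i) (μ i) (w⁻¹ * (x - n i))

lemma bump_contDiff (θ μ w n : ℝ) :
    ContDiff ℝ (⊤ : ℕ∞) (fun x => β θ μ (w⁻¹ * (x - n))) :=
  (β_contDiff θ μ).comp (contDiff_const.mul (contDiff_id.sub contDiff_const))

lemma bump_iter (θ μ w n : ℝ) (j : ℕ) (x : ℝ) :
    iteratedDeriv j (fun x => β θ μ (w⁻¹ * (x - n))) x =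
      (w⁻¹) ^ j * iteratedDeriv j (β θ μ) (w⁻¹ * (x - n)) := by
  have h1 := iteratedDeriv_comp_sub_const j (fun z => β θ μ (w⁻¹ * z)) n
  have h2 := congrFun h1 x
  rw [h2, iteratedDeriv_comp_const_mul ((β_contDiff θ μ).of_le (by exact_mod_cast le_top))]

lemma pert_contDiffAt {f0 : ℝ → ℝ} {x : ℝ} (h0 : ContDiffAt ℝ (⊤ : ℕ∞) f0 x)
    (w : ℝ) (n θ μ : ℕ → ℝ) (L : ℕ) : ContDiffAt ℝ (⊤ : ℕ∞) (pert f0 w n θ μ L) x := by
  unfold pert
  apply h0.add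
  apply ContDiffAt.sum
  intro i _
  exact (bump_contDiff (θ i) (μ i) w (n i)).contDiffAt

lemma pert_iter {f0 : ℝ → ℝ} {x : ℝ} (h0 : ContDiffAt ℝ (⊤ : ℕ∞) f0 x)
    (w : ℝ) (n θ μ : ℕ → ℝ) (L j : ℕ) :
    iteratedDeriv j (pert f0 w n θ μ L) x = iteratedDeriv j f0 x + D w n θ μ L j x := by
  have e : pert f0 w n θ μ L = f0 + (fun x => ∑ i ∈ range L, β (θ i) (μ i) (w⁻¹ * (x - n i))) :=
    rfl
  have c2 : ContDiff ℝ (⊤ : ℕ∞) (fun x => ∑ i ∈ range L, β (θ i) (μ i) (w⁻¹ * (x - n i))) :=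
    ContDiff.sum fun i _ => bump_contDiff (θ i) (μ i) w (n i)
  rw [e, iteratedDeriv_add (h0.of_le (by exact_mod_cast le_top))
    (c2.contDiffAt.of_le (by exact_mod_cast le_top))]
  congr 1
  rw [iteratedDeriv_fun_sum (fun i _ =>
    (bump_contDiff (θ i) (μ i) w (n i)).contDiffAt.of_le (by exact_mod_cast le_top))]
  unfold D
  apply Finset.sum_congr rfl
  intro i _
  exact bump_iter (θ i) (μ i) w (n i) j x

lemma D_far {w : ℝ} (hw : 0 < w) (n θ μ : ℕ → ℝ) (L j : ℕ) {x : ℝ}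
    (hx : ∀ i < L, 2 * w < |x - n i|) : D w n θ μ L j x = 0 := by
  unfold D
  apply Finset.sum_eq_zero
  intro i hi
  rw [β_far, mul_zero]
  rw [abs_mul, abs_of_pos (inv_pos.mpr hw), inv_mul_eq_div, lt_div_iff₀ hw]
  exact hx i (Finset.mem_range.mp hi)

lemma D_near {w : ℝ} (hw : 0 < w) (n θ μ : ℕ → ℝ) (L j : ℕ) {x : ℝ} {i0 : ℕ} (hi0 : i0 < L)
    (hx : |x - n i0| ≤ 2 * w) (hsep : ∀ i < L, ∀ k < L, i ≠ k → 4 * w < |n i - n k|) :
    D w n θ μ L j x = (w⁻¹) ^ j * iteratedDeriv j (β (θ i0) (μ i0)) (w⁻¹ * (x - n i0)) := by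
  unfold D
  apply Finset.sum_eq_single_of_mem i0 (Finset.mem_range.mpr hi0)
  intro i hi hne
  rw [β_far, mul_zero]
  rw [abs_mul, abs_of_pos (inv_pos.mpr hw), inv_mul_eq_div, lt_div_iff₀ hw]
  have h1 := hsep i (Finset.mem_range.mp hi) i0 hi0 hne
  have h2 : |n i - n i0| ≤ |x - n i| + |x - n i0| := by
    have := abs_sub_le (n i) x (n i0)
    rwa [abs_sub_comm (n i) x] at this
  linarith

lemma D_bound {w : ℝ} (hw : 0 < w) (n θ μ : ℕ → ℝ) (L j : ℕ) (x : ℝ)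
    (hθ : ∀ i < L, |θ i| ≤ 1 / 2) (hμ : ∀ i < L, |μ i| ≤ 1 / 2)
    (hsep : ∀ i < L, ∀ k < L, i ≠ k → 4 * w < |n i - n k|) :
    |D w n θ μ L j x| ≤ (w⁻¹) ^ j * BB j := by
  by_cases h : ∃ i0 < L, |x - n i0| ≤ 2 * w
  · obtain ⟨i0, hi0, hx⟩ := h
    rw [D_near hw n θ μ L j hi0 hx hsep, abs_mul, abs_of_nonneg (by positivity)]
    exact mul_le_mul_of_nonneg_left (BB_spec j _ (hθ i0 hi0) (hμ i0 hi0)) (by positivity)
  · push Not at h
    rw [D_far hw n θ μ L j h, abs_zero]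
    exact mul_nonneg (by positivity) (BB_pos j).le

end Pool.Agent.H76.EP
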