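import Mathlib

set_option autoImplicit false

/-! Strictly completely monotone and Bernstein functions on `(0, ∞)`, to finite order. -/

namespace Pool.Agent.H76.EP

open Real Set

/-- strict complete monotonicity to order `n` on `(0, ∞)` -/
def CM : ℕ → (ℝ → ℝ) → Prop
  | 0, f => ∀ x, 0 < x → 0 < f x
  | n + 1, f => (∀ x, 0 < x → 0 < f x) ∧ DifferentiableOn ℝ f (Ioi 0) ∧ CM n (fun x => -deriv f x)

lemma CM.pos {n : ℕ} {f : ℝ → ℝ} (h : CM n f) : ∀ x, 0 < x → 0 < f x := by
  cases n with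
  | zero => exact h
  | succ n => exact h.1

lemma CM.pred {n : ℕ} : ∀ {f : ℝ → ℝ}, CM (n + 1) f → CM n f := by
  induction n with
  | zero => intro f h; exact h.1
  | succ n ih => intro f h; exact ⟨h.1, h.2.1, ih h.2.2⟩

lemma deriv_congr_Ioi {f g : ℝ → ℝ} (h : EqOn f g (Ioi 0)) : EqOn (deriv f) (deriv g) (Ioi 0) := by
  intro x hx
  apply Filter.EventuallyEq.deriv_eq
  filter_upwards [Ioi_mem_nhds hx] with z hz
  exact h hz

lemma CM.congr {n : ℕ} : ∀ {f g : ℝ → ℝ}, CM n f → EqOn f g (Ioi 0) → CM n g := by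
  induction n with
  | zero => intro f g h he x hx; rw [← he hx]; exact h x hx
  | succ n ih =>
    intro f g h he
    refine ⟨fun x hx => by rw [← he hx]; exact h.1 x hx, h.2.1.congr (fun x hx => (he hx).symm), ?_⟩
    apply ih h.2.2
    intro x hx
    simp only
    rw [deriv_congr_Ioi he hx]

lemma dAt {f : ℝ → ℝ} (h : DifferentiableOn ℝ f (Ioi 0)) {x : ℝ} (hx : 0 < x) :
    DifferentiableAt ℝ f x := h.differentiableAt (Ioi_mem_nhds hx)

lemma CM.add {n : ℕ} : ∀ {f g : ℝ → ℝ}, CM n f → CM n g → CM n (fun x => f x + g x) := by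
  induction n with
  | zero => intro f g hf hg x hx; exact add_pos (hf x hx) (hg x hx)
  | succ n ih =>
    intro f g hf hg
    refine ⟨fun x hx => add_pos (hf.1 x hx) (hg.1 x hx), hf.2.1.add hg.2.1, ?_⟩
    apply (ih hf.2.2 hg.2.2).congr
    intro x hx
    simp only
    rw [deriv_fun_add (dAt hf.2.1 hx) (dAt hg.2.1 hx)]
    ring

lemma CM.const_mul {n : ℕ} {c : ℝ} (hc : 0 < c) :
    ∀ {f : ℝ → ℝ}, CM n f → CM n (fun x => c * f x) := by
  induction n with
  | zero => intro f hf x hx; exact mul_pos hc (hf x hx)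
  | succ n ih =>
    intro f hf
    refine ⟨fun x hx => mul_pos hc (hf.1 x hx), hf.2.1.const_mul c, ?_⟩
    apply (ih hf.2.2).congr
    intro x hx
    simp only
    rw [deriv_const_mul_field]
    ring

lemma CM.mul {n : ℕ} : ∀ {f g : ℝ → ℝ}, CM n f → CM n g → CM n (fun x => f x * g x) := by
  induction n with
  | zero => intro f g hf hg x hx; exact mul_pos (hf x hx) (hg x hx)
  | succ n ih =>
    intro f g hf hg
    refine ⟨fun x hx => mul_pos (hf.1 x hx) (hg.1 x hx), hf.2.1.mul hg.2.1, ?_⟩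
    apply ((ih hf.2.2 hg.pred).add (ih hf.pred hg.2.2)).congr
    intro x hx
    simp only
    rw [deriv_fun_mul (dAt hf.2.1 hx) (dAt hg.2.1 hx)]
    ring

/-- a Bernstein function to order `n` (derivative strictly completely monotone) -/
def Bern (n : ℕ) (h : ℝ → ℝ) : Prop :=
  (∀ x, 0 < x → 0 < h x) ∧ DifferentiableOn ℝ h (Ioi 0) ∧ CM n (deriv h)

lemma Bern.pred {n : ℕ} {h : ℝ → ℝ} (hh : Bern (n + 1) h) : Bern n h :=
  ⟨hh.1, hh.2.1, hh.2.2.pred⟩

lemma Bern.diff_comp {n : ℕ} {f h : ℝ → ℝ} (hf : DifferentiableOn ℝ f (Ioi 0)) (hh : Bern n h) :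
    DifferentiableOn ℝ (fun x => f (h x)) (Ioi 0) :=
  hf.comp hh.2.1 (fun x hx => hh.1 x hx)

lemma CM.comp {n : ℕ} : ∀ {f h : ℝ → ℝ}, CM n f → Bern n h → CM n (fun x => f (h x)) := by
  induction n with
  | zero => intro f h hf hh x hx; exact hf _ (hh.1 x hx)
  | succ n ih =>
    intro f h hf hh
    refine ⟨fun x hx => hf.1 _ (hh.1 x hx), hh.diff_comp hf.2.1, ?_⟩
    apply ((ih hf.2.2 hh.pred).mul hh.2.2.pred).congr
    intro x hx
    simp only
    have h1 : HasDerivAt (fun x => f (h x)) (deriv f (h x) * deriv h x) x :=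
      ((dAt hf.2.1 (hh.1 x hx)).hasDerivAt).comp x (dAt hh.2.1 hx).hasDerivAt
    rw [h1.deriv]
    ring

lemma Bern.comp {n : ℕ} {g h : ℝ → ℝ} (hg : Bern n g) (hh : Bern n h) :
    Bern n (fun x => g (h x)) := by
  refine ⟨fun x hx => hg.1 _ (hh.1 x hx), hh.diff_comp hg.2.1, ?_⟩
  apply ((hg.2.2.comp hh).mul hh.2.2).congr
  intro x hx
  simp only
  have h1 : HasDerivAt (fun x => g (h x)) (deriv g (h x) * deriv h x) x :=
    ((dAt hg.2.1 (hh.1 x hx)).hasDerivAt).comp x (dAt hh.2.1 hx).hasDerivAt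
  rw [h1.deriv]

/-- power functions -/
lemma CM.pw {a : ℝ} (ha : 0 < a) (n : ℕ) : ∀ {α : ℝ}, 0 < α →
    CM n (fun t => (1 + a * t) ^ (-α)) := by
  induction n with
  | zero => intro α _ x hx; positivity
  | succ n ih =>
    intro α hα
    have hder : ∀ x, 0 < x → HasDerivAt (fun t : ℝ => (1 + a * t) ^ (-α))
        (a * (-α) * (1 + a * x) ^ (-α - 1)) x := by
      intro x hx
      have h1 : HasDerivAt (fun t : ℝ => 1 + a * t) a x := by
        simpa using ((hasDerivAt_id x).const_mul a).const_add 1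
      exact h1.rpow_const (Or.inl (by positivity))
    refine ⟨fun x hx => by positivity, fun x hx => (hder x hx).differentiableAt.differentiableWithinAt,
      ?_⟩
    apply ((ih (α := α + 1) (by linarith)).const_mul (mul_pos ha hα)).congr
    intro x hx
    simp only
    rw [(hder x hx).deriv, show -(α + 1) = -α - 1 by ring]
    ring

/-- signs of the iterated derivatives -/
lemma CM.iter {n : ℕ} : ∀ {f : ℝ → ℝ}, CM n f → ∀ j ≤ n, ∀ x, 0 < x →
    0 < (-1) ^ j * iteratedDeriv j f x := by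
  induction n with
  | zero =>
    intro f hf j hj x hx
    have : j = 0 := by omega
    subst this
    simpa using hf x hx
  | succ n ih =>
    intro f hf j hj x hx
    cases j with
    | zero => simpa using hf.1 x hx
    | succ j =>
      have h1 := ih hf.2.2 j (by omega) x hx
      rw [iteratedDeriv_fun_neg] at h1
      rw [iteratedDeriv_succ', pow_succ]
      linarith

end Pool.Agent.H76.EP
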