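import Pool.Agent.H76.EPBeta

set_option autoImplicit false

/-! Convergence of all derivatives of the iterates, uniformly on `[1, 3]`. -/

namespace Pool.Agent.H76.EP

open Real Set Filter Topology

lemma iter_contDiffOn {f : ℝ → ℝ} (hf : ContDiffOn ℝ (⊤ : ℕ∞) f (Ioi 0)) (j : ℕ) :
    ContDiffOn ℝ (⊤ : ℕ∞) (iteratedDeriv j f) (Ioi 0) := by
  induction j with
  | zero => simpa using hf
  | succ j ih =>
    rw [iteratedDeriv_succ]
    exact ((contDiffOn_infty_iff_deriv_of_isOpen isOpen_Ioi).1 ih).2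

lemma iter_hasDerivAt {f : ℝ → ℝ} (hf : ContDiffOn ℝ (⊤ : ℕ∞) f (Ioi 0)) (j : ℕ) {t : ℝ}
    (ht : 0 < t) : HasDerivAt (iteratedDeriv j f) (iteratedDeriv (j + 1) f t) t := by
  rw [iteratedDeriv_succ]
  exact ((((iter_contDiffOn hf j).differentiableOn (by simp))).differentiableAt
    (Ioi_mem_nhds ht)).hasDerivAt

/-- pointwise convergence of convex functions implies that of the derivatives -/
lemma tendsto_deriv {φ φ' : ℕ → ℝ → ℝ} {Φ Φ' : ℝ → ℝ}
    (hφ : ∀ r t, 0 < t → HasDerivAt (φ r) (φ' r t) t)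
    (hmono : ∀ r s t, 0 < s → s ≤ t → φ' r s ≤ φ' r t)
    (hΦ : ∀ t, 0 < t → HasDerivAt Φ (Φ' t) t)
    (hconv : ∀ t, 0 < t → Tendsto (fun r => φ r t) atTop (𝓝 (Φ t))) :
    ∀ t, 0 < t → Tendsto (fun r => φ' r t) atTop (𝓝 (Φ' t)) := by
  intro t ht
  have hslope := (hΦ t ht).tendsto_slope
  rw [tendsto_order]
  constructor
  · intro a ha
    -- a left neighbour
    have h1 : ∀ᶠ z in 𝓝[≠] t, a < slope Φ t z := (tendsto_order.1 hslope).1 a ha
    have h2 : ∀ᶠ z in 𝓝[<] t, a < slope Φ t z :=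
      h1.filter_mono (nhdsWithin_mono _ (fun z hz => ne_of_lt hz))
    have h3 : ∀ᶠ z in 𝓝[<] t, 0 < z :=
      (Ioi_mem_nhds ht : Ioi (0 : ℝ) ∈ 𝓝 t) |> mem_nhdsWithin_of_mem_nhds
    obtain ⟨z, ⟨hz1, hz2⟩, hz3⟩ := ((h2.and h3).and self_mem_nhdsWithin).exists
    have hz3' : z < t := hz3
    have h4 : Tendsto (fun r => slope (φ r) t z) atTop (𝓝 (slope Φ t z)) := by
      simp only [slope_def_field]
      exact ((hconv z hz2).sub (hconv t ht)).div_const _
    filter_upwards [(tendsto_order.1 h4).1 a hz1] with r hr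
    refine lt_of_lt_of_le hr ?_
    obtain ⟨ξ, hξ, he⟩ := exists_hasDerivAt_eq_slope (φ r) (φ' r) hz3'
      (fun x hx => (hφ r x (by linarith [hx.1])).continuousAt.continuousWithinAt)
      (fun x hx => hφ r x (by linarith [hx.1]))
    rw [slope_comm, slope_def_field, ← he]
    exact hmono r ξ t (by linarith [hξ.1]) hξ.2.le
  · intro a ha
    have h1 : ∀ᶠ z in 𝓝[≠] t, slope Φ t z < a := (tendsto_order.1 hslope).2 a ha
    have h2 : ∀ᶠ z in 𝓝[>] t, slope Φ t z < a :=
      h1.filter_mono (nhdsWithin_mono _ (fun z hz => ne_of_gt hz))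
    obtain ⟨z, hz1, hz3⟩ := (h2.and self_mem_nhdsWithin).exists
    have hz3' : t < z := hz3
    have hz2 : 0 < z := by linarith
    have h4 : Tendsto (fun r => slope (φ r) t z) atTop (𝓝 (slope Φ t z)) := by
      simp only [slope_def_field]
      exact ((hconv z hz2).sub (hconv t ht)).div_const _
    filter_upwards [(tendsto_order.1 h4).2 a hz1] with r hr
    refine lt_of_le_of_lt ?_ hr
    obtain ⟨ξ, hξ, he⟩ := exists_hasDerivAt_eq_slope (φ r) (φ' r) hz3'
      (fun x hx => (hφ r x (by linarith [hx.1])).continuousAt.continuousWithinAt)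
      (fun x hx => hφ r x (by linarith [hx.1]))
    rw [slope_def_field, ← he]
    exact hmono r t ξ ht hξ.1.le

/-- antitone functions converging pointwise to a continuous function converge uniformly on
`[1, 3]` -/
lemma uniform_conv {ψ : ℕ → ℝ → ℝ} {Ψ : ℝ → ℝ}
    (hanti : ∀ r s t, 0 < s → s ≤ t → ψ r t ≤ ψ r s)
    (hcont : ContinuousOn Ψ (Ioi 0))
    (hconv : ∀ t, 0 < t → Tendsto (fun r => ψ r t) atTop (𝓝 (Ψ t))) {ε : ℝ} (hε : 0 < ε) :
    ∀ᶠ r in atTop, ∀ t ∈ Icc (1 : ℝ) 3, |ψ r t - Ψ t| < ε := by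
  have hu : UniformContinuousOn Ψ (Icc 1 3) :=
    isCompact_Icc.uniformContinuousOn_of_continuous
      (hcont.mono (fun x hx => lt_of_lt_of_le one_pos hx.1))
  rw [Metric.uniformContinuousOn_iff] at hu
  obtain ⟨δ, hδ, hu⟩ := hu (ε / 2) (by positivity)
  obtain ⟨n, hn⟩ := exists_nat_gt (2 / δ)
  have hn0 : (0 : ℝ) < n := lt_trans (by positivity) hn
  have hnδ : 2 / (n : ℝ) < δ := by
    rw [div_lt_iff₀ hδ] at hn
    rw [div_lt_iff₀ hn0]; linarith
  have hev : ∀ᶠ r in atTop, ∀ i ∈ Finset.range (n + 1),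
      |ψ r (1 + 2 * i / n) - Ψ (1 + 2 * i / n)| < ε / 2 := by
    rw [Filter.eventually_all_finset]
    intro i _
    have h1 := hconv (1 + 2 * i / n) (by positivity)
    have h2 := (Metric.tendsto_atTop.1 h1) (ε / 2) (by positivity)
    obtain ⟨R, hR⟩ := h2
    filter_upwards [eventually_ge_atTop R] with r hr
    have := hR r hr
    rwa [Real.dist_eq] at this
  filter_upwards [hev] with r hr t ht
  have ht1 := ht.1
  have ht3 := ht.2
  -- the index
  obtain ⟨i, hi, h1, h2⟩ : ∃ i : ℕ, i + 1 ≤ n ∧ 1 + 2 * (i : ℝ) / n ≤ t ∧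
      t ≤ 1 + 2 * ((i : ℝ) + 1) / n := by
    by_cases h : t = 3
    · refine ⟨n - 1, ?_, ?_, ?_⟩
      · have : 0 < n := by exact_mod_cast hn0
        omega
      · have h5 : 1 ≤ n := by exact_mod_cast hn0
        rw [Nat.cast_sub h5, h]
        push_cast
        rw [← sub_nonneg]
        have : 3 - (1 + 2 * ((n : ℝ) - 1) / n) = 2 / n := by field_simp; ring
        rw [this]; positivity
      · have h5 : 1 ≤ n := by exact_mod_cast hn0
        rw [Nat.cast_sub h5, h]
        push_cast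
        rw [← sub_nonneg]
        have : 1 + 2 * ((n : ℝ) - 1 + 1) / n - 3 = 0 := by field_simp; ring
        rw [this]
    · have hlt : t < 3 := lt_of_le_of_ne ht3 h
      refine ⟨⌊(t - 1) * n / 2⌋₊, ?_, ?_, ?_⟩
      · have h5 : (t - 1) * n / 2 < n := by nlinarith
        have := (Nat.floor_lt (by
          have : 0 ≤ t - 1 := by linarith
          positivity)).2 h5
        omega
      · have h5 := Nat.floor_le (show 0 ≤ (t - 1) * n / 2 by
          have : 0 ≤ t - 1 := by linarith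
          positivity)
        rw [← sub_nonneg]
        have h6 : t - (1 + 2 * (⌊(t - 1) * n / 2⌋₊ : ℝ) / n) =
            ((t - 1) * n / 2 - ⌊(t - 1) * n / 2⌋₊) * (2 / n) := by field_simp; ring
        rw [h6]
        exact mul_nonneg (by linarith) (by positivity)
      · have h5 := (Nat.lt_floor_add_one ((t - 1) * n / 2)).le
        rw [← sub_nonneg]
        have h6 : 1 + 2 * ((⌊(t - 1) * n / 2⌋₊ : ℝ) + 1) / n - t =
            ((⌊(t - 1) * n / 2⌋₊ : ℝ) + 1 - (t - 1) * n / 2) * (2 / n) := by field_simp; ring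
        rw [h6]
        exact mul_nonneg (by linarith) (by positivity)
  have ha := abs_lt.1 (hr i (Finset.mem_range.2 (by omega)))
  have hb := abs_lt.1 (hr (i + 1) (Finset.mem_range.2 (by omega)))
  push_cast at hb
  have hiR : (i : ℝ) + 1 ≤ n := by exact_mod_cast hi
  have hgap : 1 + 2 * ((i : ℝ) + 1) / n - (1 + 2 * i / n) = 2 / n := by field_simp; ring
  have hi0 : (0 : ℝ) ≤ i := by positivity
  have hai : 1 + 2 * (i : ℝ) / n ∈ Icc (1 : ℝ) 3 := by
    constructor
    · have : 0 ≤ 2 * (i : ℝ) / n := by positivity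
      linarith
    · linarith
  have hbi : 1 + 2 * ((i : ℝ) + 1) / n ∈ Icc (1 : ℝ) 3 := by
    constructor
    · linarith
    · have : 2 * ((i : ℝ) + 1) / n ≤ 2 := by rw [div_le_iff₀ hn0]; linarith
      linarith
  have hc := hu t ht _ hai (by rw [Real.dist_eq, abs_lt]; constructor <;> linarith)
  have hd := hu t ht _ hbi (by rw [Real.dist_eq, abs_lt]; constructor <;> linarith)
  rw [Real.dist_eq, abs_lt] at hc hd
  have he := hanti r _ t (by linarith [hai.1]) h1
  have hf := hanti r t _ (by linarith) h2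
  rw [abs_lt]
  constructor
  · linarith [hb.1, hd.2]
  · linarith [ha.2, hc.1]

/-- the functions `(-1)^(j+1) g_r^(j)` -/
noncomputable def psi (r j : ℕ) (t : ℝ) : ℝ := (-1) ^ (j + 1) * iteratedDeriv j (gg r) t

/-- the limits -/
noncomputable def lim (j : ℕ) (t : ℝ) : ℝ :=
  if j = 0 then -(t / (1 + t)) else (j.factorial : ℝ) / (1 + t) ^ (j + 1)

lemma gg_bern (r n : ℕ) : Bern n (gg r) := gi_bern (by positivity) n r

lemma gg_contDiffOn (r : ℕ) : ContDiffOn ℝ (⊤ : ℕ∞) (gg r) (Ioi 0) :=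
  gi_contDiffOn (by positivity) (r + 1)

lemma psi_pos (r j : ℕ) {t : ℝ} (ht : 0 < t) : 0 < psi r (j + 1) t := by
  have h := (gg_bern r j).2.2.iter j le_rfl t ht
  unfold psi
  rw [iteratedDeriv_succ', pow_succ, pow_succ]
  linarith

lemma psi_hasDerivAt (r j : ℕ) {t : ℝ} (ht : 0 < t) :
    HasDerivAt (psi r j) (-psi r (j + 1) t) t := by
  have h := (iter_hasDerivAt (gg_contDiffOn r) j ht).const_mul ((-1 : ℝ) ^ (j + 1))
  have e : -psi r (j + 1) t = (-1) ^ (j + 1) * iteratedDeriv (j + 1) (gg r) t := by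
    unfold psi; ring
  rw [e]
  exact h

lemma psi_anti (r j : ℕ) {s t : ℝ} (hs : 0 < s) (hst : s ≤ t) : psi r j t ≤ psi r j s := by
  rcases hst.eq_or_lt with h | h
  · rw [h]
  · obtain ⟨ξ, hξ, he⟩ := exists_hasDerivAt_eq_slope (psi r j) (fun t => -psi r (j + 1) t) h
      (fun x hx => (psi_hasDerivAt r j (by linarith [hx.1])).continuousAt.continuousWithinAt)
      (fun x hx => psi_hasDerivAt r j (by linarith [hx.1]))
    have h1 := psi_pos r j (t := ξ) (by linarith [hξ.1])
    have h2 : 0 < t - s := by linarith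
    have h3 : psi r j t - psi r j s = -psi r (j + 1) ξ * (t - s) := by
      rw [he]; field_simp
    have h4 : 0 < psi r (j + 1) ξ * (t - s) := mul_pos h1 h2
    linarith

lemma lim_hasDerivAt (j : ℕ) {t : ℝ} (ht : 0 < t) :
    HasDerivAt (lim j) (-lim (j + 1) t) t := by
  have h1 : HasDerivAt (fun t : ℝ => 1 + t) 1 t := by
    simpa using (hasDerivAt_id t).const_add 1
  have hp : (0 : ℝ) < 1 + t := by linarith
  by_cases hj : j = 0
  · subst hj
    have e : lim 0 = fun t => -(t / (1 + t)) := by funext x; simp [lim]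
    rw [e]
    have h2 := ((hasDerivAt_id t).div h1 hp.ne').neg
    simp only [id_eq, one_mul, mul_one] at h2
    have e2 : -lim (0 + 1) t = -((1 + t - t) / (1 + t) ^ 2) := by
      simp [lim]
    rw [e2]
    exact h2
  · have e : lim j = fun t => (j.factorial : ℝ) / (1 + t) ^ (j + 1) := by
      funext x; simp [lim, hj]
    rw [e]
    have h3 : HasDerivAt (fun t : ℝ => (1 + t) ^ (j + 1)) ((j + 1 : ℕ) * (1 + t) ^ j) t := by
      have h4 := h1.fun_pow (j + 1)
      rw [mul_one, Nat.add_sub_cancel] at h4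
      exact h4
    have h2 := (h3.inv (pow_pos hp _).ne').const_mul (j.factorial : ℝ)
    have e3 : (fun t : ℝ => (j.factorial : ℝ) / (1 + t) ^ (j + 1)) =
        fun t => (j.factorial : ℝ) * ((1 + t) ^ (j + 1))⁻¹ := by
      funext x; rw [div_eq_mul_inv]
    rw [e3]
    have e4 : -lim (j + 1) t = (j.factorial : ℝ) *
        (-((j + 1 : ℕ) * (1 + t) ^ j) / ((1 + t) ^ (j + 1)) ^ 2) := by
      unfold lim
      rw [if_neg (Nat.succ_ne_zero j), Nat.factorial_succ]
      push_cast
      field_simp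
      ring
    rw [e4]
    exact h2

lemma psi_tendsto (j : ℕ) : ∀ t, 0 < t → Tendsto (fun r => psi r j t) atTop (𝓝 (lim j t)) := by
  induction j with
  | zero =>
    intro t ht
    have := (gg_tendsto ht).neg
    simpa [psi, lim] using this
  | succ j ih =>
    intro t ht
    have h := tendsto_deriv (φ := fun r => psi r j) (φ' := fun r t => -psi r (j + 1) t)
      (Φ := lim j) (Φ' := fun t => -lim (j + 1) t)
      (fun r _ ht => psi_hasDerivAt r j ht)
      (fun r s t hs hst => neg_le_neg (psi_anti r (j + 1) hs hst))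
      (fun _ ht => lim_hasDerivAt j ht) ih t ht
    simpa using h.neg

lemma lim_continuousOn (j : ℕ) : ContinuousOn (lim j) (Ioi 0) :=
  fun t ht => (lim_hasDerivAt j ht).continuousAt.continuousWithinAt

/-- uniform closeness of the derivatives of order `< P` -/
lemma psi_close (P : ℕ) {ε : ℝ} (hε : 0 < ε) :
    ∀ᶠ r in atTop, ∀ j < P, ∀ t ∈ Icc (1 : ℝ) 3, |psi r j t - lim j t| < ε := by
  have h : ∀ᶠ r in atTop, ∀ j ∈ Finset.range P, ∀ t ∈ Icc (1 : ℝ) 3,
      |psi r j t - lim j t| < ε := by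
    rw [Filter.eventually_all_finset]
    intro j _
    exact uniform_conv (fun r s t hs hst => psi_anti r j hs hst) (lim_continuousOn j)
      (psi_tendsto j) hε
  filter_upwards [h] with r hr j hj
  exact hr j (Finset.mem_range.2 hj)

end Pool.Agent.H76.EP
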