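import Pool.Agent.H76.EPStage

set_option autoImplicit false

namespace Pool.Agent.H76.EPGKClass

open Real

/-- The rising factorial `(σ)_j = σ (σ + 1) ⋯ (σ + j - 1)`. -/
noncomputable def rising (σ : ℝ) (j : ℕ) : ℝ := ∏ i ∈ Finset.range j, (σ + i)

/-- The class `F(N, P, σ, y, c)` of Graham and Kolesnik, restricted to smooth functions on the
whole of `[N, 2N]`: for `0 ≤ j < P` the derivative of order `j + 1` of `f` differs from the
`j`-th derivative `(-1)^j (σ)_j y x^(-σ-j)` of `y x^(-σ)` by less than `c (σ)_j y x^(-σ-j)`. -/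
def GKClass (N : ℝ) (P : ℕ) (σ y c : ℝ) (f : ℝ → ℝ) : Prop :=
  ContDiffOn ℝ (⊤ : ℕ∞) f (Set.Icc N (2 * N)) ∧
    ∀ j < P, ∀ x ∈ Set.Icc N (2 * N),
      |iteratedDerivWithin (j + 1) f (Set.Icc N (2 * N)) x -
          (-1) ^ j * rising σ j * y * x ^ (-σ - j)| <
        c * (rising σ j * y * x ^ (-σ - j))

/-- `(p, q)` is an exponent pair (in the normalisation of the problem, with `F = y N^(1-σ)`) for
the classes `F(N, P, σ, y, c)` with `σ`, `P`, `c` fixed: for every `ε > 0` there is `K` with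
`|∑_{N ≤ n ≤ N'} e(f(n))| ≤ K F^p N^(q - p + 1/2) F^ε` for all `2 ≤ N ≤ N' ≤ 2N`, all `y` with
`F = y N^(1-σ) ≥ N` and all `f` in `F(N, P, σ, y, c)`. -/
def IsPairFor (σ : ℝ) (P : ℕ) (c p q : ℝ) : Prop :=
  ∀ ε : ℝ, 0 < ε → ∃ K : ℝ, ∀ N N' y : ℝ, ∀ f : ℝ → ℝ, 2 ≤ N → N ≤ N' → N' ≤ 2 * N →
    N ≤ y * N ^ (1 - σ) → GKClass N P σ y c f →
      ‖∑ n ∈ Finset.Icc ⌈N⌉₊ ⌊N'⌋₊,
          Complex.exp (2 * (Real.pi : ℂ) * Complex.I * ((f (n : ℝ) : ℝ) : ℂ))‖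
        ≤ K * (y * N ^ (1 - σ)) ^ p * N ^ (q - p + 1 / 2) * (y * N ^ (1 - σ)) ^ ε

open Pool.Agent.H76.EP in
/-- An exponent pair that is valid for the Graham-Kolesnik class with a fixed number `P ≥ 2` of
controlled derivatives and a fixed closeness `c > 0` satisfies `p + (P - 1) q ≥ 1/2`. -/
theorem result (σ c p q : ℝ) (P : ℕ) (hσ : 0 < σ) (hc : 0 < c) (hP : 2 ≤ P)
    (h : IsPairFor σ P c p q) : 1 / 2 ≤ p + (P - 1) * q := by
  by_contra hcon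
  push Not at hcon
  have hPR : (2 : ℝ) ≤ P := by exact_mod_cast hP
  set δ : ℝ := 1 / 2 - (p + (P - 1) * q) with hδ
  have hδ0 : 0 < δ := by rw [hδ]; linarith
  obtain ⟨K, hK⟩ := h (δ / (2 * P)) (by positivity)
  have h2σ1 : 1 < (2 : ℝ) ^ σ := Real.one_lt_rpow (by norm_num) hσ
  set ρ : ℝ := 8 * 2 ^ σ with hρ
  have hρ8 : 8 ≤ ρ := by rw [hρ]; linarith
  have hB2 := BB_pos 2
  -- the constant `A`
  set s0 : ℝ := min (1 / (960 * ρ ^ 3)) (1 / (16 * BB 2 * ρ ^ 2)) with hs0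
  have hs0pos : 0 < s0 := by rw [hs0]; positivity
  set E : ℕ → ℝ := fun j => (8 * (σ * 2 ^ σ)) ^ (j + 1) * 2 ^ j * BB (j + 1) / (c * rf σ j) with hE
  have hEpos : ∀ j, 0 < E j := fun j => by
    have := BB_pos (j + 1)
    have := rf_pos hσ j
    simp only [hE]; positivity
  obtain ⟨A, hA⟩ : ∃ A : ℕ, 1 + σ / (4 * s0 ^ 2) + ∑ j ∈ Finset.range P, E j < (A : ℝ) :=
    exists_nat_gt _
  have hsumE : 0 ≤ ∑ j ∈ Finset.range P, E j := Finset.sum_nonneg fun j _ => (hEpos j).le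
  have hσs : 0 < σ / (4 * s0 ^ 2) := by positivity
  have hA1 : 1 < (A : ℝ) := by linarith
  have hA0 : 0 < (A : ℝ) := by linarith
  have hAσ : σ / (4 * s0 ^ 2) < A := by linarith
  have hAE : ∀ j < P, E j < A := by
    intro j hj
    have := Finset.single_le_sum (fun j _ => (hEpos j).le) (Finset.mem_range.2 hj)
    linarith
  -- constants of the final inequality
  set C1 : ℝ := (2 ^ σ - 1) / 2 * (1 / (320 * ρ ^ 3)) * √(4 * A / σ) with hC1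
  have hC1pos : 0 < C1 := by
    rw [hC1]
    have : 0 < (2 : ℝ) ^ σ - 1 := by linarith
    positivity
  set C2 : ℝ := 2 * |K| * ((2 ^ σ * A) ^ (p + δ / (2 * P)) * (A : ℝ) ^ (q - p + 1 / 2)) with hC2
  have hC2nn : 0 ≤ C2 := by rw [hC2]; positivity
  -- pick a large `M`
  have htend : Filter.Tendsto (fun M : ℕ => (M : ℝ) ^ (δ / 2)) Filter.atTop Filter.atTop :=
    (tendsto_rpow_atTop (by positivity : 0 < δ / 2)).comp (tendsto_natCast_atTop_atTop (R := ℝ))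
  have htend2 : Filter.Tendsto (fun M : ℕ => (M : ℝ)) Filter.atTop Filter.atTop :=
    tendsto_natCast_atTop_atTop
  obtain ⟨M, hM2, hMbig, hMσ⟩ := ((Filter.eventually_ge_atTop 2).and
    ((htend.eventually_gt_atTop (C2 / C1)).and
      (htend2.eventually_gt_atTop (3 / (2 ^ σ - 1))))).exists
  have hM2R : (2 : ℝ) ≤ M := by exact_mod_cast hM2
  have hM0 : (0 : ℝ) < M := by linarith
  have hM1 : (1 : ℝ) ≤ M := by linarith
  set N : ℝ := A * (M : ℝ) ^ (P - 1) with hN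
  have hMP1 : (M : ℝ) ≤ (M : ℝ) ^ (P - 1) := le_self_pow₀ hM1 (by omega)
  have hN2 : 2 ≤ N := by rw [hN]; nlinarith
  have hN0 : 0 < N := by linarith
  have h2σ0 : (0 : ℝ) < 2 ^ σ := by positivity
  -- the parameter `s`
  have hMN : (M : ℝ) / N = (M : ℝ) ^ (2 - (P : ℝ)) / A := by
    have e1 : (M : ℝ) ^ (P - 1) = (M : ℝ) ^ ((P : ℝ) - 1) := by
      rw [← Real.rpow_natCast, Nat.cast_sub (by omega)]; simp
    have e2 : (M : ℝ) ^ (2 - (P : ℝ)) = M / (M : ℝ) ^ ((P : ℝ) - 1) := by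
      rw [show (2 : ℝ) - P = 1 - (P - 1) by ring, Real.rpow_sub hM0 1 ((P : ℝ) - 1),
        Real.rpow_one]
    rw [hN, e1, e2]
    field_simp
  set s : ℝ := √(σ / (4 * A)) * (M : ℝ) ^ ((2 - (P : ℝ)) / 2) with hs
  have hs0' : 0 < s := by rw [hs]; positivity
  have hs2 : s ^ 2 = σ * (M / N) / 4 := by
    rw [hMN, hs, mul_pow, Real.sq_sqrt (by positivity), ← Real.rpow_natCast, ← Real.rpow_mul hM0.le]
    push_cast
    rw [show (2 - (P : ℝ)) / 2 * 2 = 2 - P by ring]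
    ring
  have hsle : s ≤ s0 := by
    have h1 : s ^ 2 ≤ s0 ^ 2 := by
      rw [hs2, hMN]
      have h2 : (M : ℝ) ^ (2 - (P : ℝ)) ≤ 1 := Real.rpow_le_one_of_one_le_of_nonpos hM1 (by linarith)
      rw [div_lt_iff₀ (by positivity)] at hAσ
      have h3 : σ * ((M : ℝ) ^ (2 - (P : ℝ)) / A) / 4 ≤ σ * (1 / A) / 4 := by
        have : (M : ℝ) ^ (2 - (P : ℝ)) / A ≤ 1 / A := div_le_div_of_nonneg_right h2 hA0.le
        have := mul_le_mul_of_nonneg_left this hσ.le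
        linarith
      refine h3.trans ?_
      rw [show σ * (1 / (A : ℝ)) / 4 = σ / (4 * A) by field_simp, div_le_iff₀ (by positivity)]
      linarith
    exact (pow_le_pow_iff_left₀ hs0'.le hs0pos.le (by norm_num)).1 h1
  have hsa : 960 * ρ ^ 3 * s ≤ 1 := by
    have h1 : s ≤ 1 / (960 * ρ ^ 3) := hsle.trans (min_le_left _ _)
    rw [le_div_iff₀ (by positivity)] at h1
    linarith
  have hs1 : s ≤ 1 := by
    have h1 : (1 : ℝ) ≤ ρ ^ 3 := one_le_pow₀ (by linarith)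
    nlinarith
  have hsb : 16 * BB 2 * ρ ^ 2 * s ^ 2 ≤ 1 := by
    have h1 : s ≤ 1 / (16 * BB 2 * ρ ^ 2) := hsle.trans (min_le_right _ _)
    rw [le_div_iff₀ (by positivity)] at h1
    have h2 : s ^ 2 ≤ s := by nlinarith
    have h3 : 16 * BB 2 * ρ ^ 2 * s ^ 2 ≤ 16 * BB 2 * ρ ^ 2 * s :=
      mul_le_mul_of_nonneg_left h2 (by positivity)
    linarith
  -- the blocks
  set ν0 : ℕ := ⌊2 ^ σ * (M : ℝ) - 1 / 2⌋₊ with hν0
  have hν0pos : 0 ≤ 2 ^ σ * (M : ℝ) - 1 / 2 := by nlinarith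
  have hν1 : (ν0 : ℝ) + 1 / 2 ≤ 2 ^ σ * M := by
    have := Nat.floor_le hν0pos
    linarith
  have hν2 : 2 ^ σ * (M : ℝ) - 3 / 2 < ν0 := by
    have := Nat.lt_floor_add_one (2 ^ σ * (M : ℝ) - 1 / 2)
    linarith
  have hMσ' : 3 < (2 ^ σ - 1) * (M : ℝ) := by
    rw [div_lt_iff₀ (by linarith)] at hMσ
    linarith
  have hMν : M ≤ ν0 := by
    have : (M : ℝ) ≤ ν0 := by linarith
    exact_mod_cast this
  obtain ⟨L, hL⟩ : ∃ L, ν0 = M + L := ⟨ν0 - M, by omega⟩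
  have hLR : (ν0 : ℝ) = M + L := by rw [hL]; push_cast; ring
  have hLlow : (2 ^ σ - 1) / 2 * (M : ℝ) ≤ L := by linarith
  obtain ⟨f, u, v, hNu, huv, hv2, hcd, hder, hlow⟩ := stage1 σ M N s ρ ν0 L hσ hM0 hN0 hρ hs0'
    hs2 hsa hsb hν1 (by rw [hLR]; linarith)
  set y : ℝ := M * (2 * N) ^ σ with hy
  have hF : y * N ^ (1 - σ) = 2 ^ σ * A * (M : ℝ) ^ (P : ℝ) := by
    have e1 : N ^ σ * N ^ (1 - σ) = N := by
      rw [← Real.rpow_add hN0, show σ + (1 - σ) = 1 by ring, Real.rpow_one]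
    have e2 : (M : ℝ) ^ (P : ℝ) = (M : ℝ) ^ (P - 1) * M := by
      rw [Real.rpow_natCast, ← pow_succ]; congr 1; omega
    rw [hy, Real.mul_rpow (by norm_num) hN0.le, e2]
    calc (M : ℝ) * (2 ^ σ * N ^ σ) * N ^ (1 - σ) = M * 2 ^ σ * (N ^ σ * N ^ (1 - σ)) := by ring
      _ = 2 ^ σ * A * ((M : ℝ) ^ (P - 1) * M) := by rw [e1, hN]; ring
  have hNF : N ≤ y * N ^ (1 - σ) := by
    have e2 : (M : ℝ) ^ (P : ℝ) = (M : ℝ) ^ (P - 1) * M := by
      rw [Real.rpow_natCast, ← pow_succ]; congr 1; omega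
    rw [hF, e2, hN]
    have h1 : (1 : ℝ) ≤ 2 ^ σ * M := by nlinarith
    have h2 : A * (M : ℝ) ^ (P - 1) * 1 ≤ A * (M : ℝ) ^ (P - 1) * (2 ^ σ * M) :=
      mul_le_mul_of_nonneg_left h1 (by positivity)
    calc A * (M : ℝ) ^ (P - 1) = A * (M : ℝ) ^ (P - 1) * 1 := by ring
      _ ≤ A * (M : ℝ) ^ (P - 1) * (2 ^ σ * M) := h2
      _ = _ := by ring
  have hclass : GKClass N P σ y c f := by
    refine ⟨hcd, fun j hj x hx => ?_⟩
    have hx0 : 0 < x := lt_of_lt_of_le hN0 hx.1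
    refine lt_of_le_of_lt (hder j x hx) ?_
    have hrf : 0 < rf σ j := rf_pos hσ j
    have hxlow : (2 * N) ^ (-σ - (j : ℝ)) ≤ x ^ (-σ - (j : ℝ)) :=
      Real.rpow_le_rpow_of_nonpos hx0 hx.2 (by
        have : (0 : ℝ) ≤ j := by positivity
        linarith)
    have e1 : y * (2 * N) ^ (-σ - (j : ℝ)) = M / (2 * N) ^ j := by
      have h3 : (0 : ℝ) < (2 * N) ^ σ := by positivity
      rw [hy, Real.rpow_sub (by positivity), Real.rpow_neg (by positivity), Real.rpow_natCast]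
      field_simp
    have hy0 : 0 < y := by rw [hy]; positivity
    have h4 : c * (rf σ j * (M / (2 * N) ^ j)) ≤ c * (rising σ j * y * x ^ (-σ - (j : ℝ))) := by
      apply mul_le_mul_of_nonneg_left _ hc.le
      have e9 : rising σ j * y * x ^ (-σ - (j : ℝ)) = rf σ j * (y * x ^ (-σ - (j : ℝ))) := by
        have : rising σ j = rf σ j := rfl
        rw [this]; ring
      rw [e9, ← e1]
      apply mul_le_mul_of_nonneg_left _ hrf.le
      exact mul_le_mul_of_nonneg_left hxlow hy0.le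
    refine lt_of_lt_of_le ?_ h4
    -- (8 σ 2^σ M / N)^(j+1) B < c rf M / (2N)^j
    have h5 : E j * (M : ℝ) ^ j < N := by
      have h6 : (M : ℝ) ^ j ≤ (M : ℝ) ^ (P - 1) := pow_le_pow_right₀ hM1 (by omega)
      calc E j * (M : ℝ) ^ j ≤ E j * (M : ℝ) ^ (P - 1) :=
            mul_le_mul_of_nonneg_left h6 (hEpos j).le
        _ < A * (M : ℝ) ^ (P - 1) := mul_lt_mul_of_pos_right (hAE j hj) (by positivity)
        _ = N := by rw [hN]
    have e7 : (8 * (σ * 2 ^ σ * (M / N))) ^ (j + 1) * BB (j + 1) =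
        (E j * (M : ℝ) ^ j) * (c * rf σ j * (M / (2 * N) ^ j) / N) := by
      simp only [hE]
      rw [show 8 * (σ * 2 ^ σ * (M / N)) = (8 * (σ * 2 ^ σ)) * (M / N) by ring, mul_pow, div_pow,
        mul_pow 2 N j]
      field_simp
      ring
    rw [e7]
    calc (E j * (M : ℝ) ^ j) * (c * rf σ j * (M / (2 * N) ^ j) / N)
        < N * (c * rf σ j * (M / (2 * N) ^ j) / N) :=
          mul_lt_mul_of_pos_right h5 (by positivity)
      _ = c * (rf σ j * (M / (2 * N) ^ j)) := by field_simp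
  have hbv := hK N v y f hN2 (hNu.trans huv) hv2 hNF hclass
  have hbu := hK N u y f hN2 hNu (huv.trans hv2) hNF hclass
  -- the right-hand side
  have hPr : (M : ℝ) ^ (P - 1) = (M : ℝ) ^ ((P : ℝ) - 1) := by
    rw [← Real.rpow_natCast, Nat.cast_sub (by omega)]; simp
  have hrhs : 2 * (K * (y * N ^ (1 - σ)) ^ p * N ^ (q - p + 1 / 2) *
      (y * N ^ (1 - σ)) ^ (δ / (2 * P))) ≤ C2 * (M : ℝ) ^ ((P : ℝ) / 2 - δ / 2) := by
    have e1 : (y * N ^ (1 - σ)) ^ p * (y * N ^ (1 - σ)) ^ (δ / (2 * P)) =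
        (2 ^ σ * A) ^ (p + δ / (2 * P)) * (M : ℝ) ^ ((P : ℝ) * (p + δ / (2 * P))) := by
      rw [← Real.rpow_add (by linarith), hF, Real.mul_rpow (by positivity) (by positivity),
        ← Real.rpow_mul hM0.le]
    have e2 : N ^ (q - p + 1 / 2) =
        (A : ℝ) ^ (q - p + 1 / 2) * (M : ℝ) ^ (((P : ℝ) - 1) * (q - p + 1 / 2)) := by
      rw [hN, hPr, Real.mul_rpow hA0.le (by positivity), ← Real.rpow_mul hM0.le]
    have e3 : (M : ℝ) ^ ((P : ℝ) / 2 - δ / 2) = (M : ℝ) ^ ((P : ℝ) * (p + δ / (2 * P))) *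
        (M : ℝ) ^ (((P : ℝ) - 1) * (q - p + 1 / 2)) := by
      rw [← Real.rpow_add hM0]
      congr 1
      have : (P : ℝ) * (p + δ / (2 * P)) = P * p + δ / 2 := by field_simp
      rw [this, hδ]; ring
    have e4 : 2 * (K * (y * N ^ (1 - σ)) ^ p * N ^ (q - p + 1 / 2) *
        (y * N ^ (1 - σ)) ^ (δ / (2 * P))) =
        2 * K * (((y * N ^ (1 - σ)) ^ p * (y * N ^ (1 - σ)) ^ (δ / (2 * P))) *
          N ^ (q - p + 1 / 2)) := by ring
    rw [e4, e1, e2, e3, hC2]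
    have hpos : 0 ≤ ((2 ^ σ * A) ^ (p + δ / (2 * P)) * (M : ℝ) ^ ((P : ℝ) * (p + δ / (2 * P)))) *
        ((A : ℝ) ^ (q - p + 1 / 2) * (M : ℝ) ^ (((P : ℝ) - 1) * (q - p + 1 / 2))) := by positivity
    calc 2 * K * (((2 ^ σ * A) ^ (p + δ / (2 * P)) * (M : ℝ) ^ ((P : ℝ) * (p + δ / (2 * P)))) *
        ((A : ℝ) ^ (q - p + 1 / 2) * (M : ℝ) ^ (((P : ℝ) - 1) * (q - p + 1 / 2))))
        ≤ 2 * |K| * (((2 ^ σ * A) ^ (p + δ / (2 * P)) *
            (M : ℝ) ^ ((P : ℝ) * (p + δ / (2 * P)))) *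
        ((A : ℝ) ^ (q - p + 1 / 2) * (M : ℝ) ^ (((P : ℝ) - 1) * (q - p + 1 / 2)))) := by
          apply mul_le_mul_of_nonneg_right _ hpos
          have := le_abs_self K
          linarith
      _ = _ := by ring
  have hlhs : C1 * (M : ℝ) ^ ((P : ℝ) / 2) ≤ L * (1 / (320 * ρ ^ 3 * s)) := by
    have e1 : 1 / s = √(4 * A / σ) * (M : ℝ) ^ (((P : ℝ) - 2) / 2) := by
      rw [hs, one_div, mul_inv, ← Real.rpow_neg hM0.le, ← Real.sqrt_inv, inv_div]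
      congr 2; ring
    have e2 : 1 / (320 * ρ ^ 3 * s) = 1 / (320 * ρ ^ 3) * (1 / s) := by field_simp
    rw [e2, e1]
    have e3 : (M : ℝ) ^ ((P : ℝ) / 2) = M * (M : ℝ) ^ (((P : ℝ) - 2) / 2) := by
      rw [← Real.rpow_one_add' hM0.le (by positivity)]
      congr 1; ring
    rw [e3, hC1]
    calc (2 ^ σ - 1) / 2 * (1 / (320 * ρ ^ 3)) * √(4 * A / σ) *
        (M * (M : ℝ) ^ (((P : ℝ) - 2) / 2))
        = ((2 ^ σ - 1) / 2 * M) * (1 / (320 * ρ ^ 3) * (√(4 * A / σ) *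
            (M : ℝ) ^ (((P : ℝ) - 2) / 2))) := by ring
      _ ≤ L * (1 / (320 * ρ ^ 3) * (√(4 * A / σ) * (M : ℝ) ^ (((P : ℝ) - 2) / 2))) :=
          mul_le_mul_of_nonneg_right hLlow (by positivity)
  have hfin : C1 * (M : ℝ) ^ ((P : ℝ) / 2) ≤ C2 * (M : ℝ) ^ ((P : ℝ) / 2 - δ / 2) := by
    have h1 : ‖∑ k ∈ Finset.Icc ⌈N⌉₊ ⌊v⌋₊, ex (f (k : ℝ))‖ +
        ‖∑ k ∈ Finset.Icc ⌈N⌉₊ ⌊u⌋₊, ex (f (k : ℝ))‖ ≤
        2 * (K * (y * N ^ (1 - σ)) ^ p * N ^ (q - p + 1 / 2) *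
          (y * N ^ (1 - σ)) ^ (δ / (2 * P))) := by
      have h2 := add_le_add hbv hbu
      refine h2.trans ?_
      linarith
    exact hlhs.trans (hlow.trans (h1.trans hrhs))
  have e5 : (M : ℝ) ^ ((P : ℝ) / 2) = (M : ℝ) ^ (δ / 2) * (M : ℝ) ^ ((P : ℝ) / 2 - δ / 2) := by
    rw [← Real.rpow_add hM0]; congr 1; ring
  have h6 : 0 < (M : ℝ) ^ ((P : ℝ) / 2 - δ / 2) := by positivity
  rw [e5, ← mul_assoc] at hfin
  have h7 := le_of_mul_le_mul_right hfin h6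
  rw [div_lt_iff₀ hC1pos] at hMbig
  linarith

end Pool.Agent.H76.EPGKClass
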