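import Pool.Agent.H21.ExpPairCore

set_option autoImplicit false

/-! Lower bound for half a block around a stationary point, for an arbitrary convex phase whose
increments grow at a rate between `s^2` and `ρ s^2`. -/

namespace Pool.Agent.H76.EP

open Real Finset Pool.Agent.H21

lemma ct_sub_lower {x y : ℝ} (hx : 0 < x) (hxy : x ≤ y) (hy : y ≤ π / 2) :
    (2 / π) * ((y - x) / (x * y)) ≤ ct x - ct y := by
  have hpi := Real.pi_pos
  have hy0 : 0 < y := by linarith
  have hsx : 0 < Real.sin x := Real.sin_pos_of_pos_of_lt_pi hx (by linarith)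
  have hsy : 0 < Real.sin y := Real.sin_pos_of_pos_of_lt_pi hy0 (by linarith)
  have h1 : ct x - ct y = Real.sin (y - x) / (Real.sin x * Real.sin y) := by
    unfold ct
    rw [Real.sin_sub]
    field_simp
  rw [h1]
  have h2 : 2 / π * (y - x) ≤ Real.sin (y - x) := Real.mul_le_sin (by linarith) (by linarith)
  have h3 : Real.sin x * Real.sin y ≤ x * y :=
    mul_le_mul (Real.sin_le hx.le) (Real.sin_le hy0.le) hsy.le hx.le
  have h4 : 0 ≤ 2 / π * (y - x) := by
    apply mul_nonneg (by positivity) (by linarith)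
  calc (2 / π) * ((y - x) / (x * y)) = (2 / π * (y - x)) / (x * y) := by ring
    _ ≤ (2 / π * (y - x)) / (Real.sin x * Real.sin y) :=
        div_le_div_of_nonneg_left h4 (by positivity) h3
    _ ≤ Real.sin (y - x) / (Real.sin x * Real.sin y) :=
        div_le_div_of_nonneg_right h2 (by positivity)

lemma half (φ : ℕ → ℝ) (K : ℕ) (s ρ : ℝ) (hs : 0 < s) (hρ : 1 ≤ ρ) (hsmall : 8 * ρ * s ≤ 1)
    (hK : 2 ≤ K * s) (h0 : φ 0 = 0) (hd0 : 0 < φ 1 - φ 0) (hd0' : φ 1 - φ 0 ≤ ρ * s ^ 2)
    (hlow : ∀ k, k + 2 ≤ K → s ^ 2 ≤ (φ (k + 2) - φ (k + 1)) - (φ (k + 1) - φ k))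
    (hup : ∀ k, k + 2 ≤ K → (φ (k + 2) - φ (k + 1)) - (φ (k + 1) - φ k) ≤ ρ * s ^ 2)
    (hhalf : ∀ k < K, φ (k + 1) - φ k ≤ 1 / 2) :
    1 / (320 * ρ ^ 3 * s) - 1 / 2 ≤ ∑ k ∈ range K, Real.sin (2 * π * φ k) := by
  have hpi := Real.pi_pos
  have hs8 : s ≤ 1 / 8 := by nlinarith
  have hK2 : 16 ≤ K := by
    have h : (16 : ℝ) ≤ K := by nlinarith
    exact_mod_cast h
  set d : ℕ → ℝ := fun k => φ (k + 1) - φ k with hd
  have hdl : ∀ j k, j + k + 1 ≤ K → d j + s ^ 2 * k ≤ d (j + k) := by
    intro j k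
    induction k with
    | zero => intro _; simp
    | succ k ih =>
      intro hk
      have h1 := ih (by omega)
      have h2 := hlow (j + k) (by omega)
      have h3 : d (j + (k + 1)) = φ (j + k + 2) - φ (j + k + 1) := rfl
      rw [h3]; push_cast
      simp only [hd] at h1 ⊢
      nlinarith
  have hdu : ∀ k, k + 1 ≤ K → d k ≤ ρ * s ^ 2 * (k + 1) := by
    intro k
    induction k with
    | zero => intro _; simp only [hd]; push_cast; linarith
    | succ k ih =>
      intro hk
      have h1 := ih (by omega)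
      have h2 := hup k (by omega)
      have h3 : d (k + 1) = φ (k + 2) - φ (k + 1) := rfl
      rw [h3]; push_cast
      simp only [hd] at h1
      nlinarith
  have hd00 : 0 < d 0 := hd0
  have hdpos : ∀ k, k + 1 ≤ K → 0 < d k := by
    intro k hk
    have := hdl 0 k (by omega)
    rw [zero_add] at this
    have h2 : 0 ≤ s ^ 2 * (k : ℝ) := by positivity
    linarith
  have hmonoφ : ∀ j k, j + k ≤ K → φ j ≤ φ (j + k) := by
    intro j k
    induction k with
    | zero => intro _; simp
    | succ k ih =>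
      intro hk
      have h1 := ih (by omega)
      have h2 := hdpos (j + k) (by omega)
      have h3 : d (j + k) = φ (j + (k + 1)) - φ (j + k) := rfl
      linarith
  have hφl : ∀ k, k ≤ K → s ^ 2 * ((k : ℝ) * (k - 1) / 2) ≤ φ k := by
    intro k
    induction k with
    | zero => intro _; simp [h0]
    | succ k ih =>
      intro hk
      have h1 := ih (by omega)
      have h2 := hdl 0 k (by omega)
      rw [zero_add] at h2
      have h3 : d k = φ (k + 1) - φ k := rfl
      push_cast
      nlinarith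
  -- φ (K-1) > 3/4
  have hKs : (K : ℝ) - 1 = ((K - 1 : ℕ) : ℝ) := by rw [Nat.cast_sub (by omega)]; simp
  have hbig : 3 / 4 < φ (K - 1) := by
    have h1 := hφl (K - 1) (by omega)
    rw [← hKs] at h1
    have h2 : (15 / 8 : ℝ) ≤ (K - 1) * s := by nlinarith
    have h3 : (7 / 4 : ℝ) ≤ (K - 1 - 1) * s := by nlinarith
    have h4 : (15 / 8 : ℝ) * (7 / 4) ≤ ((K - 1) * s) * ((K - 1 - 1) * s) :=
      mul_le_mul h2 h3 (by norm_num) (by linarith)
    nlinarith
  have hexB : ∃ k, k ≤ K - 1 ∧ 3 / 4 < φ k := ⟨K - 1, le_rfl, hbig⟩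
  have hexA : ∃ k, k ≤ K - 1 ∧ 1 / 4 ≤ φ k := ⟨K - 1, le_rfl, by linarith⟩
  classical
  set B := Nat.find hexB with hB
  set A := Nat.find hexA with hA
  obtain ⟨hB1, hB2⟩ := Nat.find_spec hexB
  obtain ⟨hA1, hA2⟩ := Nat.find_spec hexA
  rw [← hB] at hB1 hB2
  rw [← hA] at hA1 hA2
  have hBmin : ∀ k < B, φ k ≤ 3 / 4 := by
    intro k hk
    have := Nat.find_min hexB hk
    by_contra hcon
    push Not at hcon
    exact this ⟨by omega, hcon⟩
  have hAmin : ∀ k < A, φ k < 1 / 4 := by
    intro k hk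
    have := Nat.find_min hexA hk
    by_contra hcon
    push Not at hcon
    exact this ⟨by omega, hcon⟩
  have hA0 : 1 ≤ A := by
    by_contra hcon
    have : A = 0 := by omega
    rw [this, h0] at hA2; norm_num at hA2
  have hAB : A ≤ B := by
    by_contra hcon
    push Not at hcon
    have := hAmin B hcon
    linarith
  have hB0 : 1 ≤ B := by omega
  obtain ⟨a, ha⟩ : ∃ a, A = a + 1 := ⟨A - 1, by omega⟩
  obtain ⟨b, hb⟩ : ∃ b, B = b + 1 := ⟨B - 1, by omega⟩
  have hab : a ≤ b := by omega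
  obtain ⟨n, hn⟩ : ∃ n, K = n + 1 := ⟨K - 1, by omega⟩
  have hbn : b + 1 ≤ n := by omega
  have hcos : ∀ k, a < k → k ≤ b → Real.cos (2 * π * φ k) ≤ 0 := by
    intro k hk1 hk2
    have h1 : φ k ≤ 3 / 4 := hBmin k (by omega)
    have h2 : 1 / 4 ≤ φ k := by
      have h3 := hmonoφ A (k - A) (by omega)
      rw [show A + (k - A) = k by omega] at h3
      linarith
    apply Real.cos_nonpos_of_pi_div_two_le_of_le
    · nlinarith
    · nlinarith
  have hmain := sum_sin_lower φ n h0
    (fun k hk => hdpos k (by omega))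
    (fun k hk => hhalf k (by omega))
    (fun k hk => by
      have := hlow k (by omega)
      have h2 : 0 < s ^ 2 := by positivity
      linarith)
    a b hab (by omega) hcos
  rw [hn]
  refine le_trans ?_ hmain
  change 1 / (320 * ρ ^ 3 * s) - 1 / 2 ≤ 1 / 2 * (ct (π * d a) - ct (π * d b)) - 1 / 2
  have hda : 0 < d a := hdpos a (by omega)
  have hdb : 0 < d b := hdpos b (by omega)
  -- bound for B
  have hBs : ((b : ℝ) + 1) * s ≤ 2 := by
    by_contra hcon
    push Not at hcon
    have h1 := hφl b (by omega)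
    have h2 := hBmin b (by omega)
    have h3 : (15 / 8 : ℝ) < b * s := by nlinarith
    have h4 : (7 / 4 : ℝ) ≤ (b - 1) * s := by nlinarith
    have h5 : (15 / 8 : ℝ) * (7 / 4) ≤ (b * s) * ((b - 1) * s) :=
      mul_le_mul h3.le h4 (by norm_num) (by linarith)
    nlinarith
  have hdb2 : d b ≤ 2 * ρ * s := by
    have h1 := hdu b (by omega)
    have h2 : ρ * s ^ 2 * (b + 1) = ρ * s * ((b + 1) * s) := by ring
    rw [h2] at h1
    have h3 : ρ * s * ((b + 1) * s) ≤ ρ * s * 2 :=
      mul_le_mul_of_nonneg_left hBs (by positivity)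
    linarith
  have hdb4 : d b ≤ 1 / 4 := by nlinarith
  have hdab : d a + s ^ 2 * ((b : ℝ) - a) ≤ d b := by
    have := hdl a (b - a) (by omega)
    rw [show a + (b - a) = b by omega, Nat.cast_sub hab] at this
    exact this
  have hsub : φ B - φ a ≤ ((b : ℝ) - a + 1) * d b := by
    have h1 : ∀ k, a + k ≤ b → φ (a + k + 1) - φ a ≤ ((k : ℝ) + 1) * d b := by
      intro k
      induction k with
      | zero =>
        intro hk
        have := hdl a (b - a) (by omega)
        rw [show a + (b - a) = b by omega, Nat.cast_sub hab] at this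
        have h2 : d a = φ (a + 0 + 1) - φ a := rfl
        have h3 : 0 ≤ s ^ 2 * ((b : ℝ) - a) := by
          have : (a : ℝ) ≤ b := by exact_mod_cast hab
          apply mul_nonneg (by positivity); linarith
        push_cast
        linarith
      | succ k ih =>
        intro hk
        have h1 := ih (by omega)
        have h4 := hdl (a + (k + 1)) (b - (a + (k + 1))) (by omega)
        rw [show a + (k + 1) + (b - (a + (k + 1))) = b by omega] at h4
        have h2 : d (a + (k + 1)) = φ (a + (k + 1) + 1) - φ (a + k + 1) := rfl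
        have h3 : 0 ≤ s ^ 2 * (((b - (a + (k + 1)) : ℕ)) : ℝ) := by positivity
        push_cast at h1 ⊢
        push_cast at h3 h4
        linarith
    have := h1 (b - a) (by omega)
    rw [show a + (b - a) + 1 = B by omega, Nat.cast_sub hab] at this
    exact this
  have hφa : φ a < 1 / 4 := hAmin a (by omega)
  have hlen : 1 / 2 < ((b : ℝ) - a + 1) * d b := by linarith
  have hlen2 : 1 / 4 ≤ ((b : ℝ) - a) * d b := by nlinarith
  have hdiff : s ^ 2 * (1 / 4) ≤ (d b - d a) * d b := by
    have h1 : s ^ 2 * ((b : ℝ) - a) ≤ d b - d a := by linarith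
    have h2 : s ^ 2 * ((b : ℝ) - a) * d b ≤ (d b - d a) * d b :=
      mul_le_mul_of_nonneg_right h1 hdb.le
    have h3 : s ^ 2 * (1 / 4) ≤ s ^ 2 * (((b : ℝ) - a) * d b) :=
      mul_le_mul_of_nonneg_left hlen2 (by positivity)
    linarith
  have hdale : d a ≤ d b := by
    have : (a : ℝ) ≤ b := by exact_mod_cast hab
    have : 0 ≤ s ^ 2 * ((b : ℝ) - a) := mul_nonneg (by positivity) (by linarith)
    linarith
  have hct := ct_sub_lower (x := π * d a) (y := π * d b) (by positivity)
    (mul_le_mul_of_nonneg_left hdale hpi.le) (by nlinarith)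
  have hq : 1 / (320 * ρ ^ 3 * s) ≤ 1 / 2 * ((2 / π) * ((π * d b - π * d a) / ((π * d a) * (π * d b)))) := by
    have e1 : 1 / 2 * ((2 / π) * ((π * d b - π * d a) / ((π * d a) * (π * d b)))) =
        (d b - d a) / (π ^ 2 * (d a * d b)) := by
      field_simp
    rw [e1]
    have hpi2 : π ^ 2 ≤ 10 := by
      have h1 : π < 3.15 := Real.pi_lt_d2
      nlinarith
    have hdb3 : d b ^ 3 ≤ (2 * ρ * s) ^ 3 := pow_le_pow_left₀ hdb.le hdb2 3
    rw [div_le_div_iff₀ (by positivity) (by positivity), one_mul]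
    have h1 : π ^ 2 * (d a * d b) ≤ 10 * (d b * d b) := by
      apply mul_le_mul hpi2 _ (by positivity) (by norm_num)
      exact mul_le_mul_of_nonneg_right hdale hdb.le
    refine h1.trans ?_
    -- 10 * d b^2 ≤ (d b - d a) * (320 ρ^3 s)
    have h2 : 10 * (d b * d b) * d b ≤ ((d b - d a) * (320 * ρ ^ 3 * s)) * d b := by
      calc 10 * (d b * d b) * d b = 10 * d b ^ 3 := by ring
        _ ≤ 10 * (2 * ρ * s) ^ 3 := by linarith
        _ = (s ^ 2 * (1 / 4)) * (320 * ρ ^ 3 * s) := by ring
        _ ≤ ((d b - d a) * d b) * (320 * ρ ^ 3 * s) :=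
            mul_le_mul_of_nonneg_right hdiff (by positivity)
        _ = _ := by ring
    exact le_of_mul_le_mul_right h2 hdb
  linarith

end Pool.Agent.H76.EP
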