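import Pool.Agent.H76.EPPoly
import Pool.Agent.H76.EPBlocks
import Pool.Agent.H76.EPModel

set_option autoImplicit false

/-! The phase `f` with `f' = M (1 - g_r(2x/N - 1))`. -/

namespace Pool.Agent.H76.EP

open Real Finset

/-- the profile in the variable `t` -/
noncomputable def hh (r : ℕ) (t : ℝ) : ℝ := (1 - gg r t) * t + RR r (gg r t)

lemma gg_hasDerivAt (r : ℕ) {t : ℝ} (ht : 0 < t) :
    HasDerivAt (gg r) (iteratedDeriv 1 (gg r) t) t := by
  have := iter_hasDerivAt (gg_contDiffOn r) 0 ht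
  rwa [iteratedDeriv_zero] at this

lemma gg_pos (r : ℕ) {t : ℝ} (ht : 0 < t) : 0 < gg r t := gi_pos (by positivity) _ ht

lemma Psi_gg (r : ℕ) {t : ℝ} (ht : 0 ≤ t) : Psi ((r : ℝ) + 1) (r + 1) (gg r t) = t :=
  Psi_gi (by positivity) _ ht

lemma gg_Psi (r : ℕ) {v : ℝ} (hv : 0 ≤ v) : gg r (Psi ((r : ℝ) + 1) (r + 1) v) = v :=
  gi_Psi (by positivity) _ hv

lemma hh_hasDerivAt (r : ℕ) {t : ℝ} (ht : 0 < t) : HasDerivAt (hh r) (1 - gg r t) t := by
  have h1 := gg_hasDerivAt r ht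
  have h2 := ((h1.const_sub 1).mul (hasDerivAt_id t)).add ((RR_hasDerivAt r (gg r t)).comp t h1)
  rw [Psi_gg r ht.le] at h2
  have e : 1 - gg r t = -iteratedDeriv 1 (gg r) t * id t + (1 - gg r t) * 1 +
      t * iteratedDeriv 1 (gg r) t := by
    simp only [id]; ring
  rw [e]
  exact h2

lemma RR_contDiff (r : ℕ) : ContDiff ℝ (⊤ : ℕ∞) (RR r) := by
  unfold RR
  exact ContDiff.sum fun i _ => contDiff_const.mul (contDiff_id.pow i)

lemma hh_contDiffOn (r : ℕ) : ContDiffOn ℝ (⊤ : ℕ∞) (hh r) (Set.Ioi 0) := by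
  unfold hh
  exact ((contDiffOn_const.sub (gg_contDiffOn r)).mul contDiffOn_id).add
    ((RR_contDiff r).comp_contDiffOn (gg_contDiffOn r))

/-- the phase -/
noncomputable def ph (r : ℕ) (M N C : ℝ) (x : ℝ) : ℝ := N * M * (C + hh r (2 / N * x - 1) / 2)

section

variable (r : ℕ) (M N C : ℝ)

lemma tpos {N x : ℝ} (hN : 0 < N) (hx : N ≤ x) : 0 < 2 / N * x - 1 := by
  have : 2 / N * x = 2 * (x / N) := by ring
  have h1 : 1 ≤ x / N := by rw [le_div_iff₀ hN]; linarith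
  linarith

lemma t_mem {N x : ℝ} (hN : 0 < N) (hx : x ∈ Set.Icc N (2 * N)) :
    2 / N * x - 1 ∈ Set.Icc (1 : ℝ) 3 := by
  have e : 2 / N * x = 2 * (x / N) := by ring
  have h1 : 1 ≤ x / N := by rw [le_div_iff₀ hN]; linarith [hx.1]
  have h2 : x / N ≤ 2 := by rw [div_le_iff₀ hN]; exact hx.2
  constructor <;> linarith

lemma ph_hasDerivAt {x : ℝ} (hN : 0 < N) (hx : 0 < 2 / N * x - 1) :
    HasDerivAt (ph r M N C) (M * (1 - gg r (2 / N * x - 1))) x := by
  have h1 : HasDerivAt (fun x : ℝ => 2 / N * x - 1) (2 / N) x := by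
    simpa using ((hasDerivAt_id x).const_mul (2 / N)).sub_const 1
  have h2 := ((((hh_hasDerivAt r hx).comp x h1).div_const 2).const_add C).const_mul (N * M)
  have e : M * (1 - gg r (2 / N * x - 1)) = N * M * ((1 - gg r (2 / N * x - 1)) * (2 / N) / 2) := by
    field_simp
  rw [e]
  exact h2

lemma ph_contDiffAt {x : ℝ} (hx : 0 < 2 / N * x - 1) :
    ContDiffAt ℝ (⊤ : ℕ∞) (ph r M N C) x := by
  have h1 : ContDiffAt ℝ (⊤ : ℕ∞) (fun x : ℝ => 2 / N * x - 1) x :=
    (contDiffAt_const.mul contDiffAt_id).sub contDiffAt_const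
  have h2 : ContDiffAt ℝ (⊤ : ℕ∞) (hh r) (2 / N * x - 1) :=
    (hh_contDiffOn r).contDiffAt (Ioi_mem_nhds hx)
  unfold ph
  exact contDiffAt_const.mul (contDiffAt_const.add ((h2.comp x h1).div_const 2))

/-- iterated derivatives of a function composed with an affine map -/
lemma iter_affine (φ : ℝ → ℝ) (a : ℝ) (j : ℕ) :
    iteratedDeriv j (fun x => φ (a * x - 1)) = fun x => a ^ j * iteratedDeriv j φ (a * x - 1) := by
  induction j with
  | zero => funext x; simp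
  | succ j ih =>
    rw [iteratedDeriv_succ, ih]
    funext x
    rw [deriv_const_mul_field]
    have h1 : deriv (fun x => iteratedDeriv j φ (a * x - 1)) x =
        a * deriv (iteratedDeriv j φ) (a * x - 1) := by
      have h2 := deriv_comp_mul_left a (fun y => iteratedDeriv j φ (y - 1)) x
      simp only [smul_eq_mul] at h2
      rw [h2, deriv_comp_sub_const]
    rw [h1, iteratedDeriv_succ, pow_succ]
    ring

lemma ph_iter (j : ℕ) {x : ℝ} (hN : 0 < N) (hx : 0 < 2 / N * x - 1) :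
    iteratedDeriv (j + 1) (ph r M N C) x =
      M * ((2 / N) ^ j * ((if j = 0 then 1 else 0) + (-1) ^ j * psi r j (2 / N * x - 1))) := by
  rw [iteratedDeriv_succ']
  have h1 : deriv (ph r M N C) =ᶠ[nhds x] fun x => M * (1 - gg r (2 / N * x - 1)) := by
    have hopen : {z : ℝ | 0 < 2 / N * z - 1} ∈ nhds x :=
      (isOpen_lt continuous_const
        ((continuous_const.mul continuous_id).sub continuous_const)).mem_nhds hx
    filter_upwards [hopen] with z hz
    exact (ph_hasDerivAt r M N C hN hz).deriv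
  rw [h1.iteratedDeriv_eq j, iteratedDeriv_const_mul_field]
  congr 1
  have h2 := congrFun (iter_affine (fun t => 1 - gg r t) (2 / N) j) x
  rw [h2]
  congr 1
  rcases Nat.eq_zero_or_pos j with hj | hj
  · subst hj
    simp [psi]
    ring
  · rw [iteratedDeriv_const_sub hj, iteratedDeriv_neg, if_neg (by omega)]
    unfold psi
    rw [zero_add, ← mul_assoc, ← pow_add, show j + (j + 1) = 2 * j + 1 by ring, pow_succ, pow_mul]
    simp

end

/-- location of the stationary points: for `v ≥ 0` the derivative at `N (1 + Psi v) / 2` is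
`M (1 - v)` -/
noncomputable def loc (r : ℕ) (N v : ℝ) : ℝ := N * (1 + Psi ((r : ℝ) + 1) (r + 1) v) / 2

lemma loc_t (r : ℕ) {N : ℝ} (hN : 0 < N) (v : ℝ) :
    2 / N * loc r N v - 1 = Psi ((r : ℝ) + 1) (r + 1) v := by
  unfold loc; field_simp; ring

lemma loc_mono (r : ℕ) {N : ℝ} (hN : 0 < N) {v w : ℝ} (hv : 0 ≤ v) (hvw : v ≤ w) :
    loc r N v ≤ loc r N w := by
  unfold loc
  have := Psi_mono (r := (r : ℝ) + 1) (by positivity) (r + 1) hv hvw
  have h2 := mul_le_mul_of_nonneg_left this hN.le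
  linarith

lemma le_loc (r : ℕ) {N : ℝ} (hN : 0 < N) {v : ℝ} (hv : gg r 1 ≤ v) : N ≤ loc r N v := by
  have h0 : 0 ≤ gg r 1 := (gg_pos r one_pos).le
  have h1 := Psi_mono (r := (r : ℝ) + 1) (by positivity) (r + 1) h0 hv
  rw [Psi_gg r zero_le_one] at h1
  unfold loc
  have h2 := mul_le_mul_of_nonneg_left h1 hN.le
  linarith

lemma loc_le (r : ℕ) {N : ℝ} (hN : 0 < N) {v : ℝ} (hv0 : 0 ≤ v) (hv : v ≤ gg r 3) :
    loc r N v ≤ 2 * N := by
  have h1 := Psi_mono (r := (r : ℝ) + 1) (by positivity) (r + 1) hv0 hv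
  rw [Psi_gg r (by norm_num)] at h1
  unfold loc
  have h2 := mul_le_mul_of_nonneg_left h1 hN.le
  linarith

lemma gg_mono (r : ℕ) {s t : ℝ} (hs : 0 < s) (hst : s ≤ t) : gg r s ≤ gg r t := by
  have := psi_anti r 0 hs hst
  simp only [psi, iteratedDeriv_zero, zero_add, pow_one] at this
  linarith

lemma gg_lt (r : ℕ) {s t : ℝ} (hs : 0 < s) (hst : s < t) : gg r s < gg r t := by
  rcases (gg_mono r hs hst.le).lt_or_eq with h | h
  · exact h
  · have h1 := Psi_gg r hs.le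
    have h2 := Psi_gg r (show 0 ≤ t by linarith)
    rw [h] at h1
    linarith

/-- two-sided bound for increments of `gg` on `[1, 3]` -/
lemma gg_increment (r : ℕ) {s t : ℝ} (hs : 1 ≤ s) (hst : s ≤ t) (ht : t ≤ 3) :
    psi r 1 3 * (t - s) ≤ gg r t - gg r s ∧ gg r t - gg r s ≤ psi r 1 1 * (t - s) := by
  rcases hst.eq_or_lt with h | h
  · rw [h]; simp
  · obtain ⟨ξ, hξ, he⟩ := exists_hasDerivAt_eq_slope (gg r) (iteratedDeriv 1 (gg r)) h
      (fun x hx => (gg_hasDerivAt r (by linarith [hx.1])).continuousAt.continuousWithinAt)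
      (fun x hx => gg_hasDerivAt r (by linarith [hx.1]))
    have h2 : 0 < t - s := by linarith
    have h3 : gg r t - gg r s = psi r 1 ξ * (t - s) := by
      have : psi r 1 ξ = iteratedDeriv 1 (gg r) ξ := by simp [psi]
      rw [this, he]; field_simp
    rw [h3]
    have h4 := psi_anti r 1 (s := ξ) (t := 3) (by linarith [hξ.1]) (by linarith [hξ.2])
    have h5 := psi_anti r 1 (s := 1) (t := ξ) one_pos (by linarith [hξ.1])
    exact ⟨mul_le_mul_of_nonneg_right h4 h2.le, mul_le_mul_of_nonneg_right h5 h2.le⟩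

theorem stage2 (r Q M k0 L C : ℕ) (hQ0 : 0 < Q)
    (hQ : ∀ M : ℕ, 0 < M → ∀ k : ℤ,
      (∃ z : ℤ, (Q : ℝ) * (M : ℝ) ^ DD r * Psi ((r : ℝ) + 1) (r + 1) ((k : ℝ) / M) = z) ∧
      (∃ z : ℤ, (Q : ℝ) * (M : ℝ) ^ (DD r + 1) * RR r ((k : ℝ) / M) = z))
    (hM : 0 < M) (N s ρ : ℝ) (hN : N = 2 * Q * (M : ℝ) ^ DD r) (hs : 0 < s)
    (hs2 : s ^ 2 = 2 * M * psi r 1 3 / N) (hρ : ρ = psi r 1 1 / psi r 1 3)
    (hs1 : 960 * ρ ^ 3 * s ≤ 1)
    (hk0 : gg r 1 * M + 1 / 2 ≤ k0) (hL : (k0 : ℝ) + L - 1 / 2 ≤ gg r 3 * M) :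
    ∃ u v : ℝ, N ≤ u ∧ u ≤ v ∧ v ≤ 2 * N ∧
      L * (1 / (320 * ρ ^ 3 * s)) ≤
        ‖∑ k ∈ Finset.Icc ⌈N⌉₊ ⌊v⌋₊, ex (ph r M N C (k : ℝ))‖ +
        ‖∑ k ∈ Finset.Icc ⌈N⌉₊ ⌊u⌋₊, ex (ph r M N C (k : ℝ))‖ := by
  have hMR : (0 : ℝ) < M := by exact_mod_cast hM
  have hQR : (0 : ℝ) < Q := by exact_mod_cast hQ0
  have hN0 : 0 < N := by rw [hN]; positivity
  have hp3 : 0 < psi r 1 3 := psi_pos r 0 (by norm_num)
  have hp1 : psi r 1 3 ≤ psi r 1 1 := psi_anti r 1 one_pos (by norm_num)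
  have hρ1 : 1 ≤ ρ := by rw [hρ, le_div_iff₀ hp3]; linarith
  have hg1 : 0 < gg r 1 := gg_pos r one_pos
  have hk00 : (1 : ℝ) / 2 ≤ k0 := by
    have : 0 < gg r 1 * M := by positivity
    linarith
  set y : ℕ → ℝ := fun i => loc r N (((k0 : ℝ) + i - 1 / 2) / M) with hy
  set X : ℕ → ℝ := fun i => loc r N (((k0 : ℝ) + i) / M) with hX
  have hv0 : ∀ i : ℕ, 0 ≤ ((k0 : ℝ) + i - 1 / 2) / M := fun i => by
    have : (0 : ℝ) ≤ i := by positivity
    exact div_nonneg (by linarith) hMR.le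
  -- the stationary points are natural numbers
  have hXnat : ∀ i : ℕ, ∃ n : ℕ, X i = n := by
    intro i
    obtain ⟨z, hz⟩ := (hQ M hM (k0 + i)).1
    have e : X i = ((Q * M ^ DD r + z : ℤ) : ℝ) := by
      simp only [hX, loc]
      push_cast at hz ⊢
      rw [← hz, hN]; ring
    have hpos : 0 ≤ X i := by
      simp only [hX, loc]
      have := Psi_nonneg (r := (r : ℝ) + 1) (by positivity) (r + 1)
        (show 0 ≤ ((k0 : ℝ) + i) / M by positivity)
      positivity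
    rw [e] at hpos
    have hz0 : 0 ≤ (Q * M ^ DD r + z : ℤ) := by exact_mod_cast hpos
    obtain ⟨n, hn⟩ := Int.eq_ofNat_of_zero_le hz0
    refine ⟨n, ?_⟩
    rw [e, hn]; simp
  choose n hn using hXnat
  have hval : ∀ i : ℕ, ∃ m : ℤ, ph r M N C (n i) = m := by
    intro i
    obtain ⟨z, hz⟩ := (hQ M hM (k0 + i)).1
    obtain ⟨z', hz'⟩ := (hQ M hM (k0 + i)).2
    rw [← hn i]
    have e1 : ph r M N C (X i) = ((2 * Q * M ^ DD r * M * C + (M - (k0 + i)) * z + z' : ℤ) : ℝ) := by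
      simp only [hX, ph]
      rw [loc_t r hN0]
      unfold hh
      rw [gg_Psi r (by positivity)]
      push_cast at hz hz' ⊢
      rw [← hz, ← hz', hN, pow_succ]
      field_simp
      ring
    exact ⟨_, e1⟩
  choose m hm using hval
  have hyN : ∀ i ≤ L, N ≤ y i ∧ y i ≤ 2 * N := by
    intro i hi
    have hiL : (i : ℝ) ≤ L := by exact_mod_cast hi
    have hi0 : (0 : ℝ) ≤ i := by positivity
    constructor
    · apply le_loc r hN0
      rw [le_div_iff₀ hMR]; linarith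
    · apply loc_le r hN0 (hv0 i)
      rw [div_le_iff₀ hMR]; linarith
  have hyn : ∀ i < L, y i ≤ n i ∧ (n i : ℝ) ≤ y (i + 1) := by
    intro i _
    rw [← hn i]
    constructor
    · apply loc_mono r hN0 (hv0 i)
      apply div_le_div_of_nonneg_right _ hMR.le
      linarith
    · apply loc_mono r hN0 (by positivity)
      apply div_le_div_of_nonneg_right _ hMR.le
      push_cast; linarith
  have hgn : ∀ i < L, (fun x => (M : ℝ) * (1 - gg r (2 / N * x - 1))) (n i) =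
      (((M : ℤ) - k0 : ℤ) : ℝ) - i := by
    intro i _
    simp only
    rw [← hn i]
    simp only [hX]
    rw [loc_t r hN0, gg_Psi r (by positivity)]
    push_cast
    field_simp
    ring
  have hgy : ∀ i ≤ L, (fun x => (M : ℝ) * (1 - gg r (2 / N * x - 1))) (y i) =
      (((M : ℤ) - k0 : ℤ) : ℝ) - i + 1 / 2 := by
    intro i _
    simp only [hy]
    rw [loc_t r hN0, gg_Psi r (hv0 i)]
    push_cast
    field_simp
    ring
  have hder : ∀ x ∈ Set.Icc N (2 * N),
      HasDerivAt (ph r M N C) ((fun x => (M : ℝ) * (1 - gg r (2 / N * x - 1))) x) x := by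
    intro x hx
    exact ph_hasDerivAt r M N C hN0 (tpos hN0 hx.1)
  have hslopes : ∀ x z, N ≤ x → x ≤ z → z ≤ 2 * N →
      s ^ 2 * (z - x) ≤ (M : ℝ) * (1 - gg r (2 / N * x - 1)) - M * (1 - gg r (2 / N * z - 1)) ∧
      (M : ℝ) * (1 - gg r (2 / N * x - 1)) - M * (1 - gg r (2 / N * z - 1)) ≤
        ρ * s ^ 2 * (z - x) := by
    intro x z hx hxz hz
    have h1 := t_mem hN0 (x := x) ⟨hx, by linarith⟩
    have h2 := t_mem hN0 (x := z) ⟨by linarith, hz⟩
    have h3 : 2 / N * x - 1 ≤ 2 / N * z - 1 := by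
      have : 2 / N * x ≤ 2 / N * z := mul_le_mul_of_nonneg_left hxz (by positivity)
      linarith
    have h4 := gg_increment r h1.1 h3 h2.2
    have e1 : (M : ℝ) * (1 - gg r (2 / N * x - 1)) - M * (1 - gg r (2 / N * z - 1)) =
        M * (gg r (2 / N * z - 1) - gg r (2 / N * x - 1)) := by ring
    have e2 : s ^ 2 * (z - x) = M * (psi r 1 3 * (2 / N * z - 1 - (2 / N * x - 1))) := by
      rw [hs2]; ring
    have e3 : ρ * s ^ 2 * (z - x) = M * (psi r 1 1 * (2 / N * z - 1 - (2 / N * x - 1))) := by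
      rw [hs2, hρ]; field_simp; ring
    rw [e1, e2, e3]
    exact ⟨mul_le_mul_of_nonneg_left h4.1 hMR.le, mul_le_mul_of_nonneg_left h4.2 hMR.le⟩
  have h8 : 8 * ρ * s ≤ 1 := by
    have h1 : ρ ≤ ρ ^ 3 := le_self_pow₀ hρ1 (by norm_num)
    have h2 : 8 * ρ * s ≤ 960 * ρ ^ 3 * s := by
      apply mul_le_mul_of_nonneg_right _ hs.le; linarith
    linarith
  have hmain := main_lower (ph r M N C) (fun x => (M : ℝ) * (1 - gg r (2 / N * x - 1))) N s ρ y n
    ((M : ℤ) - k0) m L hs hρ1 h8 hN0.le (hyN 0 (by omega)).1 (hyN L le_rfl).2 hder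
    (fun x z hx hxz hz => (hslopes x z hx hxz hz).1)
    (fun x z hx hxz hz => (hslopes x z hx hxz hz).2)
    hyn hgn (fun i _ => hm i) hgy
  refine ⟨y 0, y L, (hyN 0 (by omega)).1, ?_, (hyN L le_rfl).2, ?_⟩
  · apply loc_mono r hN0 (hv0 0)
    apply div_le_div_of_nonneg_right _ hMR.le
    have : (0 : ℝ) ≤ L := by positivity
    push_cast; linarith
  · refine le_trans ?_ hmain
    apply mul_le_mul_of_nonneg_left _ (by positivity)
    have e : 1 / (160 * ρ ^ 3 * s) = 2 * (1 / (320 * ρ ^ 3 * s)) := by field_simp; norm_num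
    have h3 : 3 ≤ 1 / (320 * ρ ^ 3 * s) := by
      rw [le_div_iff₀ (by positivity)]; linarith
    rw [e]; linarith

end Pool.Agent.H76.EP
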