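import Pool.Agent.H76.EPConv

set_option autoImplicit false

/-! The polynomial inverse, its antiderivative and integrality. -/

namespace Pool.Agent.H76.EP

open Real Finset

/-- the rational polynomial behind `Psi (r+1) k` -/
noncomputable def PP (r : ℕ) : ℕ → Polynomial ℚ
  | 0 => Polynomial.X
  | k + 1 => (PP r k).comp (Polynomial.X + Polynomial.C (1 / ((r : ℚ) + 1)) * Polynomial.X ^ 2)

lemma aeval_PP (r k : ℕ) : ∀ v : ℝ, Polynomial.aeval v (PP r k) = Psi ((r : ℝ) + 1) k v := by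
  induction k with
  | zero => intro v; simp [PP, Psi]
  | succ k ih =>
    intro v
    rw [PP, Polynomial.aeval_comp, ih]
    show Psi ((r : ℝ) + 1) k _ = Psi ((r : ℝ) + 1) k (v + v ^ 2 / ((r : ℝ) + 1))
    congr 1
    simp
    ring

lemma natDegree_PP (r k : ℕ) : (PP r k).natDegree ≤ 2 ^ k := by
  induction k with
  | zero => simp [PP]
  | succ k ih =>
    rw [PP, Polynomial.natDegree_comp, pow_succ]
    apply Nat.mul_le_mul ih
    compute_degree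

/-- coefficients of the polynomial -/
noncomputable def aa (r i : ℕ) : ℚ := (PP r (r + 1)).coeff i

/-- the degree -/
def DD (r : ℕ) : ℕ := 2 ^ (r + 1)

lemma Psi_eq_sum (r : ℕ) (v : ℝ) :
    Psi ((r : ℝ) + 1) (r + 1) v = ∑ i ∈ range (DD r + 1), (aa r i : ℝ) * v ^ i := by
  rw [← aeval_PP, Polynomial.aeval_eq_sum_range' (Nat.lt_succ_of_le (natDegree_PP r (r + 1)))]
  apply Finset.sum_congr rfl
  intro i _
  rw [Algebra.smul_def]
  rfl

/-- coefficients of the antiderivative -/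
noncomputable def bb (r : ℕ) : ℕ → ℚ
  | 0 => 0
  | i + 1 => aa r i / (i + 1)

/-- the antiderivative -/
noncomputable def RR (r : ℕ) (v : ℝ) : ℝ := ∑ i ∈ range (DD r + 1 + 1), (bb r i : ℝ) * v ^ i

lemma RR_hasDerivAt (r : ℕ) (v : ℝ) : HasDerivAt (RR r) (Psi ((r : ℝ) + 1) (r + 1) v) v := by
  have h1 : HasDerivAt (fun v : ℝ => ∑ i ∈ range (DD r + 1 + 1), (bb r i : ℝ) * v ^ i)
      (∑ i ∈ range (DD r + 1 + 1), (bb r i : ℝ) * (i * v ^ (i - 1))) v := by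
    apply HasDerivAt.fun_sum
    intro i _
    exact (hasDerivAt_pow i v).const_mul _
  have e : ∑ i ∈ range (DD r + 1 + 1), (bb r i : ℝ) * (i * v ^ (i - 1)) =
      Psi ((r : ℝ) + 1) (r + 1) v := by
    rw [Finset.sum_range_succ', Psi_eq_sum]
    simp only [Nat.cast_zero, zero_mul, mul_zero, add_zero]
    apply Finset.sum_congr rfl
    intro i _
    simp only [bb, Nat.add_sub_cancel]
    push_cast
    have : (i : ℝ) + 1 ≠ 0 := by positivity
    field_simp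
  rw [← e]
  exact h1

lemma int_sum (a : ℕ → ℚ) (n : ℕ) : ∃ Q : ℕ, 0 < Q ∧ ∀ q : ℕ, Q ∣ q → ∀ M : ℕ, 0 < M → ∀ k : ℤ,
    ∃ z : ℤ, (q : ℝ) * (M : ℝ) ^ n * ∑ i ∈ range (n + 1), (a i : ℝ) * ((k : ℝ) / M) ^ i = z := by
  refine ⟨∏ i ∈ range (n + 1), (a i).den, Finset.prod_pos fun i _ => (a i).den_pos, ?_⟩
  intro q hq M hM k
  have hM0 : (M : ℝ) ≠ 0 := by positivity
  have hterm : ∀ i ∈ range (n + 1), ∃ z : ℤ,
      (q : ℝ) * (M : ℝ) ^ n * ((a i : ℝ) * ((k : ℝ) / M) ^ i) = z := by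
    intro i hi
    have hdvd : (a i).den ∣ q := (Finset.dvd_prod_of_mem (fun i => (a i).den) hi).trans hq
    obtain ⟨d, hd⟩ := hdvd
    have hi' : i ≤ n := by simpa [Nat.lt_succ_iff] using hi
    refine ⟨d * (a i).num * M ^ (n - i) * k ^ i, ?_⟩
    have h1 : (a i : ℝ) = ((a i).num : ℝ) / ((a i).den : ℝ) := by
      exact_mod_cast (Rat.num_div_den (a i)).symm
    have h2 : ((a i).den : ℝ) ≠ 0 := by exact_mod_cast (a i).den_nz
    have h3 : (M : ℝ) ^ n = (M : ℝ) ^ (n - i) * (M : ℝ) ^ i := by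
      rw [← pow_add]; congr 1; omega
    rw [h1, hd, h3, div_pow]
    push_cast
    field_simp
  choose! z hz using hterm
  refine ⟨∑ i ∈ range (n + 1), z i, ?_⟩
  rw [Finset.mul_sum]
  push_cast
  exact Finset.sum_congr rfl hz

/-- a common denominator -/
lemma exists_Q (r : ℕ) : ∃ Q : ℕ, 0 < Q ∧ ∀ M : ℕ, 0 < M → ∀ k : ℤ,
    (∃ z : ℤ, (Q : ℝ) * (M : ℝ) ^ DD r * Psi ((r : ℝ) + 1) (r + 1) ((k : ℝ) / M) = z) ∧
    (∃ z : ℤ, (Q : ℝ) * (M : ℝ) ^ (DD r + 1) * RR r ((k : ℝ) / M) = z) := by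
  obtain ⟨Q1, h1, h1'⟩ := int_sum (aa r) (DD r)
  obtain ⟨Q2, h2, h2'⟩ := int_sum (bb r) (DD r + 1)
  refine ⟨Q1 * Q2, Nat.mul_pos h1 h2, fun M hM k => ⟨?_, ?_⟩⟩
  · rw [Psi_eq_sum]
    exact h1' (Q1 * Q2) (Dvd.intro _ rfl) M hM k
  · exact h2' (Q1 * Q2) (Dvd.intro_left _ rfl) M hM k

end Pool.Agent.H76.EP
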