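import Pool.Agent.H76.EPBlocks
import Pool.Agent.H76.EPBump
import Pool.Agent.H76.EPModel

set_option autoImplicit false

namespace Pool.Agent.H76.EP

open Real Finset

lemma contDiffOn_pert (σ y w : ℝ) (n θ μ : ℕ → ℝ) (L : ℕ) :
    ContDiffOn ℝ (⊤ : ℕ∞) (pert (f0 σ y) w n θ μ L) (Set.Ioi 0) := by
  intro x hx
  exact (pert_contDiffAt (f0_contDiffAt σ y hx) w n θ μ L).contDiffWithinAt

theorem stage1 (σ M N s ρ : ℝ) (ν0 L : ℕ) (hσ : 0 < σ) (hM : 0 < M) (hN : 0 < N)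
    (hρ : ρ = 8 * 2 ^ σ) (hs : 0 < s) (hs2 : s ^ 2 = σ * (M / N) / 4)
    (hs1 : 960 * ρ ^ 3 * s ≤ 1) (hs3 : 16 * BB 2 * ρ ^ 2 * s ^ 2 ≤ 1)
    (hν : (ν0 : ℝ) + 1 / 2 ≤ 2 ^ σ * M) (hL : M ≤ (ν0 : ℝ) - L) :
    ∃ f : ℝ → ℝ, ∃ u v : ℝ, N ≤ u ∧ u ≤ v ∧ v ≤ 2 * N ∧
      ContDiffOn ℝ (⊤ : ℕ∞) f (Set.Icc N (2 * N)) ∧
      (∀ j : ℕ, ∀ x ∈ Set.Icc N (2 * N),
        |iteratedDerivWithin (j + 1) f (Set.Icc N (2 * N)) x -
          (-1) ^ j * rf σ j * (M * (2 * N) ^ σ) * x ^ (-σ - j)| ≤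
          (8 * (σ * 2 ^ σ * (M / N))) ^ (j + 1) * BB (j + 1)) ∧
      L * (1 / (320 * ρ ^ 3 * s)) ≤
        ‖∑ k ∈ Finset.Icc ⌈N⌉₊ ⌊v⌋₊, ex (f (k : ℝ))‖ +
        ‖∑ k ∈ Finset.Icc ⌈N⌉₊ ⌊u⌋₊, ex (f (k : ℝ))‖ := by
  set yy : ℝ := M * (2 * N) ^ σ with hyy
  set κ : ℝ := σ * 2 ^ σ * (M / N) with hκ
  have h2σ : 1 ≤ (2 : ℝ) ^ σ := Real.one_le_rpow (by norm_num) hσ.le
  have hρ8 : 8 ≤ ρ := by rw [hρ]; linarith
  have hκρ : κ = ρ * s ^ 2 / 2 := by rw [hρ, hs2, hκ]; ring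
  have hκ0 : 0 < κ := by rw [hκ]; positivity
  have hs1' : s ≤ 1 / 960 := by
    have h1 : (1 : ℝ) ≤ ρ ^ 3 := one_le_pow₀ (by linarith)
    have h2 : 960 * 1 * s ≤ 960 * ρ ^ 3 * s := by
      apply mul_le_mul_of_nonneg_right _ hs.le; linarith
    linarith
  have hρs : ρ * s ≤ 1 / 960 := by
    have h1 : ρ ≤ ρ ^ 3 := le_self_pow₀ (by linarith) (by norm_num)
    have h2 : 960 * ρ * s ≤ 960 * ρ ^ 3 * s := by
      apply mul_le_mul_of_nonneg_right _ hs.le; linarith
    linarith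
  have hκ8 : κ ≤ 1 / 8 := by
    rw [hκρ]
    have : ρ * s ^ 2 = (ρ * s) * s := by ring
    rw [this]
    have h3 : (ρ * s) * s ≤ (1 / 960) * (1 / 960) := mul_le_mul hρs hs1' hs.le (by norm_num)
    linarith
  set w : ℝ := 1 / (8 * κ) with hw
  have hw0 : 0 < w := by rw [hw]; positivity
  have hw1 : 1 ≤ w := by rw [hw, le_div_iff₀ (by positivity)]; linarith
  have hwκ : w * κ = 1 / 8 := by rw [hw]; field_simp
  have hwinv : w⁻¹ = 8 * κ := by rw [hw, one_div, inv_inv]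
  -- the nodes
  set ν : ℕ → ℝ := fun i => (ν0 : ℝ) - i with hνdef
  set X : ℕ → ℝ := fun i => xx σ M N (ν i) with hX
  set y : ℕ → ℝ := fun i => xx σ M N (ν i + 1 / 2) with hy
  set n : ℕ → ℕ := fun i => ⌊X i⌋₊ with hn
  have hνM : ∀ i ≤ L, M ≤ ν i := by
    intro i hi
    have : (i : ℝ) ≤ L := by exact_mod_cast hi
    simp only [hνdef]; linarith
  have hνM' : ∀ i < L, M + 1 ≤ ν i := by
    intro i hi
    have : (i : ℝ) + 1 ≤ L := by exact_mod_cast hi
    simp only [hνdef]; linarith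
  have hνup : ∀ i, ν i + 1 / 2 ≤ 2 ^ σ * M := by
    intro i
    have : (0 : ℝ) ≤ i := by positivity
    simp only [hνdef]; linarith
  have hg0der : ∀ x ∈ Set.Icc N (2 * N), HasDerivAt (g0 σ yy) (-(σ * yy * x ^ (-σ - 1))) x := by
    intro x hx
    have hx0 : 0 < x := lt_of_lt_of_le hN hx.1
    have h2 : HasDerivAt (fun x : ℝ => yy * x ^ (-σ)) (yy * ((-σ) * x ^ (-σ - 1))) x :=
      (Real.hasDerivAt_rpow_const (Or.inl hx0.ne')).const_mul _
    have e : -(σ * yy * x ^ (-σ - 1)) = yy * ((-σ) * x ^ (-σ - 1)) := by ring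
    rw [e]
    exact h2
  have hg0mvt : ∀ x z, N ≤ x → x ≤ z → z ≤ 2 * N →
      2 * s ^ 2 * (z - x) ≤ g0 σ yy x - g0 σ yy z ∧ g0 σ yy x - g0 σ yy z ≤ κ * (z - x) := by
    intro x z hx hxz hz
    apply mvt_two hg0der _ _ hx hxz hz
    · intro t ht
      rw [neg_neg]
      have := (second_bounds hσ hM hN ht.1 ht.2).1
      have e : 2 * s ^ 2 = σ * M / (2 * N) := by rw [hs2]; field_simp; ring
      rw [e]; exact this
    · intro t ht
      rw [neg_neg]
      exact (second_bounds hσ hM hN ht.1 ht.2).2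
  have hLip : ∀ t u, M ≤ t → t ≤ u → u ≤ 2 ^ σ * M →
      u - t ≤ κ * (xx σ M N t - xx σ M N u) := by
    intro t u ht htu hu
    have ht0 : 0 < t := by linarith
    have hu0 : 0 < u := by linarith
    have := (hg0mvt (xx σ M N u) (xx σ M N t) (le_xx hσ hM hN hu0 hu) (xx_anti hσ hM hN ht0 htu)
      (xx_le hσ hM hN ht)).2
    rw [g0_xx hσ hM hN ht0, g0_xx hσ hM hN hu0] at this
    exact this
  have hLipw : ∀ t u, M ≤ t → t ≤ u → u ≤ 2 ^ σ * M →
      8 * w * (u - t) ≤ xx σ M N t - xx σ M N u := by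
    intro t u ht htu hu
    have h1 := hLip t u ht htu hu
    have h2 : w * (u - t) ≤ w * (κ * (xx σ M N t - xx σ M N u)) :=
      mul_le_mul_of_nonneg_left h1 hw0.le
    have h3 : w * (κ * (xx σ M N t - xx σ M N u)) = (1 / 8) * (xx σ M N t - xx σ M N u) := by
      rw [← mul_assoc, hwκ]
    linarith
  have hXN : ∀ i ≤ L, N ≤ X i ∧ X i ≤ 2 * N := by
    intro i hi
    have h1 := hνM i hi
    exact ⟨le_xx hσ hM hN (by linarith) (by have := hνup i; linarith), xx_le hσ hM hN h1⟩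
  have hyN : ∀ i ≤ L, N ≤ y i ∧ y i ≤ 2 * N := by
    intro i hi
    have h1 := hνM i hi
    exact ⟨le_xx hσ hM hN (by linarith) (hνup i), xx_le hσ hM hN (by linarith)⟩
  have hnX : ∀ i ≤ L, (n i : ℝ) ≤ X i ∧ X i < n i + 1 := by
    intro i hi
    exact ⟨Nat.floor_le (by linarith [(hXN i hi).1]), Nat.lt_floor_add_one _⟩
  have ha : ∀ i ≤ L, 4 * w ≤ X i - y i := by
    intro i hi
    have := hLipw (ν i) (ν i + 1 / 2) (hνM i hi) (by linarith) (hνup i)
    simp only [hX, hy]; linarith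
  have hb : ∀ i < L, 4 * w ≤ y (i + 1) - X i := by
    intro i hi
    have h1 := hLipw (ν i - 1 / 2) (ν i) (by have := hνM' i hi; linarith) (by linarith)
      (by have := hνup i; linarith)
    have e : ν (i + 1) + 1 / 2 = ν i - 1 / 2 := by simp only [hνdef]; push_cast; ring
    simp only [hX, hy, e]; linarith
  have hXmono : ∀ i k, i ≤ k → k ≤ L → X i ≤ X k := by
    intro i k hik hk
    apply xx_anti hσ hM hN (by have := hνM k hk; linarith)
    have : (i : ℝ) ≤ k := by exact_mod_cast hik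
    simp only [hνdef]; linarith
  have hsepX : ∀ i k, i < k → k ≤ L → 8 * w ≤ X k - X i := by
    intro i k hik hk
    have hik' : (i : ℝ) + 1 ≤ k := by exact_mod_cast hik
    have h1 := hLipw (ν k) (ν i) (hνM k hk) (by simp only [hνdef]; linarith)
      (by have := hνup i; linarith)
    have h2 : 8 * w * 1 ≤ 8 * w * (ν i - ν k) := by
      apply mul_le_mul_of_nonneg_left _ (by positivity)
      simp only [hνdef]; linarith
    simp only [hX]; linarith
  have hsep : ∀ i < L, ∀ k < L, i ≠ k → 4 * w < |(n i : ℝ) - n k| := by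
    have key : ∀ i k, i < k → k < L → 4 * w < (n k : ℝ) - n i := by
      intro i k hik hk
      have h1 := hsepX i k hik hk.le
      have h2 := hnX i (by omega)
      have h3 := hnX k hk.le
      linarith
    intro i hi k hk hne
    rcases lt_or_gt_of_ne hne with h | h
    · have := key i k h hk
      rw [abs_sub_comm]
      exact lt_of_lt_of_le this (le_abs_self _)
    · have := key k i h hi
      exact lt_of_lt_of_le this (le_abs_self _)
  have hfar : ∀ i ≤ L, ∀ k < L, 2 * w < |y i - n k| := by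
    intro i hi k hk
    rcases le_or_gt i k with h | h
    · have h1 := ha i hi
      have h2 := hXmono i k h hk.le
      have h3 := hnX k hk.le
      rw [abs_sub_comm]
      refine lt_of_lt_of_le ?_ (le_abs_self _)
      linarith
    · have h1 := hb k hk
      have h3 := hnX k hk.le
      have h4 : y (k + 1) ≤ y i := by
        apply xx_anti hσ hM hN (by have := hνM i hi; linarith)
        have : (k : ℝ) + 1 ≤ i := by exact_mod_cast h
        simp only [hνdef]; push_cast; linarith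
      refine lt_of_lt_of_le ?_ (le_abs_self _)
      linarith
  -- the perturbation
  set θ : ℕ → ℝ := fun i => (round (f0 σ yy (n i)) : ℝ) - f0 σ yy (n i) with hθ
  set μ : ℕ → ℝ := fun i => w * (ν i - g0 σ yy (n i)) with hμ
  have hθ' : ∀ i < L, |θ i| ≤ 1 / 2 := by
    intro i _
    have := abs_sub_round (f0 σ yy (n i))
    rw [abs_sub_comm] at this
    exact this
  have hnN : ∀ i < L, N ≤ n i ∧ (n i : ℝ) ≤ 2 * N := by
    intro i hi
    have h1 := ha i hi.le
    have h2 := hnX i hi.le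
    have h3 := hyN i hi.le
    have h4 := hXN i hi.le
    exact ⟨by linarith, by linarith⟩
  have hμ' : ∀ i < L, |μ i| ≤ 1 / 2 := by
    intro i hi
    have h2 := hnX i hi.le
    have h4 := hXN i hi.le
    have h5 := hg0mvt (n i) (X i) (hnN i hi).1 h2.1 h4.2
    have h6 : g0 σ yy (X i) = ν i := g0_xx hσ hM hN (by have := hνM i hi.le; linarith)
    rw [h6] at h5
    have h7 : κ * (X i - n i) ≤ κ * 1 := mul_le_mul_of_nonneg_left (by linarith) hκ0.le
    have h8 : 0 ≤ 2 * s ^ 2 * (X i - n i) := mul_nonneg (by positivity) (by linarith)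
    have h9 : |ν i - g0 σ yy (n i)| ≤ κ := by
      rw [abs_le]; constructor <;> linarith
    simp only [hμ]
    rw [abs_mul, abs_of_pos hw0]
    have := mul_le_mul_of_nonneg_left h9 hw0.le
    linarith
  set f : ℝ → ℝ := pert (f0 σ yy) w (fun i => (n i : ℝ)) θ μ L with hf
  have hiter : ∀ j : ℕ, ∀ x, 0 < x → iteratedDeriv j f x =
      iteratedDeriv j (f0 σ yy) x + D w (fun i => (n i : ℝ)) θ μ L j x := by
    intro j x hx
    exact pert_iter (f0_contDiffAt σ yy hx) w _ θ μ L j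
  have hDb : ∀ j x, |D w (fun i => (n i : ℝ)) θ μ L j x| ≤ (8 * κ) ^ j * BB j := by
    intro j x
    have := D_bound hw0 (fun i => (n i : ℝ)) θ μ L j x hθ' hμ' hsep
    rwa [hwinv] at this
  have hfder : ∀ x, 0 < x → HasDerivAt f (iteratedDeriv 1 f x) x := by
    intro x hx
    rw [iteratedDeriv_one]
    exact ((pert_contDiffAt (f0_contDiffAt σ yy hx) w _ θ μ L).differentiableAt
      (by simp)).hasDerivAt
  have hgder : ∀ x, 0 < x → HasDerivAt (iteratedDeriv 1 f) (iteratedDeriv 2 f x) x := by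
    intro x hx
    have h1 : ContDiffOn ℝ (⊤ : ℕ∞) (deriv f) (Set.Ioi 0) :=
      ((contDiffOn_infty_iff_deriv_of_isOpen isOpen_Ioi).1 (contDiffOn_pert σ yy w _ θ μ L)).2
    have h2 : DifferentiableAt ℝ (deriv f) x :=
      (h1.differentiableOn (by simp)).differentiableAt (Ioi_mem_nhds hx)
    have e1 : iteratedDeriv 2 f x = deriv (deriv f) x := by
      rw [iteratedDeriv_succ, iteratedDeriv_one]
    have e2 : iteratedDeriv 1 f = deriv f := iteratedDeriv_one
    rw [e1, e2]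
    exact h2.hasDerivAt
  have h2nd : ∀ x ∈ Set.Icc N (2 * N), s ^ 2 ≤ -iteratedDeriv 2 f x ∧
      -iteratedDeriv 2 f x ≤ ρ * s ^ 2 := by
    intro x hx
    have hx0 : 0 < x := lt_of_lt_of_le hN hx.1
    rw [hiter 2 x hx0, iter_f0 σ yy 1 hx0]
    have h1 := abs_le.mp (hDb 2 x)
    have h2 := second_bounds hσ hM hN hx.1 hx.2
    have e1 : (-1 : ℝ) ^ 1 * rf σ 1 * yy * x ^ (-σ - ((1 : ℕ) : ℝ)) =
        -(σ * (M * (2 * N) ^ σ) * x ^ (-σ - 1)) := by
      rw [show rf σ 1 = σ by simp [rf], hyy]; push_cast; ring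
    have e2 : 2 * s ^ 2 = σ * M / (2 * N) := by rw [hs2]; field_simp; ring
    have e3 : (8 * κ) ^ 2 * BB 2 ≤ s ^ 2 := by
      rw [hκρ]
      have : (8 * (ρ * s ^ 2 / 2)) ^ 2 * BB 2 = (16 * BB 2 * ρ ^ 2 * s ^ 2) * s ^ 2 := by ring
      rw [this]
      have h3 := mul_le_mul_of_nonneg_right hs3 (by positivity : 0 ≤ s ^ 2)
      linarith
    have e4 : ρ * s ^ 2 = 2 * κ := by rw [hκρ]; ring
    have e5 : s ^ 2 ≤ κ := by
      rw [hκρ]
      have : 8 * s ^ 2 ≤ ρ * s ^ 2 := mul_le_mul_of_nonneg_right hρ8 (by positivity)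
      have h4 : 0 < s ^ 2 := by positivity
      linarith
    rw [e1]
    have h3 := h2.1
    have h4 := h2.2
    rw [← hκ] at h4
    constructor
    · linarith
    · rw [e4]; linarith
  have hmvt : ∀ x z, N ≤ x → x ≤ z → z ≤ 2 * N →
      s ^ 2 * (z - x) ≤ iteratedDeriv 1 f x - iteratedDeriv 1 f z ∧
      iteratedDeriv 1 f x - iteratedDeriv 1 f z ≤ ρ * s ^ 2 * (z - x) := by
    intro x z hx hxz hz
    exact mvt_two (fun t ht => hgder t (lt_of_lt_of_le hN ht.1)) (fun t ht => (h2nd t ht).1)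
      (fun t ht => (h2nd t ht).2) hx hxz hz
  have hg1 : ∀ x, 0 < x → iteratedDeriv 1 f x = g0 σ yy x +
      D w (fun i => (n i : ℝ)) θ μ L 1 x := by
    intro x hx
    rw [hiter 1 x hx, iter_f0 σ yy 0 hx]
    simp [rf_zero, g0]
  have hfn : ∀ i < L, f (n i) = (round (f0 σ yy (n i)) : ℤ) := by
    intro i hi
    have hpos : (0 : ℝ) < n i := by have := (hnN i hi).1; linarith
    have h1 := hiter 0 (n i) hpos
    simp only [iteratedDeriv_zero] at h1
    rw [h1, D_near hw0 _ θ μ L 0 hi (by simp; exact hw0.le) hsep, sub_self, mul_zero, β_val,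
      pow_zero, one_mul]
    simp only [hθ]; ring
  have hgn : ∀ i < L, iteratedDeriv 1 f (n i) = ((ν0 : ℤ) : ℝ) - i := by
    intro i hi
    have hpos : (0 : ℝ) < n i := by have := (hnN i hi).1; linarith
    rw [hg1 (n i) hpos, D_near hw0 _ θ μ L 1 hi (by simp; exact hw0.le) hsep, sub_self, mul_zero,
      β_slope, pow_one]
    simp only [hμ]
    rw [← mul_assoc, inv_mul_cancel₀ hw0.ne', one_mul]
    simp only [hνdef]; push_cast; ring
  have hgy : ∀ i ≤ L, iteratedDeriv 1 f (y i) = ((ν0 : ℤ) : ℝ) - i + 1 / 2 := by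
    intro i hi
    have hpos : (0 : ℝ) < y i := by have := (hyN i hi).1; linarith
    rw [hg1 (y i) hpos, D_far hw0 _ θ μ L 1 (fun k hk => hfar i hi k hk), add_zero]
    have h6 : g0 σ yy (y i) = ν i + 1 / 2 :=
      g0_xx hσ hM hN (by have := hνM i hi; linarith)
    rw [h6]
    simp only [hνdef]; push_cast; ring
  have hyn : ∀ i < L, y i ≤ n i ∧ (n i : ℝ) ≤ y (i + 1) := by
    intro i hi
    have h1 := ha i hi.le
    have h2 := hnX i hi.le
    have h3 := hb i hi
    exact ⟨by linarith, by linarith⟩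
  have hmain := main_lower f (iteratedDeriv 1 f) N s ρ y n (ν0 : ℤ)
    (fun i => round (f0 σ yy (n i))) L hs (by linarith) (by linarith) hN.le
    (hyN 0 (by omega)).1 (hyN L le_rfl).2
    (fun x hx => hfder x (lt_of_lt_of_le hN hx.1))
    (fun x z hx hxz hz => (hmvt x z hx hxz hz).1)
    (fun x z hx hxz hz => (hmvt x z hx hxz hz).2)
    hyn hgn hfn hgy
  refine ⟨f, y 0, y L, (hyN 0 (by omega)).1, ?_, (hyN L le_rfl).2, ?_, ?_, ?_⟩
  · apply xx_anti hσ hM hN (by have := hνM L le_rfl; linarith)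
    have : (0 : ℝ) ≤ L := by positivity
    simp only [hνdef]; push_cast; linarith
  · intro x hx
    have hx0 : 0 < x := lt_of_lt_of_le hN hx.1
    exact (pert_contDiffAt (f0_contDiffAt σ yy hx0) w _ θ μ L).contDiffWithinAt
  · intro j x hx
    have hx0 : 0 < x := lt_of_lt_of_le hN hx.1
    have hcd : ContDiffAt ℝ ((j + 1 : ℕ) : ℕ∞) f x :=
      (pert_contDiffAt (f0_contDiffAt σ yy hx0) w _ θ μ L).of_le (by exact_mod_cast le_top)
    rw [iteratedDerivWithin_eq_iteratedDeriv (uniqueDiffOn_Icc (by linarith)) hcd hx,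
      hiter (j + 1) x hx0, iter_f0 σ yy j hx0, add_sub_cancel_left]
    exact hDb (j + 1) x
  · refine le_trans ?_ hmain
    apply mul_le_mul_of_nonneg_left _ (by positivity)
    have e : 1 / (160 * ρ ^ 3 * s) = 2 * (1 / (320 * ρ ^ 3 * s)) := by field_simp; norm_num
    have h3 : 3 ≤ 1 / (320 * ρ ^ 3 * s) := by
      rw [le_div_iff₀ (by positivity)]; linarith
    rw [e]; linarith

end Pool.Agent.H76.EP
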