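import Mathlib

set_option autoImplicit false

namespace Pool.Agent.H76

open Finset Polynomial

/-- `k`-th elementary symmetric function. -/
noncomputable def esym {ι : Type*} [Fintype ι] (k : ℕ) (x : ι → ℝ) : ℝ :=
  ∑ s ∈ Finset.univ.powersetCard k, ∏ i ∈ s, x i

lemma coeff_prod_one_add {ι : Type*} [DecidableEq ι] (S : Finset ι) (k : ℕ) (x : ι → ℝ) :
    (∏ i ∈ S, (1 + C (x i) * X)).coeff k = ∑ s ∈ S.powersetCard k, ∏ i ∈ s, x i := by
  rw [Finset.prod_one_add, Polynomial.finsetSum_coeff]
  have h : ∀ t ∈ S.powerset, (∏ i ∈ t, (C (x i) * X)).coeff k =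
      if t.card = k then ∏ i ∈ t, x i else 0 := by
    intro t _
    rw [Finset.prod_mul_distrib, Finset.prod_const, ← map_prod, Polynomial.coeff_C_mul,
      Polynomial.coeff_X_pow]
    by_cases h : t.card = k
    · simp [h]
    · simp [h, Ne.symm h]
  rw [Finset.sum_congr rfl h, ← Finset.sum_filter]
  congr 1
  ext t
  simp [Finset.mem_powersetCard]

lemma esym_eq_coeff {ι : Type*} [Fintype ι] [DecidableEq ι] (k : ℕ) (x : ι → ℝ) :
    esym k x = (∏ i, (1 + C (x i) * X)).coeff k := by
  rw [coeff_prod_one_add]; rfl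

lemma esym_const {ι : Type*} [Fintype ι] (k : ℕ) (c : ℝ) :
    esym k (fun _ : ι => c) = (Fintype.card ι).choose k * c ^ k := by
  unfold esym
  rw [Finset.sum_congr rfl (g := fun _ => c ^ k)]
  · simp [Finset.card_powersetCard]
  · intro s hs
    rw [Finset.prod_const, (Finset.mem_powersetCard.mp hs).2]

lemma esym_nonneg {ι : Type*} [Fintype ι] (k : ℕ) (x : ι → ℝ) (hx : ∀ i, 0 ≤ x i) :
    0 ≤ esym k x :=
  Finset.sum_nonneg fun _ _ => Finset.prod_nonneg fun i _ => hx i

lemma continuous_esym {ι : Type*} [Fintype ι] (k : ℕ) :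
    Continuous (fun x : ι → ℝ => esym k x) := by
  unfold esym
  exact continuous_finsetSum _ fun s _ => continuous_finsetProd _ fun i _ => continuous_apply i

/-- Averaging two coordinates. -/
lemma esym_average {ι : Type*} [Fintype ι] [DecidableEq ι] (k : ℕ) (x : ι → ℝ) (i j : ι)
    (hij : i ≠ j) :
    esym (k + 2) (Function.update (Function.update x i ((x i + x j) / 2)) j ((x i + x j) / 2)) =
      esym (k + 2) x + (x i - x j) ^ 2 / 4 *
        ∑ s ∈ ((Finset.univ.erase i).erase j).powersetCard k, ∏ l ∈ s, x l := by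
  set y := Function.update (Function.update x i ((x i + x j) / 2)) j ((x i + x j) / 2) with hy
  have hyi : y i = (x i + x j) / 2 := by
    simp [hy, hij]
  have hyj : y j = (x i + x j) / 2 := by simp [hy]
  have hyl : ∀ l, l ≠ i → l ≠ j → y l = x l := by
    intro l hli hlj
    simp [hy, hli, hlj]
  have hjm : j ∈ (Finset.univ : Finset ι).erase i := by simp [hij.symm]
  have key : ∀ z : ι → ℝ, ∏ l, (1 + C (z l) * X : ℝ[X]) =
      (1 + C (z i) * X) * ((1 + C (z j) * X) *
        ∏ l ∈ (Finset.univ.erase i).erase j, (1 + C (z l) * X)) := by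
    intro z
    rw [Finset.mul_prod_erase _ (fun l => (1 + C (z l) * X : ℝ[X])) hjm,
      Finset.mul_prod_erase _ (fun l => (1 + C (z l) * X : ℝ[X])) (Finset.mem_univ i)]
  rw [esym_eq_coeff, esym_eq_coeff, key, key, ← coeff_prod_one_add]
  have hR : ∏ l ∈ (Finset.univ.erase i).erase j, (1 + C (y l) * X : ℝ[X]) =
      ∏ l ∈ (Finset.univ.erase i).erase j, (1 + C (x l) * X : ℝ[X]) := by
    refine Finset.prod_congr rfl fun l hl => ?_
    simp only [Finset.mem_erase, Finset.mem_univ, and_true] at hl
    rw [hyl l hl.2 hl.1]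
  rw [hR, hyi, hyj]
  set R := ∏ l ∈ (Finset.univ.erase i).erase j, (1 + C (x l) * X : ℝ[X]) with hRdef
  have : (1 + C ((x i + x j) / 2) * X) * ((1 + C ((x i + x j) / 2) * X) * R) =
      (1 + C (x i) * X) * ((1 + C (x j) * X) * R) + C ((x i - x j) ^ 2 / 4) * (R * X ^ 2) := by
    have e1 : (C ((x i - x j) ^ 2 / 4) : ℝ[X]) =
        C ((x i + x j) / 2) * C ((x i + x j) / 2) - C (x i) * C (x j) := by
      rw [← C_mul, ← C_mul, ← C_sub]; congr 1; ring
    have e2 : (C (x i) + C (x j) : ℝ[X]) = C ((x i + x j) / 2) + C ((x i + x j) / 2) := by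
      rw [← C_add, ← C_add]; congr 1; ring
    rw [e1]
    linear_combination (-R * X) * e2
  rw [this, coeff_add, coeff_C_mul, coeff_mul_X_pow]

/-- Maclaurin's inequality (first against `k`-th mean) with its equality case, for `k ≥ 2`. -/
theorem maclaurin {ι : Type*} [Fintype ι] (k : ℕ) (hk : 2 ≤ k) (hkn : k ≤ Fintype.card ι)
    (x : ι → ℝ) (hx : ∀ i, 0 ≤ x i) (hS : 0 < ∑ i, x i) :
    esym k x ≤ (Fintype.card ι).choose k * ((∑ i, x i) / Fintype.card ι) ^ k ∧
    (esym k x = (Fintype.card ι).choose k * ((∑ i, x i) / Fintype.card ι) ^ k →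
      ∀ i, x i = (∑ i, x i) / Fintype.card ι) := by
  classical
  obtain ⟨k, rfl⟩ : ∃ m, k = m + 2 := ⟨k - 2, by omega⟩
  set S := ∑ i, x i with hSdef
  set n := Fintype.card ι with hn
  have hn0 : (0 : ℝ) < n := by
    have : 0 < n := by omega
    exact_mod_cast this
  let K : Set (ι → ℝ) := {y | (∀ i, 0 ≤ y i) ∧ ∑ i, y i = S}
  have hKc : IsCompact K := by
    have h1 : IsClosed K := by
      have : K = (⋂ i, {y : ι → ℝ | 0 ≤ y i}) ∩ {y | ∑ i, y i = S} := by
        ext y; simp [K]
      rw [this]
      refine IsClosed.inter (isClosed_iInter fun i => ?_) ?_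
      · exact isClosed_le continuous_const (continuous_apply i)
      · exact isClosed_eq (continuous_finsetSum _ fun i _ => continuous_apply i) continuous_const
    have h2 : K ⊆ Set.pi Set.univ (fun _ => Set.Icc (0 : ℝ) S) := by
      rintro y ⟨hy0, hyS⟩ i _
      refine ⟨hy0 i, ?_⟩
      rw [← hyS]
      exact Finset.single_le_sum (fun j _ => hy0 j) (Finset.mem_univ i)
    exact (isCompact_univ_pi fun _ => isCompact_Icc).of_isClosed_subset h1 h2
  let u : ι → ℝ := fun _ => S / n
  have huK : u ∈ K := by
    refine ⟨fun i => by positivity, ?_⟩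
    simp only [u, Finset.sum_const, Finset.card_univ, nsmul_eq_mul, ← hn]
    field_simp
  have hxK : x ∈ K := ⟨hx, rfl⟩
  obtain ⟨m, hmK, hmax⟩ := hKc.exists_isMaxOn ⟨u, huK⟩
    (continuous_esym (ι := ι) (k + 2)).continuousOn
  have hupos : 0 < esym (k + 2) u := by
    rw [esym_const]
    have : 0 < n.choose (k + 2) := Nat.choose_pos hkn
    have : (0 : ℝ) < n.choose (k + 2) := by exact_mod_cast this
    have hs : 0 < S / n := by positivity
    positivity
  -- every maximiser is constant
  have hconst : ∀ z ∈ K, (∀ y ∈ K, esym (k + 2) y ≤ esym (k + 2) z) → ∀ i j, z i = z j := by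
    intro z hz hzmax i j
    by_contra hne
    have hij : i ≠ j := fun h => hne (by rw [h])
    set y := Function.update (Function.update z i ((z i + z j) / 2)) j ((z i + z j) / 2) with hy
    have hyK : y ∈ K := by
      refine ⟨?_, ?_⟩
      · intro l
        have := hz.1 i
        have := hz.1 j
        have := hz.1 l
        by_cases hlj : l = j
        · subst hlj; simp only [hy, Function.update_self]; linarith
        · by_cases hli : l = i
          · subst hli; simp only [hy, Function.update_self, Function.update_of_ne hlj]; linarith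
          · simp only [hy, Function.update_of_ne hlj, Function.update_of_ne hli]; assumption
      · have hjm : j ∈ (Finset.univ : Finset ι).erase i := by simp [hij.symm]
        have key : ∀ w : ι → ℝ, ∑ l, w l =
            w i + (w j + ∑ l ∈ (Finset.univ.erase i).erase j, w l) := by
          intro w
          rw [Finset.add_sum_erase _ w hjm, Finset.add_sum_erase _ w (Finset.mem_univ i)]
        rw [← hz.2, key y, key z]
        have h1 : ∑ l ∈ (Finset.univ.erase i).erase j, y l =
            ∑ l ∈ (Finset.univ.erase i).erase j, z l := by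
          refine Finset.sum_congr rfl fun l hl => ?_
          simp only [Finset.mem_erase, Finset.mem_univ, and_true] at hl
          simp [hy, hl.1, hl.2]
        have h2 : y i = (z i + z j) / 2 := by simp [hy, hij]
        have h3 : y j = (z i + z j) / 2 := by simp [hy]
        rw [h1, h2, h3]; ring
    have hle := hzmax y hyK
    rw [hy, esym_average k z i j hij] at hle
    have hsq : 0 < (z i - z j) ^ 2 / 4 := by
      have : z i - z j ≠ 0 := sub_ne_zero.mpr hne
      positivity
    have hsum : ∑ s ∈ ((Finset.univ.erase i).erase j).powersetCard k, ∏ l ∈ s, z l ≤ 0 := by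
      nlinarith
    -- but the sum is positive
    have hzpos : 0 < esym (k + 2) z := lt_of_lt_of_le hupos (hzmax u huK)
    have : ∃ s ∈ (Finset.univ : Finset ι).powersetCard (k + 2), 0 < ∏ l ∈ s, z l := by
      by_contra hcon
      push Not at hcon
      have := Finset.sum_nonpos hcon
      unfold esym at hzpos
      linarith
    obtain ⟨s, hs, hspos⟩ := this
    have hsne : ∀ l ∈ s, 0 < z l := by
      intro l hl
      rcases (hz.1 l).lt_or_eq with h | h
      · exact h
      · exact absurd (Finset.prod_eq_zero hl h.symm) hspos.ne'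
    have hcard : k ≤ ((s.erase i).erase j).card := by
      have h1 := Finset.pred_card_le_card_erase (s := s) (a := i)
      have h2 := Finset.pred_card_le_card_erase (s := s.erase i) (a := j)
      rw [(Finset.mem_powersetCard.mp hs).2] at h1
      omega
    obtain ⟨t, hts, htc⟩ := Finset.exists_subset_card_eq hcard
    have htm : t ∈ ((Finset.univ.erase i).erase j).powersetCard k := by
      rw [Finset.mem_powersetCard]
      refine ⟨?_, htc⟩
      intro l hl
      have := hts hl
      simp only [Finset.mem_erase] at this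
      simp only [Finset.mem_erase, Finset.mem_univ, and_true]
      exact ⟨this.1, this.2.1⟩
    have htpos : 0 < ∏ l ∈ t, z l := by
      refine Finset.prod_pos fun l hl => hsne l ?_
      have := hts hl
      simp only [Finset.mem_erase] at this
      exact this.2.2
    have : 0 < ∑ s ∈ ((Finset.univ.erase i).erase j).powersetCard k, ∏ l ∈ s, z l :=
      Finset.sum_pos' (fun s _ => Finset.prod_nonneg fun l _ => hz.1 l) ⟨t, htm, htpos⟩
    linarith
  have hval : ∀ z ∈ K, (∀ i j, z i = z j) → ∀ i, z i = S / n := by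
    intro z hz hc i
    have : ∑ l, z l = n * z i := by
      rw [Finset.sum_congr rfl (fun l _ => hc l i)]
      simp [hn]
    rw [hz.2] at this
    rw [this]; field_simp
  have hm : ∀ i, m i = S / n := hval m hmK (hconst m hmK fun y hy => hmax hy)
  have hmu : m = u := funext hm
  have hbound : ∀ y ∈ K, esym (k + 2) y ≤ n.choose (k + 2) * (S / n) ^ (k + 2) := by
    intro y hy
    have := hmax hy
    simp only [Set.mem_ofPred_eq, hmu] at this
    rwa [esym_const] at this
  refine ⟨hbound x hxK, fun heq => ?_⟩
  exact hval x hxK (hconst x hxK fun y hy => heq ▸ hbound y hy)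

end Pool.Agent.H76
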