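import Mathlib
import Pool.Agent.H76.Maclaurin

set_option autoImplicit false

namespace Pool.Agent.H76

open Finset Matrix

/-- sum of `k × k` principal minors -/
noncomputable def pminors {m : Type*} [Fintype m] [DecidableEq m] (k : ℕ) (M : Matrix m m ℝ) : ℝ :=
  ∑ s ∈ Finset.univ.powersetCard k, (M.submatrix (Subtype.val : s → m) (Subtype.val : s → m)).det

lemma pminors_comm {m n : Type*} [Fintype m] [DecidableEq m] [Fintype n] [DecidableEq n]
    (A : Matrix m n ℝ) (B : Matrix n m ℝ) (k : ℕ) : pminors k (A * B) = pminors k (B * A) := by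
  unfold pminors
  rw [← Matrix.coeff_det_one_add_X_smul_eq_sum_minors, ← Matrix.coeff_det_one_add_X_smul_eq_sum_minors]
  congr 1
  rw [Matrix.map_mul, Matrix.map_mul, ← Matrix.mul_smul, Matrix.det_one_add_mul_comm,
    Matrix.smul_mul]

lemma pminors_diagonal {m : Type*} [Fintype m] [DecidableEq m] (k : ℕ) (x : m → ℝ) :
    pminors k (Matrix.diagonal x) = esym k x := by
  unfold pminors esym
  refine Finset.sum_congr rfl fun s _ => ?_
  rw [Matrix.submatrix_diagonal _ _ Subtype.val_injective, Matrix.det_diagonal]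
  exact Finset.prod_coe_sort s x

lemma pminors_hermitian {m : Type*} [Fintype m] [DecidableEq m] (k : ℕ) (T : Matrix m m ℝ)
    (hT : T.IsHermitian) : pminors k T = esym k hT.eigenvalues := by
  have h := hT.spectral_theorem
  rw [← pminors_diagonal]
  conv_lhs => rw [h]
  rw [Unitary.conjStarAlgAut_apply, pminors_comm, ← mul_assoc]
  simp [Function.comp_def]

/-- bound for sums of principal minors of `Aᵀ A` -/
theorem pminors_bound {d n : ℕ} (k : ℕ) (hk : 2 ≤ k) (hkd : k ≤ d)
    (A : Matrix (Fin d) (Fin n) ℝ) (S : ℝ) (hS : 0 < S) (htr : (A * Aᵀ).trace = S) :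
    pminors k (Aᵀ * A) ≤ d.choose k * (S / d) ^ k ∧
    (pminors k (Aᵀ * A) = d.choose k * (S / d) ^ k → A * Aᵀ = (S / d) • (1 : Matrix _ _ ℝ)) := by
  rw [pminors_comm]
  have hpsd : (A * Aᵀ).PosSemidef := by
    have := Matrix.posSemidef_self_mul_conjTranspose A
    rwa [Matrix.conjTranspose_eq_transpose_of_trivial] at this
  have hT := hpsd.1
  rw [pminors_hermitian k _ hT]
  have hsum : ∑ i, hT.eigenvalues i = S := by
    have := hT.trace_eq_sum_eigenvalues
    simp only [htr] at this
    exact_mod_cast this.symm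
  have := maclaurin k hk (by simpa using hkd) hT.eigenvalues hpsd.eigenvalues_nonneg
    (by rw [hsum]; exact hS)
  rw [hsum, Fintype.card_fin] at this
  refine ⟨this.1, fun heq => ?_⟩
  have hc := this.2 heq
  have hsp := hT.spectral_theorem
  have hd : (Matrix.diagonal (RCLike.ofReal ∘ hT.eigenvalues) : Matrix (Fin d) (Fin d) ℝ) =
      (S / d) • (1 : Matrix (Fin d) (Fin d) ℝ) := by
    rw [← Matrix.diagonal_one, ← Matrix.diagonal_smul]
    congr 1
    funext i
    simp [hc i]
  rw [hsp, hd, map_smul, map_one]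

end Pool.Agent.H76
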