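import Mathlib

/-!
# Smooth dependence of integrals on parameters
-/

open scoped ContDiff Topology
open Set Filter MeasureTheory

namespace Pool.H76

/-- Continuity of a parametric integral over `[0,1]`. -/
theorem continuousOn_paramInt {P F : Type} [NormedAddCommGroup P] [NormedSpace ℝ P]
    [NormedAddCommGroup F] [NormedSpace ℝ F] {U : Set P} (hU : IsOpen U) {V : Set ℝ}
    (hV : Icc (0 : ℝ) 1 ⊆ V) (hVo : IsOpen V) {w : ℝ → ℝ} (hw : Continuous w) {K : P → ℝ → F}
    (hK : ContinuousOn (Function.uncurry K) (U ×ˢ V)) :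
    ContinuousOn (fun p => ∫ t in (0 : ℝ)..1, w t • K p t) U := by
  intro p₀ hp₀
  apply ContinuousAt.continuousWithinAt
  -- local bound
  have hcomp : IsCompact (({p₀} : Set P) ×ˢ Icc (0 : ℝ) 1) := isCompact_singleton.prod isCompact_Icc
  have hsub : (({p₀} : Set P) ×ˢ Icc (0 : ℝ) 1) ⊆ U ×ˢ V := by
    rintro ⟨p, t⟩ ⟨hp, ht⟩
    rw [mem_singleton_iff] at hp
    exact ⟨by rw [hp]; exact hp₀, hV ht⟩
  obtain ⟨M, hM⟩ := hcomp.exists_bound_of_continuousOn (hK.mono hsub)
  have hopen : IsOpen ((U ×ˢ V) ∩ {q : P × ℝ | ‖Function.uncurry K q‖ < M + 1}) := by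
    have := hK.norm
    exact this.isOpen_inter_preimage (hU.prod hVo) isOpen_Iio
  have hsub2 : (({p₀} : Set P) ×ˢ Icc (0 : ℝ) 1) ⊆
      ((U ×ˢ V) ∩ {q : P × ℝ | ‖Function.uncurry K q‖ < M + 1}) := by
    intro q hq
    refine ⟨hsub hq, ?_⟩
    have := hM q hq
    show ‖Function.uncurry K q‖ < M + 1
    linarith
  obtain ⟨u, v, hu, hv, hpu, hv', huv⟩ := generalized_tube_lemma isCompact_singleton isCompact_Icc
    hopen hsub2
  have hp₀u : p₀ ∈ u := hpu rfl
  have hunhds : u ∈ 𝓝 p₀ := hu.mem_nhds hp₀u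
  apply intervalIntegral.continuousAt_of_dominated_interval (bound := fun t => |w t| * (M + 1))
  · filter_upwards [hunhds] with p hp
    apply ContinuousOn.aestronglyMeasurable _ measurableSet_uIoc
    have h1 : ContinuousOn (K p) (Icc (0 : ℝ) 1) := by
      apply hK.comp (f := fun t => (p, t)) (by fun_prop)
      intro t ht
      exact (huv ⟨hp, hv' ht⟩).1
    apply ContinuousOn.mono _ (uIoc_subset_uIcc)
    rw [uIcc_of_le zero_le_one]
    exact hw.continuousOn.smul h1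
  · filter_upwards [hunhds] with p hp
    refine ae_of_all _ fun t ht => ?_
    rw [norm_smul, Real.norm_eq_abs]
    have ht' : t ∈ Icc (0 : ℝ) 1 := by
      rw [uIoc_of_le zero_le_one] at ht
      exact ⟨ht.1.le, ht.2⟩
    have := (huv (⟨hp, hv' ht'⟩ : (p, t) ∈ u ×ˢ v)).2
    exact mul_le_mul_of_nonneg_left (le_of_lt this) (abs_nonneg _)
  · apply Continuous.intervalIntegrable
    fun_prop
  · refine ae_of_all _ fun t ht => ?_
    have ht' : t ∈ Icc (0 : ℝ) 1 := by
      rw [uIoc_of_le zero_le_one] at ht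
      exact ⟨ht.1.le, ht.2⟩
    apply ContinuousAt.const_smul
    have h2 : ContinuousAt (Function.uncurry K) (p₀, t) :=
      hK.continuousAt ((hU.prod hVo).mem_nhds ⟨hp₀, hV ht'⟩)
    exact h2.comp (f := fun p => (p, t)) (by fun_prop)

/-- Differentiation under the integral sign over `[0,1]`. -/
theorem hasFDerivAt_paramInt {P F : Type} [NormedAddCommGroup P] [NormedSpace ℝ P]
    [NormedAddCommGroup F] [NormedSpace ℝ F] {U : Set P} (hU : IsOpen U) {V : Set ℝ}
    (hV : Icc (0 : ℝ) 1 ⊆ V) (hVo : IsOpen V) {w : ℝ → ℝ} (hw : Continuous w) {K : P → ℝ → F}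
    (hK : ContDiffOn ℝ 1 (Function.uncurry K) (U ×ˢ V)) {p₀ : P} (hp₀ : p₀ ∈ U) :
    HasFDerivAt (fun p => ∫ t in (0 : ℝ)..1, w t • K p t)
      (∫ t in (0 : ℝ)..1, w t • (fderiv ℝ (Function.uncurry K) (p₀, t) ∘L
        ContinuousLinearMap.inl ℝ P ℝ)) p₀ := by
  have hUV : IsOpen (U ×ˢ V) := hU.prod hVo
  set K' : P → ℝ → (P →L[ℝ] F) := fun p t => fderiv ℝ (Function.uncurry K) (p, t) ∘L
        ContinuousLinearMap.inl ℝ P ℝ with hK'
  have hK'c : ContinuousOn (Function.uncurry K') (U ×ˢ V) := by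
    have h1 := hK.continuousOn_fderiv_of_isOpen hUV le_rfl
    exact h1.clm_comp continuousOn_const
  have hcomp : IsCompact (({p₀} : Set P) ×ˢ Icc (0 : ℝ) 1) := isCompact_singleton.prod isCompact_Icc
  have hsub : (({p₀} : Set P) ×ˢ Icc (0 : ℝ) 1) ⊆ U ×ˢ V := by
    rintro ⟨p, t⟩ ⟨hp, ht⟩
    rw [mem_singleton_iff] at hp
    exact ⟨by rw [hp]; exact hp₀, hV ht⟩
  obtain ⟨M, hM⟩ := hcomp.exists_bound_of_continuousOn (hK'c.mono hsub)
  have hopen : IsOpen ((U ×ˢ V) ∩ {q : P × ℝ | ‖Function.uncurry K' q‖ < M + 1}) := by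
    have := hK'c.norm
    exact this.isOpen_inter_preimage hUV isOpen_Iio
  have hsub2 : (({p₀} : Set P) ×ˢ Icc (0 : ℝ) 1) ⊆
      ((U ×ˢ V) ∩ {q : P × ℝ | ‖Function.uncurry K' q‖ < M + 1}) := by
    intro q hq
    refine ⟨hsub hq, ?_⟩
    have := hM q hq
    show ‖Function.uncurry K' q‖ < M + 1
    linarith
  obtain ⟨u, v, hu, hv, hpu, hv', huv⟩ := generalized_tube_lemma isCompact_singleton isCompact_Icc
    hopen hsub2
  have hp₀u : p₀ ∈ u := hpu rfl
  have hunhds : u ∈ 𝓝 p₀ := hu.mem_nhds hp₀u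
  have hKc : ∀ p ∈ u, ContinuousOn (fun t => w t • K p t) (uIcc (0 : ℝ) 1) := by
    intro p hp
    rw [uIcc_of_le zero_le_one]
    apply hw.continuousOn.smul
    apply hK.continuousOn.comp (f := fun t => (p, t)) (by fun_prop)
    intro t ht
    exact (huv ⟨hp, hv' ht⟩).1
  apply intervalIntegral.hasFDerivAt_integral_of_dominated_of_fderiv_le (𝕜 := ℝ)
    (F := fun p t => w t • K p t) (F' := fun p t => w t • K' p t) (s := u)
    (bound := fun t => |w t| * (M + 1)) hunhds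
  · filter_upwards [hunhds] with p hp
    apply ContinuousOn.aestronglyMeasurable _ measurableSet_uIoc
    exact (hKc p hp).mono uIoc_subset_uIcc
  · exact (hKc p₀ hp₀u).intervalIntegrable
  · apply ContinuousOn.aestronglyMeasurable _ measurableSet_uIoc
    apply ContinuousOn.mono _ (uIoc_subset_uIcc)
    rw [uIcc_of_le zero_le_one]
    apply hw.continuousOn.smul
    apply hK'c.comp (f := fun t => (p₀, t)) (by fun_prop)
    intro t ht
    exact ⟨hp₀, hV ht⟩
  · refine ae_of_all _ fun t ht p hp => ?_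
    rw [norm_smul, Real.norm_eq_abs]
    have ht' : t ∈ Icc (0 : ℝ) 1 := by
      rw [uIoc_of_le zero_le_one] at ht
      exact ⟨ht.1.le, ht.2⟩
    have := (huv (⟨hp, hv' ht'⟩ : (p, t) ∈ u ×ˢ v)).2
    exact mul_le_mul_of_nonneg_left (le_of_lt this) (abs_nonneg _)
  · apply Continuous.intervalIntegrable
    fun_prop
  · refine ae_of_all _ fun t ht p hp => ?_
    have ht' : t ∈ Icc (0 : ℝ) 1 := by
      rw [uIoc_of_le zero_le_one] at ht
      exact ⟨ht.1.le, ht.2⟩
    have hmem := (huv (⟨hp, hv' ht'⟩ : (p, t) ∈ u ×ˢ v)).1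
    have hd : HasFDerivAt (Function.uncurry K) (fderiv ℝ (Function.uncurry K) (p, t)) (p, t) :=
      ((hK.contDiffAt (hUV.mem_nhds hmem)).differentiableAt one_ne_zero).hasFDerivAt
    have hin : HasFDerivAt (fun p : P => (p, t)) (ContinuousLinearMap.inl ℝ P ℝ) p :=
      hasFDerivAt_prodMk_left p t
    exact (hd.comp p hin).const_smul (w t)

/-- Smooth dependence of `∫₀¹ w(t) K(p,t) dt` on `p`. -/
theorem contDiffOn_paramInt_nat {P : Type} [NormedAddCommGroup P] [NormedSpace ℝ P]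
    {U : Set P} (hU : IsOpen U) {V : Set ℝ}
    (hV : Icc (0 : ℝ) 1 ⊆ V) (hVo : IsOpen V) {w : ℝ → ℝ} (hw : Continuous w) (n : ℕ) :
    ∀ {F : Type} [NormedAddCommGroup F] [NormedSpace ℝ F] {K : P → ℝ → F}
    (_ : ContDiffOn ℝ n (Function.uncurry K) (U ×ˢ V)),
    ContDiffOn ℝ n (fun p => ∫ t in (0 : ℝ)..1, w t • K p t) U := by
  induction n with
  | zero =>
    intro F _ _ K hK
    simp only [Nat.cast_zero, contDiffOn_zero] at hK ⊢
    exact continuousOn_paramInt hU hV hVo hw hK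
  | succ n ih =>
    intro F _ _ K hK
    have hUV : IsOpen (U ×ˢ V) := hU.prod hVo
    have h1 : ContDiffOn ℝ 1 (Function.uncurry K) (U ×ˢ V) := hK.of_le (by
      norm_cast; omega)
    have hK2 := hK
    push_cast at hK2 ⊢
    rw [contDiffOn_succ_iff_fderiv_of_isOpen hUV] at hK2
    rw [contDiffOn_succ_iff_fderiv_of_isOpen hU]
    refine ⟨?_, by simp, ?_⟩
    · intro p hp
      exact (hasFDerivAt_paramInt hU hV hVo hw h1 hp).differentiableAt.differentiableWithinAt
    · have : ContDiffOn ℝ n (fun p => ∫ t in (0 : ℝ)..1, w t •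
          ((fun p t => fderiv ℝ (Function.uncurry K) (p, t) ∘L
            ContinuousLinearMap.inl ℝ P ℝ) p t)) U := by
        apply ih
        exact hK2.2.2.clm_comp contDiffOn_const
      apply this.congr
      intro p hp
      exact (hasFDerivAt_paramInt hU hV hVo hw h1 hp).fderiv

/-- Smooth dependence of `∫₀¹ w(t) K(p,t) dt` on `p`. -/
theorem contDiffOn_paramInt {P : Type} [NormedAddCommGroup P] [NormedSpace ℝ P]
    {U : Set P} (hU : IsOpen U) {V : Set ℝ}
    (hV : Icc (0 : ℝ) 1 ⊆ V) (hVo : IsOpen V) {w : ℝ → ℝ} (hw : Continuous w)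
    {F : Type} [NormedAddCommGroup F] [NormedSpace ℝ F] {K : P → ℝ → F}
    (hK : ContDiffOn ℝ ∞ (Function.uncurry K) (U ×ˢ V)) :
    ContDiffOn ℝ ∞ (fun p => ∫ t in (0 : ℝ)..1, w t • K p t) U := by
  rw [contDiffOn_infty] at hK ⊢
  intro n
  exact contDiffOn_paramInt_nat hU hV hVo hw n (hK n)

end Pool.H76
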