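import Mathlib

set_option autoImplicit false

namespace Pool.Agent.H76

open scoped Pointwise

/-- Euclidean space `ℝ^d`. -/
abbrev E (d : ℕ) : Type := EuclideanSpace ℝ (Fin d)

/-- The zonotope `∑ [o, p i]`, a Minkowski sum of segments. -/
def zonotope {d n : ℕ} (p : Fin n → E d) : Set (E d) :=
  ∑ i, segment ℝ (0 : E d) (p i)

/-- `p` generates `Z`: the set `Z` is a translate of the zonotope `∑ [o, p i]`. -/
def Generates {d n : ℕ} (p : Fin n → E d) (Z : Set (E d)) : Prop :=
  ∃ x : E d, Z = {x} + zonotope p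

/-- `|p_{i_1} ∧ ⋯ ∧ p_{i_k}|`, the `k`-volume of the parallelotope spanned by the `p i`, `i ∈ I`:
the square root of the Gram determinant. -/
noncomputable def wedgeNorm {d n : ℕ} (p : Fin n → E d) (I : Finset (Fin n)) : ℝ :=
  Real.sqrt (Matrix.det (Matrix.of fun i j : I => (inner ℝ (p i) (p j) : ℝ)))

/-- The sum of `|p_{i_1} ∧ ⋯ ∧ p_{i_k}|` over all `i_1 < ⋯ < i_k`. -/
noncomputable def V {d n : ℕ} (k : ℕ) (p : Fin n → E d) : ℝ :=
  ∑ I ∈ Finset.univ.powersetCard k, wedgeNorm p I

/-- Volume of the `m`-dimensional unit ball. -/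
noncomputable def κ (m : ℕ) : ℝ := (MeasureTheory.volume (Metric.ball (0 : E m) 1)).toReal

open Classical in
/-- The `k`-th intrinsic volume of a zonotope `Z` (a set): the value of `V k p` for a family `p` of
vectors generating `Z`. (It does not depend on the family, see `intrinsicVolume_eq`; the value is
`0` by convention when `Z` is not a zonotope.) -/
noncomputable def intrinsicVolume {d : ℕ} (k : ℕ) (Z : Set (E d)) : ℝ :=
  if h : ∃ (n : ℕ) (p : Fin n → E d), Generates p Z then V k h.choose_spec.choose else 0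

/-- Mean width of the zonotope `Z`: `2 κ_{d-1} / (d κ_d) · V_1(Z)`. -/
noncomputable def meanWidth {d : ℕ} (Z : Set (E d)) : ℝ :=
  2 * κ (d - 1) / (d * κ d) * intrinsicVolume 1 Z

/-- The class `𝒵_{d,n}`: translates of zonotopes `∑ [o, p i]` with `n` generators that
span `ℝ^d`. -/
def ZonotopeClass (d n : ℕ) : Set (Set (E d)) :=
  {Z | ∃ p : Fin n → E d, Submodule.span ℝ (Set.range p) = ⊤ ∧ Generates p Z}

/-- `q` lists the vertices of a regular simplex centred at the origin. -/
def IsCentredRegularSimplex {d : ℕ} (q : Fin (d + 1) → E d) : Prop :=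
  (∃ c : ℝ, 0 < c ∧ ∀ i j, i ≠ j → dist (q i) (q j) = c) ∧ ∑ i, q i = 0

/-- A regular rhombic dodecahedron: a translate of `∑ [o, q i]` with `q` the vertices of a regular
simplex centred at the origin. -/
def IsRegularRD {d : ℕ} (Z : Set (E d)) : Prop :=
  ∃ q : Fin (d + 1) → E d, IsCentredRegularSimplex q ∧ Generates q Z

end Pool.Agent.H76
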