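import Mathlib
import Pool.Agent.H76.ZonoDefs

set_option autoImplicit false

namespace Pool.Agent.H76

open Finset
open scoped Pointwise

/-- Linear independence of the functions `u ↦ |⟪w, u⟫|`, in the form needed for zonotopes. -/
theorem sum_homogeneous_eq_zero {d : ℕ} {ι : Type*} [DecidableEq ι] (w : ι → E d) (c : ι → ℝ)
    (g : E d → ℝ) (hg : ∀ (t : ℝ) (v : E d), g (t • v) = |t| * g v) :
    ∀ (N : ℕ) (S : Finset ι), S.card ≤ N →
      (∀ u : E d, ∑ l ∈ S, c l * |(inner ℝ (w l) u : ℝ)| = 0) → ∑ l ∈ S, c l * g (w l) = 0 := by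
  classical
  have hg0 : g 0 = 0 := by simpa using hg 0 0
  intro N
  induction N with
  | zero =>
    intro S hS _
    have : S = ∅ := Finset.card_eq_zero.mp (Nat.le_zero.mp hS)
    simp [this]
  | succ N ih =>
    intro S hS hsum
    rcases S.eq_empty_or_nonempty with rfl | ⟨m, hm⟩
    · simp
    by_cases hwm : w m = 0
    · have h1 : ∑ l ∈ S.erase m, c l * g (w l) = 0 := by
        refine ih _ ?_ ?_
        · rw [Finset.card_erase_of_mem hm]; omega
        · intro u
          have := hsum u
          rw [← Finset.add_sum_erase _ _ hm] at this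
          simpa [hwm] using this
      rw [← Finset.add_sum_erase _ _ hm, h1, hwm, hg0]; simp
    -- main case
    set J := S.filter (fun l => w l ∈ Submodule.span ℝ {w m}) with hJ
    set R := S.filter (fun l => ¬ w l ∈ Submodule.span ℝ {w m}) with hR
    have hsplit : ∀ f : ι → ℝ, ∑ l ∈ S, f l = ∑ l ∈ J, f l + ∑ l ∈ R, f l := fun f =>
      (Finset.sum_filter_add_sum_filter_not S _ f).symm
    have hmJ : m ∈ J := by
      simp [hJ, hm, Submodule.mem_span_singleton_self]
    have hex : ∀ l, ∃ t : ℝ, l ∈ J → w l = t • w m := by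
      intro l
      by_cases hl : l ∈ J
      · have : w l ∈ Submodule.span ℝ {w m} := (Finset.mem_filter.mp hl).2
        obtain ⟨t, ht⟩ := Submodule.mem_span_singleton.mp this
        exact ⟨t, fun _ => ht.symm⟩
      · exact ⟨0, fun h => absurd h hl⟩
    choose t ht using hex
    -- a vector orthogonal to `w m` but to no `w l`, `l ∈ R`
    obtain ⟨u₀, hu₀, hne⟩ : ∃ x ∈ (Submodule.span ℝ {w m})ᗮ, ∀ l : R,
        (innerₛₗ ℝ (w l) : E d →ₗ[ℝ] ℝ) x ≠ 0 := by
      refine Module.Dual.exists_forall_mem_ne_zero_of_forall_exists _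
        (fun l : R => (innerₛₗ ℝ (w l) : E d →ₗ[ℝ] ℝ)) ?_
      rintro ⟨l, hl⟩
      by_contra hcon
      push Not at hcon
      have h1 : w l ∈ (Submodule.span ℝ {w m})ᗮᗮ := by
        rw [Submodule.mem_orthogonal']
        intro u hu
        exact hcon u hu
      rw [Submodule.orthogonal_orthogonal] at h1
      exact (Finset.mem_filter.mp hl).2 h1
    have horth : (inner ℝ (w m) u₀ : ℝ) = 0 :=
      (Submodule.mem_orthogonal_singleton_iff_inner_right.mp hu₀)
    set r : ℝ := ∑ l ∈ R, |(inner ℝ (w l) (w m) : ℝ)| / |(inner ℝ (w l) u₀ : ℝ)| with hr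
    have hbig : ∀ l ∈ R, |(inner ℝ (w l) (w m) : ℝ)| ≤ |(inner ℝ (w l) (r • u₀) : ℝ)| := by
      intro l hl
      have hpos : 0 < |(inner ℝ (w l) u₀ : ℝ)| := abs_pos.mpr (hne ⟨l, hl⟩)
      have h1 : |(inner ℝ (w l) (w m) : ℝ)| / |(inner ℝ (w l) u₀ : ℝ)| ≤ r :=
        Finset.single_le_sum (f := fun l => |(inner ℝ (w l) (w m) : ℝ)| / |(inner ℝ (w l) u₀ : ℝ)|)
          (fun i _ => by positivity) hl
      have hr0 : 0 ≤ r := le_trans (by positivity) h1
      rw [real_inner_smul_right, abs_mul, abs_of_nonneg hr0]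
      exact (div_le_iff₀ hpos).mp h1
    have habs : ∀ a b : ℝ, |b| ≤ |a| → |a + b| + |a - b| - 2 * |a| = 0 := by
      intro a b hab
      rcases le_or_gt 0 a with ha | ha
      · rw [abs_of_nonneg ha] at hab ⊢
        have := abs_le.mp hab
        rw [abs_of_nonneg (by linarith), abs_of_nonneg (by linarith)]; ring
      · rw [abs_of_neg ha] at hab ⊢
        have := abs_le.mp hab
        rw [abs_of_nonpos (by linarith), abs_of_nonpos (by linarith)]; ring
    have hF := congrArg₂ (fun a b => a + b) (hsum (r • u₀ + w m)) (hsum (r • u₀ - w m))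
    have hF0 := hsum (r • u₀)
    have hcomb : ∑ l ∈ S, c l * (|(inner ℝ (w l) (r • u₀) : ℝ) + (inner ℝ (w l) (w m) : ℝ)| +
        |(inner ℝ (w l) (r • u₀) : ℝ) - (inner ℝ (w l) (w m) : ℝ)| -
        2 * |(inner ℝ (w l) (r • u₀) : ℝ)|) = 0 := by
      have : ∑ l ∈ S, c l * (|(inner ℝ (w l) (r • u₀) : ℝ) + (inner ℝ (w l) (w m) : ℝ)| +
        |(inner ℝ (w l) (r • u₀) : ℝ) - (inner ℝ (w l) (w m) : ℝ)| -
        2 * |(inner ℝ (w l) (r • u₀) : ℝ)|) =
        ∑ l ∈ S, c l * |(inner ℝ (w l) (r • u₀ + w m) : ℝ)| +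
        ∑ l ∈ S, c l * |(inner ℝ (w l) (r • u₀ - w m) : ℝ)| -
        2 * ∑ l ∈ S, c l * |(inner ℝ (w l) (r • u₀) : ℝ)| := by
        rw [Finset.mul_sum, ← Finset.sum_add_distrib, ← Finset.sum_sub_distrib]
        refine Finset.sum_congr rfl fun l _ => ?_
        rw [inner_add_right, inner_sub_right]; ring
      rw [this, hsum, hsum, hsum]; simp
    rw [hsplit] at hcomb
    have hRzero : ∑ l ∈ R, c l * (|(inner ℝ (w l) (r • u₀) : ℝ) + (inner ℝ (w l) (w m) : ℝ)| +
        |(inner ℝ (w l) (r • u₀) : ℝ) - (inner ℝ (w l) (w m) : ℝ)| -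
        2 * |(inner ℝ (w l) (r • u₀) : ℝ)|) = 0 := by
      refine Finset.sum_eq_zero fun l hl => ?_
      rw [habs _ _ (hbig l hl), mul_zero]
    have hJval : ∀ l ∈ J, c l * (|(inner ℝ (w l) (r • u₀) : ℝ) + (inner ℝ (w l) (w m) : ℝ)| +
        |(inner ℝ (w l) (r • u₀) : ℝ) - (inner ℝ (w l) (w m) : ℝ)| -
        2 * |(inner ℝ (w l) (r • u₀) : ℝ)|) = (c l * |t l|) * (2 * ‖w m‖ ^ 2) := by
      intro l hl
      rw [ht l hl, real_inner_smul_left, real_inner_smul_left, real_inner_smul_right, horth,
        real_inner_self_eq_norm_sq, mul_zero, mul_zero, zero_add, zero_sub, abs_neg, abs_zero,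
        abs_mul, abs_of_nonneg (sq_nonneg ‖w m‖)]
      ring
    rw [hRzero, add_zero, Finset.sum_congr rfl hJval, ← Finset.sum_mul] at hcomb
    have hA : ∑ l ∈ J, c l * |t l| = 0 := by
      refine (mul_eq_zero.mp hcomb).resolve_right ?_
      have : 0 < ‖w m‖ := norm_pos_iff.mpr hwm
      positivity
    have hJg : ∑ l ∈ J, c l * g (w l) = 0 := by
      rw [Finset.sum_congr rfl (g := fun l => (c l * |t l|) * g (w m)), ← Finset.sum_mul, hA,
        zero_mul]
      intro l hl
      conv_lhs => rw [ht l hl, hg]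
      ring
    have hRg : ∑ l ∈ R, c l * g (w l) = 0 := by
      refine ih R ?_ ?_
      · have : R ⊂ S := by
          refine (Finset.filter_subset _ _).ssubset_of_ne ?_
          intro h
          have : m ∈ R := by rw [hR, h]; exact hm
          exact (Finset.mem_filter.mp this).2 (Submodule.mem_span_singleton_self _)
        have := Finset.card_lt_card this
        omega
      · intro u
        have h1 := hsum u
        rw [hsplit] at h1
        have h2 : ∑ l ∈ J, c l * |(inner ℝ (w l) u : ℝ)| = 0 := by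
          rw [Finset.sum_congr rfl (g := fun l => (c l * |t l|) * |(inner ℝ (w m) u : ℝ)|),
            ← Finset.sum_mul, hA, zero_mul]
          intro l hl
          conv_lhs => rw [ht l hl, real_inner_smul_left, abs_mul]
          ring
        rw [h2, zero_add] at h1
        exact h1
    rw [hsplit, hJg, hRg, add_zero]

/-- Two families with the same width function have the same sums of absolutely homogeneous
functions. -/
theorem sum_homogeneous_eq {d n m : ℕ} (p : Fin n → E d) (q : Fin m → E d)
    (h : ∀ u : E d, ∑ i, |(inner ℝ (p i) u : ℝ)| = ∑ j, |(inner ℝ (q j) u : ℝ)|)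
    (g : E d → ℝ) (hg : ∀ (t : ℝ) (v : E d), g (t • v) = |t| * g v) :
    ∑ i, g (p i) = ∑ j, g (q j) := by
  have := sum_homogeneous_eq_zero (Sum.elim p q) (Sum.elim (fun _ => 1) (fun _ => -1)) g hg
    _ (Finset.univ : Finset (Fin n ⊕ Fin m)) le_rfl ?_
  · simp only [Fintype.sum_sum_type, Sum.elim_inl, Sum.elim_inr, one_mul, neg_one_mul,
      Finset.sum_neg_distrib] at this
    linarith
  · intro u
    simp only [Fintype.sum_sum_type, Sum.elim_inl, Sum.elim_inr, one_mul, neg_one_mul,
      Finset.sum_neg_distrib]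
    have := h u
    linarith

/-- The multi-slot version. -/
theorem sum_multi_eq {d n m : ℕ} (p : Fin n → E d) (q : Fin m → E d)
    (h : ∀ u : E d, ∑ i, |(inner ℝ (p i) u : ℝ)| = ∑ j, |(inner ℝ (q j) u : ℝ)|) :
    ∀ (k : ℕ) (G : (Fin k → E d) → ℝ),
      (∀ (v : Fin k → E d) (a : Fin k) (t : ℝ) (x : E d),
        G (Function.update v a (t • x)) = |t| * G (Function.update v a x)) →
      ∑ f : Fin k → Fin n, G (fun a => p (f a)) = ∑ f : Fin k → Fin m, G (fun a => q (f a)) := by
  intro k
  induction k with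
  | zero =>
    intro G _
    simp only [Finset.univ_unique, Finset.sum_singleton]
    congr 1
    funext a
    exact a.elim0
  | succ k ih =>
    intro G hG
    have e1 : ∀ (r : ℕ) (s : Fin r → E d), ∑ f : Fin (k + 1) → Fin r, G (fun a => s (f a)) =
        ∑ i : Fin r, ∑ f : Fin k → Fin r,
          G (Fin.cons (α := fun _ => E d) (s i) (fun a => s (f a))) := by
      intro r s
      rw [← (Fin.consEquiv (fun _ => Fin r)).sum_comp, Fintype.sum_prod_type]
      refine Finset.sum_congr rfl fun i _ => Finset.sum_congr rfl fun f _ => ?_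
      congr 1
      funext a
      refine Fin.cases ?_ (fun b => ?_) a
      · simp [Fin.consEquiv]
      · simp [Fin.consEquiv]
    rw [e1, e1]
    have e2 : ∀ x : E d, ∑ f : Fin k → Fin n,
          G (Fin.cons (α := fun _ => E d) x (fun a => p (f a))) =
        ∑ f : Fin k → Fin m, G (Fin.cons (α := fun _ => E d) x (fun a => q (f a))) := by
      intro x
      refine ih (fun v => G (Fin.cons (α := fun _ => E d) x v)) ?_
      intro v a t y
      simp only [Fin.cons_update]
      exact hG _ _ _ _
    rw [Finset.sum_congr rfl fun i _ => e2 (p i), Finset.sum_comm]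
    conv_rhs => rw [Finset.sum_comm]
    refine Finset.sum_congr rfl fun f _ => ?_
    refine sum_homogeneous_eq p q h
      (fun x => G (Fin.cons (α := fun _ => E d) x (fun a => q (f a)))) ?_
    intro t v
    have := hG (Fin.cons (α := fun _ => E d) v (fun a => q (f a))) 0 t v
    simpa [Fin.update_cons_zero] using this


lemma mem_zonotope {d n : ℕ} (p : Fin n → E d) (z : E d) :
    z ∈ zonotope p ↔ ∃ t : Fin n → ℝ, (∀ i, 0 ≤ t i ∧ t i ≤ 1) ∧ z = ∑ i, t i • p i := by
  unfold zonotope
  rw [Set.mem_fintype_sum]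
  constructor
  · rintro ⟨g, hg, rfl⟩
    have : ∀ i, ∃ t : ℝ, (0 ≤ t ∧ t ≤ 1) ∧ g i = t • p i := by
      intro i
      have := hg i
      rw [segment_eq_image] at this
      obtain ⟨t, ht, he⟩ := this
      exact ⟨t, ht, by rw [← he]; simp⟩
    choose t ht he using this
    exact ⟨t, ht, Finset.sum_congr rfl fun i _ => he i⟩
  · rintro ⟨t, ht, rfl⟩
    refine ⟨fun i => t i • p i, fun i => ?_, rfl⟩
    rw [segment_eq_image]
    exact ⟨t i, ht i, by simp⟩

/-- The width of a zonotope in direction `u` is `∑ |⟪p i, u⟫|`. -/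
lemma isGreatest_width {d n : ℕ} (p : Fin n → E d) (Z : Set (E d)) (hZ : Generates p Z) (u : E d) :
    IsGreatest {r : ℝ | ∃ z ∈ Z, ∃ z' ∈ Z, r = inner ℝ (z - z') u}
      (∑ i, |(inner ℝ (p i) u : ℝ)|) := by
  obtain ⟨x, rfl⟩ := hZ
  constructor
  · refine ⟨x + ∑ i, (if 0 ≤ (inner ℝ (p i) u : ℝ) then (1 : ℝ) else 0) • p i, ?_,
      x + ∑ i, (if 0 ≤ (inner ℝ (p i) u : ℝ) then (0 : ℝ) else 1) • p i, ?_, ?_⟩
    · refine Set.add_mem_add (Set.mem_singleton x) ?_
      rw [mem_zonotope]
      exact ⟨_, fun i => by split_ifs <;> simp, rfl⟩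
    · refine Set.add_mem_add (Set.mem_singleton x) ?_
      rw [mem_zonotope]
      exact ⟨_, fun i => by split_ifs <;> simp, rfl⟩
    · rw [add_sub_add_left_eq_sub, ← Finset.sum_sub_distrib, sum_inner]
      refine Finset.sum_congr rfl fun i _ => ?_
      by_cases h : 0 ≤ (inner ℝ (p i) u : ℝ)
      · simp only [h, if_true]
        rw [one_smul, zero_smul, sub_zero, abs_of_nonneg h]
      · simp only [h, if_false]
        rw [one_smul, zero_smul, zero_sub, inner_neg_left, abs_of_neg (not_le.mp h)]
  · rintro r ⟨z, hz, z', hz', rfl⟩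
    obtain ⟨_, rfl, y, hy, rfl⟩ := Set.mem_add.mp hz
    obtain ⟨_, hx', y', hy', rfl⟩ := Set.mem_add.mp hz'
    rw [Set.mem_singleton_iff] at hx'
    subst hx'
    obtain ⟨t, ht, rfl⟩ := (mem_zonotope p y).mp hy
    obtain ⟨t', ht', rfl⟩ := (mem_zonotope p y').mp hy'
    rw [add_sub_add_left_eq_sub, ← Finset.sum_sub_distrib, sum_inner]
    refine Finset.sum_le_sum fun i _ => ?_
    rw [← sub_smul, real_inner_smul_left]
    have h1 := ht i
    have h2 := ht' i
    calc (t i - t' i) * (inner ℝ (p i) u : ℝ) ≤ |(t i - t' i) * (inner ℝ (p i) u : ℝ)| :=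
          le_abs_self _
      _ = |t i - t' i| * |(inner ℝ (p i) u : ℝ)| := abs_mul _ _
      _ ≤ 1 * |(inner ℝ (p i) u : ℝ)| := by
          refine mul_le_mul_of_nonneg_right ?_ (abs_nonneg _)
          rw [abs_le]; constructor <;> linarith
      _ = _ := one_mul _

lemma width_eq {d n m : ℕ} (p : Fin n → E d) (q : Fin m → E d) (Z : Set (E d))
    (hp : Generates p Z) (hq : Generates q Z) (u : E d) :
    ∑ i, |(inner ℝ (p i) u : ℝ)| = ∑ j, |(inner ℝ (q j) u : ℝ)| :=
  (isGreatest_width p Z hp u).unique (isGreatest_width q Z hq u)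

/-- `k`-volume of the parallelotope spanned by `k` vectors. -/
noncomputable def parVol {d k : ℕ} (v : Fin k → E d) : ℝ :=
  Real.sqrt (Matrix.det (Matrix.of fun a b : Fin k => (inner ℝ (v a) (v b) : ℝ)))

lemma parVol_update {d k : ℕ} (v : Fin k → E d) (a : Fin k) (t : ℝ) (x : E d) :
    parVol (Function.update v a (t • x)) = |t| * parVol (Function.update v a x) := by
  unfold parVol
  have h : (Matrix.of fun b c : Fin k => (inner ℝ (Function.update v a (t • x) b)
      (Function.update v a (t • x) c) : ℝ)) =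
      Matrix.diagonal (Function.update (fun _ => (1 : ℝ)) a t) *
      (Matrix.of fun b c : Fin k => (inner ℝ (Function.update v a x b)
        (Function.update v a x c) : ℝ)) *
      Matrix.diagonal (Function.update (fun _ => (1 : ℝ)) a t) := by
    ext b c
    rw [Matrix.mul_diagonal, Matrix.diagonal_mul, Matrix.of_apply, Matrix.of_apply]
    have key : ∀ b, Function.update v a (t • x) b =
        (Function.update (fun _ => (1 : ℝ)) a t b) • Function.update v a x b := by
      intro b
      by_cases hb : b = a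
      · subst hb; simp
      · simp [hb]
    rw [key b, key c, real_inner_smul_left, real_inner_smul_right]
    ring
  rw [h, Matrix.det_mul, Matrix.det_mul, Matrix.det_diagonal,
    Finset.prod_update_of_mem (Finset.mem_univ a)]
  simp only [Finset.prod_const_one, mul_one]
  rw [mul_right_comm, Real.sqrt_mul (mul_self_nonneg t), Real.sqrt_mul_self_eq_abs]

/-- number of bijections `Fin k → I`. -/
lemma card_image_eq {n k : ℕ} (I : Finset (Fin n)) (hI : I.card = k) :
    (Finset.univ.filter fun f : Fin k → Fin n => Finset.univ.image f = I).card =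
      k.factorial := by
  classical
  have h1 : Fintype.card (Fin k ≃ I) = k.factorial := by
    have e : Fin k ≃ I := Fintype.equivOfCardEq (by simp [hI])
    rw [Fintype.card_equiv e, Fintype.card_fin]
  rw [← h1, ← Finset.card_univ]
  symm
  refine Finset.card_bij (fun (e : Fin k ≃ I) _ => fun a => (e a : Fin n)) ?_ ?_ ?_
  · intro e _
    rw [Finset.mem_filter]
    refine ⟨Finset.mem_univ _, ?_⟩
    ext x
    simp only [Finset.mem_image, Finset.mem_univ, true_and]
    constructor
    · rintro ⟨a, rfl⟩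
      exact (e a).2
    · intro hx
      exact ⟨e.symm ⟨x, hx⟩, by simp⟩
  · intro e _ e' _ h
    ext a
    exact congrArg Fin.val (congrFun h a)
  · intro f hf
    have hf' : Finset.univ.image f = I := (Finset.mem_filter.mp hf).2
    have hmem : ∀ a, f a ∈ I := fun a => by
      rw [← hf']; exact Finset.mem_image_of_mem f (Finset.mem_univ a)
    let g : Fin k → I := fun a => ⟨f a, hmem a⟩
    have hsurj : Function.Surjective g := by
      rintro ⟨x, hx⟩
      rw [← hf'] at hx
      obtain ⟨a, _, ha⟩ := Finset.mem_image.mp hx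
      exact ⟨a, Subtype.ext ha⟩
    have hbij : Function.Bijective g :=
      (Fintype.bijective_iff_surjective_and_card g).mpr ⟨hsurj, by simp [hI]⟩
    exact ⟨Equiv.ofBijective g hbij, Finset.mem_univ _, rfl⟩

lemma parVol_eq_wedge {d n k : ℕ} (p : Fin n → E d) (I : Finset (Fin n)) (hI : I.card = k)
    (f : Fin k → Fin n) (hf : Finset.univ.image f = I) :
    parVol (fun a => p (f a)) = wedgeNorm p I := by
  classical
  have hmem : ∀ a, f a ∈ I := fun a => by
    rw [← hf]; exact Finset.mem_image_of_mem f (Finset.mem_univ a)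
  let g : Fin k → I := fun a => ⟨f a, hmem a⟩
  have hsurj : Function.Surjective g := by
    rintro ⟨x, hx⟩
    rw [← hf] at hx
    obtain ⟨a, _, ha⟩ := Finset.mem_image.mp hx
    exact ⟨a, Subtype.ext ha⟩
  have hbij : Function.Bijective g :=
    (Fintype.bijective_iff_surjective_and_card g).mpr ⟨hsurj, by simp [hI]⟩
  unfold parVol wedgeNorm
  congr 1
  rw [← Matrix.det_submatrix_equiv_self (Equiv.ofBijective g hbij)]
  rfl

lemma parVol_not_injective {d n k : ℕ} (p : Fin n → E d) (f : Fin k → Fin n)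
    (hf : ¬ Function.Injective f) : parVol (fun a => p (f a)) = 0 := by
  unfold parVol
  simp only [Function.Injective, not_forall] at hf
  obtain ⟨a, b, hab, hne⟩ := hf
  rw [Matrix.det_zero_of_row_eq hne, Real.sqrt_zero]
  funext c
  simp only [Matrix.of_apply, hab]

/-- `k! V_k` as a sum over all ordered `k`-tuples. -/
lemma V_ordered {d n : ℕ} (k : ℕ) (p : Fin n → E d) :
    ∑ f : Fin k → Fin n, parVol (fun a => p (f a)) = k.factorial * V k p := by
  classical
  have h1 : ∀ f : Fin k → Fin n, parVol (fun a => p (f a)) =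
      ∑ I ∈ Finset.univ.powersetCard k, if Finset.univ.image f = I then wedgeNorm p I else 0 := by
    intro f
    by_cases hf : Function.Injective f
    · have hc : (Finset.univ.image f).card = k := by
        rw [Finset.card_image_of_injective _ hf]; simp
      rw [Finset.sum_ite_eq, if_pos]
      · exact parVol_eq_wedge p _ hc f rfl
      · rw [Finset.mem_powersetCard]
        exact ⟨Finset.subset_univ _, hc⟩
    · rw [parVol_not_injective p f hf, Finset.sum_ite_eq, if_neg]
      intro hmem
      apply hf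
      rw [Finset.mem_powersetCard] at hmem
      have : (Finset.univ.image f).card = (Finset.univ : Finset (Fin k)).card := by
        rw [hmem.2]; simp
      have := Finset.card_image_iff.mp this
      intro a b hab
      exact this (by simp) (by simp) hab
  rw [Finset.sum_congr rfl fun f _ => h1 f, Finset.sum_comm, V, Finset.mul_sum]
  refine Finset.sum_congr rfl fun I hI => ?_
  rw [← Finset.sum_filter, Finset.sum_const, card_image_eq I (Finset.mem_powersetCard.mp hI).2,
    nsmul_eq_mul]

theorem V_eq_of_generates {d n m : ℕ} (k : ℕ) (p : Fin n → E d) (q : Fin m → E d) (Z : Set (E d))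
    (hp : Generates p Z) (hq : Generates q Z) : V k p = V k q := by
  have h := sum_multi_eq p q (width_eq p q Z hp hq) k parVol parVol_update
  rw [V_ordered, V_ordered] at h
  have : (k.factorial : ℝ) ≠ 0 := by exact_mod_cast k.factorial_ne_zero
  exact mul_left_cancel₀ this h

theorem intrinsicVolume_eq {d n : ℕ} (k : ℕ) (p : Fin n → E d) (Z : Set (E d))
    (hp : Generates p Z) : intrinsicVolume k Z = V k p := by
  unfold intrinsicVolume
  have h : ∃ (n : ℕ) (p : Fin n → E d), Generates p Z := ⟨n, p, hp⟩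
  rw [dif_pos h]
  exact V_eq_of_generates k _ p Z h.choose_spec.choose_spec hp

lemma V_one {d n : ℕ} (p : Fin n → E d) : V 1 p = ∑ i, ‖p i‖ := by
  have h := V_ordered 1 p
  rw [Nat.factorial_one, Nat.cast_one, one_mul] at h
  rw [← h, ← (Equiv.funUnique (Fin 1) (Fin n)).symm.sum_comp]
  refine Finset.sum_congr rfl fun i _ => ?_
  unfold parVol
  rw [Matrix.det_unique]
  simp only [Matrix.of_apply, Equiv.funUnique_symm_apply, uniqueElim_const]
  rw [real_inner_self_eq_norm_mul_norm, Real.sqrt_mul_self (norm_nonneg _)]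

end Pool.Agent.H76
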