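import Mathlib
import Pool.Agent.H76.Minors
import Pool.Agent.H76.ZonoUnique

set_option autoImplicit false

namespace Pool.Agent.H76

open Finset Matrix
open scoped Pointwise

/-- normalised coordinate matrix -/
noncomputable def nmat {d n : ℕ} (p : Fin n → E d) : Matrix (Fin d) (Fin n) ℝ :=
  Matrix.of fun j i => (p i) j / Real.sqrt ‖p i‖

lemma nmat_gram {d n : ℕ} (p : Fin n → E d) (i l : Fin n) :
    ((nmat p)ᵀ * nmat p) i l = inner ℝ (p i) (p l) / (Real.sqrt ‖p i‖ * Real.sqrt ‖p l‖) := by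
  rw [Matrix.mul_apply, PiLp.inner_apply, Finset.sum_div]
  refine Finset.sum_congr rfl fun j _ => ?_
  simp only [nmat, Matrix.transpose_apply, Matrix.of_apply, RCLike.inner_apply, conj_trivial]
  rw [div_mul_div_comm, mul_comm ((p l).ofLp j)]

lemma inner_eq_sqrt {d n : ℕ} (p : Fin n → E d) (i l : Fin n) :
    (inner ℝ (p i) (p l) : ℝ) =
      Real.sqrt ‖p i‖ * ((nmat p)ᵀ * nmat p) i l * Real.sqrt ‖p l‖ := by
  rw [nmat_gram]
  by_cases h1 : p i = 0
  · simp [h1]
  by_cases h2 : p l = 0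
  · simp [h2]
  have h1' : Real.sqrt ‖p i‖ ≠ 0 := (Real.sqrt_pos.mpr (norm_pos_iff.mpr h1)).ne'
  have h2' : Real.sqrt ‖p l‖ ≠ 0 := (Real.sqrt_pos.mpr (norm_pos_iff.mpr h2)).ne'
  field_simp

lemma gram_det {d n : ℕ} (p : Fin n → E d) (I : Finset (Fin n)) :
    Matrix.det (Matrix.of fun i j : I => (inner ℝ (p i) (p j) : ℝ)) =
      (∏ i ∈ I, ‖p i‖) *
        (((nmat p)ᵀ * nmat p).submatrix (Subtype.val : I → Fin n) Subtype.val).det := by
  have h : (Matrix.of fun i j : I => (inner ℝ (p i) (p j) : ℝ)) =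
      Matrix.diagonal (fun i : I => Real.sqrt ‖p i‖) *
        (((nmat p)ᵀ * nmat p).submatrix (Subtype.val : I → Fin n) Subtype.val) *
        Matrix.diagonal (fun i : I => Real.sqrt ‖p i‖) := by
    ext i j
    rw [Matrix.mul_diagonal, Matrix.diagonal_mul, Matrix.of_apply, Matrix.submatrix_apply]
    exact inner_eq_sqrt p i j
  rw [h, Matrix.det_mul, Matrix.det_mul, Matrix.det_diagonal, mul_right_comm,
    ← Finset.prod_mul_distrib]
  congr 1
  rw [← Finset.prod_coe_sort I (fun i => ‖p i‖)]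
  exact Finset.prod_congr rfl fun i _ => Real.mul_self_sqrt (norm_nonneg (p i))

lemma trace_nmat {d n : ℕ} (p : Fin n → E d) :
    (nmat p * (nmat p)ᵀ).trace = ∑ i, ‖p i‖ := by
  rw [Matrix.trace_mul_comm, Matrix.trace]
  refine Finset.sum_congr rfl fun i _ => ?_
  rw [Matrix.diag_apply, nmat_gram, Real.mul_self_sqrt (norm_nonneg _),
    real_inner_self_eq_norm_mul_norm]
  by_cases h : ‖p i‖ = 0
  · simp [h]
  · field_simp

lemma minor_nonneg {d n : ℕ} (A : Matrix (Fin d) (Fin n) ℝ) (I : Finset (Fin n)) :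
    0 ≤ ((Aᵀ * A).submatrix (Subtype.val : I → Fin n) Subtype.val).det := by
  have h := (Matrix.posSemidef_conjTranspose_mul_self A).submatrix (Subtype.val : I → Fin n)
  rw [Matrix.conjTranspose_eq_transpose_of_trivial] at h
  exact h.det_nonneg

/-- Cauchy-Schwarz step. -/
lemma V_le {d n : ℕ} (k : ℕ) (p : Fin n → E d) :
    V k p ≤ Real.sqrt (esym k fun i => ‖p i‖) * Real.sqrt (pminors k ((nmat p)ᵀ * nmat p)) := by
  unfold V esym pminors
  refine le_trans (le_of_eq (Finset.sum_congr rfl fun I _ => ?_))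
    (Real.sum_sqrt_mul_sqrt_le (Finset.univ.powersetCard k)
      (f := fun I : Finset (Fin n) => ∏ i ∈ I, ‖p i‖)
      (g := fun I => (((nmat p)ᵀ * nmat p).submatrix (Subtype.val : I → Fin n)
        Subtype.val).det)
      (fun I => Finset.prod_nonneg fun i _ => norm_nonneg _) (fun I => minor_nonneg _ I))
  rw [wedgeNorm, gram_det, Real.sqrt_mul (Finset.prod_nonneg fun i _ => norm_nonneg _)]

/-- The maximal value of `V k` at given `S = ∑ ‖p i‖`. -/
noncomputable def bound (d k : ℕ) (S : ℝ) : ℝ :=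
  Real.sqrt ((d + 1).choose k * (S / (d + 1 : ℕ)) ^ k) * Real.sqrt (d.choose k * (S / d) ^ k)

lemma V_bound {d : ℕ} (k : ℕ) (hk : 2 ≤ k) (hkd : k ≤ d) (p : Fin (d + 1) → E d)
    (hS : 0 < ∑ i, ‖p i‖) :
    V k p ≤ bound d k (∑ i, ‖p i‖) ∧
    (V k p = bound d k (∑ i, ‖p i‖) →
      (∀ i, ‖p i‖ = (∑ i, ‖p i‖) / (d + 1 : ℕ)) ∧
      nmat p * (nmat p)ᵀ = ((∑ i, ‖p i‖) / d) • (1 : Matrix _ _ ℝ)) := by
  set S := ∑ i, ‖p i‖ with hSdef
  have h1 := maclaurin k hk (by rw [Fintype.card_fin]; omega) (fun i => ‖p i‖)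
    (fun i => norm_nonneg _) hS
  rw [Fintype.card_fin, ← hSdef] at h1
  have h2 := pminors_bound k hk hkd (nmat p) S hS (trace_nmat p)
  have h0 := V_le k p
  have e0 : 0 ≤ esym k fun i => ‖p i‖ := esym_nonneg k _ fun i => norm_nonneg _
  have p0 : 0 ≤ pminors k ((nmat p)ᵀ * nmat p) :=
    Finset.sum_nonneg fun I _ => minor_nonneg _ I
  have hd0 : (0 : ℝ) < d := by
    have : 0 < d := by omega
    exact_mod_cast this
  have hM1 : 0 < ((d + 1).choose k : ℝ) * (S / (d + 1 : ℕ)) ^ k := by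
    have : 0 < (d + 1).choose k := Nat.choose_pos (by omega)
    have : (0 : ℝ) < (d + 1).choose k := by exact_mod_cast this
    positivity
  have hM2 : 0 < (d.choose k : ℝ) * (S / d) ^ k := by
    have : 0 < d.choose k := Nat.choose_pos hkd
    have : (0 : ℝ) < d.choose k := by exact_mod_cast this
    positivity
  have hs1 := Real.sqrt_le_sqrt h1.1
  have hs2 := Real.sqrt_le_sqrt h2.1
  have hle : Real.sqrt (esym k fun i => ‖p i‖) * Real.sqrt (pminors k ((nmat p)ᵀ * nmat p)) ≤
      bound d k S := mul_le_mul hs1 hs2 (Real.sqrt_nonneg _) (Real.sqrt_nonneg _)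
  refine ⟨h0.trans hle, fun heq => ?_⟩
  have heq2 : Real.sqrt (esym k fun i => ‖p i‖) *
      Real.sqrt (pminors k ((nmat p)ᵀ * nmat p)) = bound d k S :=
    le_antisymm hle (heq ▸ h0)
  have hq1 := Real.sqrt_pos.mpr hM1
  have hq2 := Real.sqrt_pos.mpr hM2
  unfold bound at heq2
  have ha : Real.sqrt (esym k fun i => ‖p i‖) =
      Real.sqrt ((d + 1).choose k * (S / (d + 1 : ℕ)) ^ k) := by
    refine le_antisymm hs1 ?_
    by_contra hcon
    push Not at hcon
    have : Real.sqrt (esym k fun i => ‖p i‖) *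
        Real.sqrt (pminors k ((nmat p)ᵀ * nmat p)) <
        Real.sqrt ((d + 1).choose k * (S / (d + 1 : ℕ)) ^ k) *
        Real.sqrt (d.choose k * (S / d) ^ k) :=
      mul_lt_mul hcon hs2 (by
        by_contra hc
        push Not at hc
        have hc' : Real.sqrt (pminors k ((nmat p)ᵀ * nmat p)) = 0 :=
          le_antisymm hc (Real.sqrt_nonneg _)
        rw [hc', mul_zero] at heq2
        have := mul_pos hq1 hq2
        linarith) hq1.le
    linarith
  have hb : Real.sqrt (pminors k ((nmat p)ᵀ * nmat p)) =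
      Real.sqrt (d.choose k * (S / d) ^ k) := by
    rw [ha] at heq2
    exact mul_left_cancel₀ hq1.ne' heq2
  have ha' : esym k (fun i => ‖p i‖) = (d + 1).choose k * (S / (d + 1 : ℕ)) ^ k := by
    rw [Real.sqrt_inj e0 hM1.le] at ha; exact ha
  have hb' : pminors k ((nmat p)ᵀ * nmat p) = d.choose k * (S / d) ^ k := by
    rw [Real.sqrt_inj p0 hM2.le] at hb; exact hb
  exact ⟨h1.2 ha', h2.2 hb'⟩


/-- Combinatorial core: a symmetric idempotent `n × n` matrix with constant diagonal `1/n` is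
`εᵢ εⱼ / n` for some signs `ε`. -/
lemma signs_of_idempotent {n : ℕ} (M : Matrix (Fin (n + 1)) (Fin (n + 1)) ℝ) (hsym : Mᵀ = M)
    (hid : M * M = M) (hdiag : ∀ i, M i i = 1 / (n + 1 : ℕ)) :
    ∃ ε : Fin (n + 1) → ℝ, (∀ i, ε i = 1 ∨ ε i = -1) ∧
      ∀ i j, M i j = ε i * ε j / (n + 1 : ℕ) := by
  set N : ℝ := ((n + 1 : ℕ) : ℝ) with hN
  have hN0 : 0 < N := by rw [hN]; positivity
  have hs : ∀ i j, M j i = M i j := fun i j => by
    conv_lhs => rw [← hsym]
    rfl
  have hmul : ∀ i j, M i j = ∑ l, M i l * M l j := fun i j => by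
    conv_lhs => rw [← hid]
    rw [Matrix.mul_apply]
  have hrow : ∀ i, ∑ l, M i l ^ 2 = 1 / N := by
    intro i
    rw [← hdiag i, hmul i i]
    refine Finset.sum_congr rfl fun l _ => ?_
    rw [hs i l, sq]
  -- each entry has square at most 1/N^2
  have hle : ∀ i j, M i j ^ 2 ≤ 1 / N ^ 2 := by
    intro i j
    have h1 := Finset.sum_mul_sq_le_sq_mul_sq Finset.univ (fun l => M i l) (fun l => M l j)
    rw [← hmul i j, hrow i] at h1
    have h2 : ∑ l, M l j ^ 2 = 1 / N := by
      rw [← hrow j]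
      exact Finset.sum_congr rfl fun l _ => by rw [hs l j]
    rw [h2] at h1
    calc M i j ^ 2 ≤ 1 / N * (1 / N) := h1
      _ = 1 / N ^ 2 := by ring
  have heq : ∀ i j, M i j ^ 2 = 1 / N ^ 2 := by
    intro i
    have h3 : ∑ l : Fin (n + 1), (1 / N ^ 2 - M i l ^ 2) = 0 := by
      rw [Finset.sum_sub_distrib, hrow, Finset.sum_const, Finset.card_univ, Fintype.card_fin,
        nsmul_eq_mul, ← hN]
      field_simp; ring
    intro j
    have h4 := (Finset.sum_eq_zero_iff_of_nonneg (fun l _ => sub_nonneg.mpr (hle i l))).mp h3 j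
      (Finset.mem_univ j)
    linarith
  set σ : Fin (n + 1) → Fin (n + 1) → ℝ := fun i j => N * M i j with hσ
  have hσ2 : ∀ i j, σ i j ^ 2 = 1 := by
    intro i j
    simp only [hσ, mul_pow, heq]
    field_simp
  have hσpm : ∀ i j, σ i j = 1 ∨ σ i j = -1 := fun i j => sq_eq_one_iff.mp (hσ2 i j)
  have hσs : ∀ i j, σ j i = σ i j := fun i j => by simp only [hσ, hs i j]
  have hprod : ∀ i l j, σ i l * σ l j * σ i j = 1 := by
    intro i l j
    have hle1 : ∀ l, σ i l * σ l j * σ i j ≤ 1 := by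
      intro l
      rcases hσpm i l with h1 | h1 <;> rcases hσpm l j with h2 | h2 <;>
        rcases hσpm i j with h3 | h3 <;> rw [h1, h2, h3] <;> norm_num
    have hsum : ∑ l, (1 - σ i l * σ l j * σ i j) = 0 := by
      rw [Finset.sum_sub_distrib, ← Finset.sum_mul]
      have : ∑ l, σ i l * σ l j = N * σ i j := by
        simp only [hσ]
        rw [hmul i j, Finset.mul_sum, Finset.mul_sum]
        refine Finset.sum_congr rfl fun l _ => by ring
      rw [this, mul_assoc, ← sq, hσ2]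
      simp [hN]
    have := (Finset.sum_eq_zero_iff_of_nonneg (fun l _ => sub_nonneg.mpr (hle1 l))).mp hsum l
      (Finset.mem_univ l)
    linarith
  refine ⟨fun i => σ i 0, fun i => hσpm i 0, fun i j => ?_⟩
  have h5 := hprod i 0 j
  have h6 : σ i j = σ i 0 * σ j 0 := by
    rw [hσs j 0] at h5
    have := hσ2 i j
    have h7 : σ i 0 * σ j 0 * σ i j * σ i j = σ i j := by rw [h5, one_mul]
    rw [mul_assoc, ← sq, this, mul_one] at h7
    exact h7.symm
  have h8 : M i j = σ i j / N := by simp only [hσ]; field_simp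
  rw [h8, h6]


/-- Gram matrix of a centred regular simplex. -/
lemma regular_gram {d : ℕ} (hd : 0 < d) (q : Fin (d + 1) → E d) (c : ℝ) (hc : 0 < c)
    (hdist : ∀ i j, i ≠ j → dist (q i) (q j) = c) (hsum : ∑ i, q i = 0) :
    ∃ a : ℝ, 0 < a ∧ (∀ i, ‖q i‖ = a) ∧
      ∀ i j, (inner ℝ (q i) (q j) : ℝ) =
        a ^ 2 * ((if i = j then ((d + 1 : ℕ) : ℝ) / d else 0) - 1 / d) := by
  have hd0 : (0 : ℝ) < d := by exact_mod_cast hd
  have hin : ∀ i j, i ≠ j → (inner ℝ (q i) (q j) : ℝ) = (‖q i‖ ^ 2 + ‖q j‖ ^ 2 - c ^ 2) / 2 := by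
    intro i j hij
    have h1 := norm_sub_sq_real (q i) (q j)
    rw [← dist_eq_norm, hdist i j hij] at h1
    linarith
  set Q := ∑ j, ‖q j‖ ^ 2 with hQ
  have hi : ∀ i, ((d + 1 : ℕ) : ℝ) * ‖q i‖ ^ 2 + Q = d * c ^ 2 := by
    intro i
    have h0 : (inner ℝ (q i) (∑ j, q j) : ℝ) = 0 := by rw [hsum, inner_zero_right]
    rw [inner_sum, ← Finset.add_sum_erase _ _ (Finset.mem_univ i)] at h0
    have h1 : ∑ j ∈ Finset.univ.erase i, (inner ℝ (q i) (q j) : ℝ) =
        ∑ j ∈ Finset.univ.erase i, ((‖q i‖ ^ 2 - c ^ 2) / 2 + ‖q j‖ ^ 2 / 2) := by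
      refine Finset.sum_congr rfl fun j hj => ?_
      rw [hin i j (Finset.ne_of_mem_erase hj).symm]; ring
    have h2 : ∑ j ∈ Finset.univ.erase i, ‖q j‖ ^ 2 = Q - ‖q i‖ ^ 2 := by
      rw [hQ, ← Finset.add_sum_erase _ (fun j => ‖q j‖ ^ 2) (Finset.mem_univ i)]; ring
    rw [h1, Finset.sum_add_distrib, Finset.sum_const, Finset.card_erase_of_mem (Finset.mem_univ i),
      Finset.card_univ, Fintype.card_fin, Nat.add_sub_cancel, ← Finset.sum_div, h2,
      real_inner_self_eq_norm_sq, nsmul_eq_mul] at h0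
    push_cast
    linarith
  have hall : ∀ i, ‖q i‖ ^ 2 = ‖q 0‖ ^ 2 := by
    intro i
    have h1 := hi i
    have h2 := hi 0
    have h3 : ((d + 1 : ℕ) : ℝ) * (‖q i‖ ^ 2 - ‖q 0‖ ^ 2) = 0 := by linarith
    have h4 : ((d + 1 : ℕ) : ℝ) ≠ 0 := by positivity
    have := (mul_eq_zero.mp h3).resolve_left h4
    linarith
  have hQ2 : Q = ((d + 1 : ℕ) : ℝ) * ‖q 0‖ ^ 2 := by
    rw [hQ, Finset.sum_congr rfl fun j _ => hall j]
    simp
  have hc2 : c ^ 2 = 2 * ((d + 1 : ℕ) : ℝ) * ‖q 0‖ ^ 2 / d := by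
    have := hi 0
    rw [hQ2] at this
    field_simp
    linarith
  have ha : 0 < ‖q 0‖ := by
    rcases (norm_nonneg (q 0)).lt_or_eq with h | h
    · exact h
    · exfalso
      rw [← h] at hc2
      have : 0 < c ^ 2 := by positivity
      rw [hc2] at this
      simp at this
  refine ⟨‖q 0‖, ha, ?_, ?_⟩
  · intro i
    have := hall i
    nlinarith [norm_nonneg (q i), norm_nonneg (q 0), sq_nonneg (‖q i‖ - ‖q 0‖),
      abs_eq_abs.mpr (sq_eq_sq_iff_eq_or_eq_neg.mp this), abs_of_nonneg (norm_nonneg (q i)),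
      abs_of_nonneg (norm_nonneg (q 0))]
  · intro i j
    by_cases hij : i = j
    · subst hij
      rw [if_pos rfl, real_inner_self_eq_norm_sq, hall]
      push_cast
      field_simp
      ring
    · rw [if_neg hij, hin i j hij, hall i, hall j, hc2]
      push_cast
      field_simp
      ring


lemma wedge_regular {d : ℕ} (hd : 0 < d) (q : Fin (d + 1) → E d) (a : ℝ) (ha : 0 < a)
    (hg : ∀ i j, (inner ℝ (q i) (q j) : ℝ) =
        a ^ 2 * ((if i = j then ((d + 1 : ℕ) : ℝ) / d else 0) - 1 / d))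
    (I : Finset (Fin (d + 1))) :
    Matrix.det (Matrix.of fun i j : I => (inner ℝ (q i) (q j) : ℝ)) =
      (a ^ 2 * ((d + 1 : ℕ) : ℝ) / d) ^ I.card * (1 - I.card / ((d + 1 : ℕ) : ℝ)) := by
  have hd0 : (0 : ℝ) < d := by exact_mod_cast hd
  have h : (Matrix.of fun i j : I => (inner ℝ (q i) (q j) : ℝ)) =
      (a ^ 2 * ((d + 1 : ℕ) : ℝ) / d) • (1 + Matrix.replicateCol Unit (fun _ : I => (1 : ℝ)) *
        Matrix.replicateRow Unit (fun _ : I => -(1 / ((d + 1 : ℕ) : ℝ)))) := by
    ext i j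
    rw [Matrix.of_apply, hg, Matrix.smul_apply, Matrix.add_apply, Matrix.mul_apply,
      Matrix.one_apply]
    simp only [Matrix.replicateCol_apply, Matrix.replicateRow_apply, Finset.univ_unique,
      Finset.sum_singleton, smul_eq_mul]
    by_cases hij : i = j
    · subst hij
      simp only [if_true]
      push_cast
      field_simp
      ring
    · have : (i : Fin (d + 1)) ≠ j := fun h => hij (Subtype.ext h)
      simp only [hij, this, if_false]
      push_cast
      field_simp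
      ring
  rw [h, Matrix.det_smul, Matrix.det_one_add_replicateCol_mul_replicateRow, Fintype.card_coe]
  congr 1
  simp only [dotProduct, Finset.sum_const, Finset.card_univ, Fintype.card_coe, nsmul_eq_mul]
  ring

lemma V_regular {d : ℕ} (k : ℕ) (hk : 2 ≤ k) (hkd : k ≤ d) (q : Fin (d + 1) → E d)
    (hq : IsCentredRegularSimplex q) : V k q = bound d k (∑ i, ‖q i‖) := by
  have hd : 0 < d := by omega
  have hd0 : (0 : ℝ) < d := by exact_mod_cast hd
  obtain ⟨⟨c, hc, hdist⟩, hsum⟩ := hq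
  obtain ⟨a, ha, hna, hg⟩ := regular_gram hd q c hc hdist hsum
  have hS : ∑ i, ‖q i‖ = ((d + 1 : ℕ) : ℝ) * a := by
    rw [Finset.sum_congr rfl fun i _ => hna i]; simp
  set N : ℝ := ((d + 1 : ℕ) : ℝ) with hN
  have hN0 : 0 < N := by rw [hN]; positivity
  have hV : V k q = ((d + 1).choose k : ℝ) * Real.sqrt ((a ^ 2 * N / d) ^ k * (1 - k / N)) := by
    unfold V
    rw [Finset.sum_congr rfl (g := fun _ => Real.sqrt ((a ^ 2 * N / d) ^ k * (1 - k / N)))]
    · simp [Finset.card_powersetCard]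
    · intro I hI
      rw [wedgeNorm, wedge_regular hd q a ha hg, (Finset.mem_powersetCard.mp hI).2]
  have hchoose : ((d.choose k : ℕ) : ℝ) = ((d + 1).choose k : ℝ) * (1 - k / N) := by
    have h1 := Nat.choose_mul_succ_eq d k
    have h2 : ((d.choose k * (d + 1) : ℕ) : ℝ) = (((d + 1).choose k * (d + 1 - k) : ℕ) : ℝ) := by
      rw [h1]
    rw [Nat.cast_mul, Nat.cast_mul, Nat.cast_sub (by omega : k ≤ d + 1), ← hN] at h2
    field_simp
    linarith
  rw [hV, bound, hS, ← Real.sqrt_mul (by positivity), hchoose,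
    show N * a / N = a by field_simp]
  have h3 : ((d + 1).choose k : ℝ) * a ^ k * (((d + 1).choose k : ℝ) * (1 - k / N) *
      (N * a / d) ^ k) = ((d + 1).choose k : ℝ) ^ 2 * ((a ^ 2 * N / d) ^ k * (1 - k / N)) := by
    have : (a ^ 2 * N / d) ^ k = a ^ k * (N * a / d) ^ k := by
      rw [← mul_pow]; congr 1; ring
    rw [this]; ring
  rw [h3, Real.sqrt_mul (by positivity) ((a ^ 2 * N / d) ^ k * (1 - k / N)),
    Real.sqrt_sq (by positivity)]

lemma span_regular {d : ℕ} (hd : 0 < d) (q : Fin (d + 1) → E d)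
    (hq : IsCentredRegularSimplex q) : Submodule.span ℝ (Set.range q) = ⊤ := by
  have hd0 : (0 : ℝ) < d := by exact_mod_cast hd
  obtain ⟨⟨c, hc, hdist⟩, hsum⟩ := hq
  obtain ⟨a, ha, hna, hg⟩ := regular_gram hd q c hc hdist hsum
  have hli : LinearIndependent ℝ (fun i : Fin d => q i.castSucc) := by
    rw [Fintype.linearIndependent_iff]
    intro b hb
    have h1 : ∀ j : Fin d, b j * ((d + 1 : ℕ) : ℝ) = ∑ i, b i := by
      intro j
      have h2 : (inner ℝ (∑ i, b i • q i.castSucc) (q j.castSucc) : ℝ) = 0 := by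
        rw [hb, inner_zero_left]
      rw [sum_inner] at h2
      have h3 : ∀ i : Fin d, (inner ℝ (b i • q i.castSucc) (q j.castSucc) : ℝ) =
          a ^ 2 / d * ((if i = j then b i * ((d + 1 : ℕ) : ℝ) else 0) - b i) := by
        intro i
        rw [real_inner_smul_left, hg]
        by_cases hij : i = j
        · subst hij; simp only [if_true]; field_simp
        · have : i.castSucc ≠ j.castSucc := fun h => hij (Fin.castSucc_injective _ h)
          simp only [hij, this, if_false]; field_simp; ring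
      rw [Finset.sum_congr rfl fun i _ => h3 i, ← Finset.mul_sum, Finset.sum_sub_distrib,
        Finset.sum_ite_eq' Finset.univ j] at h2
      simp only [Finset.mem_univ, if_true] at h2
      have h4 : a ^ 2 / d ≠ 0 := by positivity
      have := (mul_eq_zero.mp h2).resolve_left h4
      linarith
    have h5 : (∑ i, b i) * ((d + 1 : ℕ) : ℝ) = d * ∑ i, b i := by
      rw [Finset.sum_mul, Finset.sum_congr rfl fun j _ => h1 j]
      simp
    have h6 : ∑ i, b i = 0 := by
      push_cast at h5; linarith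
    intro j
    have := h1 j
    rw [h6] at this
    have hne : ((d + 1 : ℕ) : ℝ) ≠ 0 := by positivity
    exact (mul_eq_zero.mp this).resolve_right hne
  have htop : Submodule.span ℝ (Set.range fun i : Fin d => q i.castSucc) = ⊤ :=
    hli.span_eq_top_of_card_eq_finrank' (by simp)
  refine top_le_iff.mp (htop ▸ Submodule.span_mono ?_)
  rintro _ ⟨i, rfl⟩
  exact ⟨i.castSucc, rfl⟩

lemma regular_of_gram {d : ℕ} (q : Fin (d + 1) → E d) (b : ℝ) (hb : 0 < b)
    (hg : ∀ i j, (inner ℝ (q i) (q j) : ℝ) =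
        b * ((if i = j then 1 else 0) - 1 / ((d + 1 : ℕ) : ℝ))) :
    IsCentredRegularSimplex q := by
  have hN0 : (0 : ℝ) < ((d + 1 : ℕ) : ℝ) := by positivity
  refine ⟨⟨Real.sqrt (2 * b), by positivity, ?_⟩, ?_⟩
  · intro i j hij
    rw [dist_eq_norm, ← Real.sqrt_sq (norm_nonneg (q i - q j))]
    congr 1
    rw [norm_sub_sq_real, ← real_inner_self_eq_norm_sq, ← real_inner_self_eq_norm_sq, hg, hg, hg]
    simp only [hij, if_true, if_false]
    ring
  · rw [← norm_eq_zero, ← sq_eq_zero_iff, ← real_inner_self_eq_norm_sq, sum_inner]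
    simp only [inner_sum, hg]
    simp only [← Finset.mul_sum, Finset.sum_sub_distrib, Finset.sum_ite_eq, Finset.mem_univ,
      if_true, Finset.sum_const, Finset.card_univ, Fintype.card_fin, nsmul_eq_mul]
    field_simp
    ring

/-- existence of a centred regular simplex -/
lemma exists_regular (d : ℕ) (b : ℝ) (hb : 0 < b) :
    ∃ q : Fin (d + 1) → E d, ∀ i j, (inner ℝ (q i) (q j) : ℝ) =
        b * ((if i = j then 1 else 0) - 1 / ((d + 1 : ℕ) : ℝ)) := by
  set N : ℝ := ((d + 1 : ℕ) : ℝ) with hN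
  have hN0 : 0 < N := by rw [hN]; positivity
  let w : E (d + 1) := ∑ i, EuclideanSpace.single i (1 : ℝ)
  have hwi : ∀ i, (inner ℝ w (EuclideanSpace.single i (1 : ℝ)) : ℝ) = 1 := by
    intro i
    simp only [w, sum_inner, EuclideanSpace.inner_single_left, map_one, one_mul,
      PiLp.single_apply]
    simp
  have hww : (inner ℝ w w : ℝ) = N := by
    conv_lhs => rw [show w = ∑ i, EuclideanSpace.single i (1 : ℝ) from rfl]
    rw [sum_inner]
    have : ∀ i, (inner ℝ (EuclideanSpace.single i (1 : ℝ)) w : ℝ) = 1 := fun i => by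
      rw [real_inner_comm, hwi]
    rw [show (∑ i, EuclideanSpace.single i (1 : ℝ) : E (d + 1)) = w from rfl]
    rw [Finset.sum_congr rfl fun i _ => this i]
    simp [hN]
  have hw0 : w ≠ 0 := by
    intro h
    rw [h, inner_zero_left] at hww
    linarith
  let K : Submodule ℝ (E (d + 1)) := (Submodule.span ℝ {w})ᗮ
  have hK : Module.finrank ℝ K = d := by
    have : Fact (Module.finrank ℝ (E (d + 1)) = d + 1) := ⟨by simp⟩
    exact Submodule.finrank_orthogonal_span_singleton hw0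
  let φ : K ≃ₗᵢ[ℝ] E d := ((stdOrthonormalBasis ℝ K).reindex (finCongr hK)).repr
  let r : Fin (d + 1) → E (d + 1) := fun i => EuclideanSpace.single i (1 : ℝ) - (1 / N) • w
  have hr : ∀ i, r i ∈ K := by
    intro i
    rw [Submodule.mem_orthogonal_singleton_iff_inner_right]
    simp only [r, inner_sub_right, hwi, real_inner_smul_right, hww]
    field_simp; ring
  refine ⟨fun i => Real.sqrt b • φ ⟨r i, hr i⟩, fun i j => ?_⟩
  rw [real_inner_smul_left, real_inner_smul_right, LinearIsometryEquiv.inner_map_map,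
    Submodule.coe_inner, ← mul_assoc, Real.mul_self_sqrt hb.le]
  congr 1
  simp only [r, inner_sub_left, inner_sub_right, real_inner_smul_left, real_inner_smul_right, hww,
    hwi]
  rw [real_inner_comm w (EuclideanSpace.single i (1 : ℝ)), hwi]
  simp only [EuclideanSpace.inner_single_left, map_one, one_mul, PiLp.single_apply]
  field_simp
  ring


lemma generates_signs {d n : ℕ} (p : Fin n → E d) (Z : Set (E d)) (hp : Generates p Z)
    (ε : Fin n → ℝ) (hε : ∀ i, ε i = 1 ∨ ε i = -1) : Generates (fun i => ε i • p i) Z := by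
  obtain ⟨x, rfl⟩ := hp
  refine ⟨x + ∑ i, ((1 - ε i) / 2) • p i, ?_⟩
  rw [← Set.singleton_add_singleton, add_assoc]
  congr 1
  ext z
  rw [mem_zonotope, Set.singleton_add, Set.mem_image]
  constructor
  · rintro ⟨t, ht, rfl⟩
    refine ⟨∑ i, (ε i * t i + (1 - ε i) / 2) • (ε i • p i), ?_, ?_⟩
    · rw [mem_zonotope]
      refine ⟨_, fun i => ?_, rfl⟩
      rcases hε i with h | h <;> rw [h] <;> have := ht i <;> constructor <;> linarith
    · rw [← Finset.sum_add_distrib]
      refine Finset.sum_congr rfl fun i _ => ?_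
      rw [smul_smul, ← add_smul]
      congr 1
      rcases hε i with h | h <;> rw [h] <;> ring
  · rintro ⟨y, hy, rfl⟩
    obtain ⟨t, ht, rfl⟩ := (mem_zonotope _ _).mp hy
    refine ⟨fun i => ε i * t i + (1 - ε i) / 2, fun i => ?_, ?_⟩
    · beta_reduce
      rcases hε i with h | h <;> rw [h] <;> have := ht i <;> constructor <;> linarith
    · rw [← Finset.sum_add_distrib]
      refine Finset.sum_congr rfl fun i _ => ?_
      beta_reduce
      rw [smul_smul, ← add_smul]
      congr 1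
      rcases hε i with h | h <;> rw [h] <;> ring

/-- equality case -/
lemma regular_of_equality {d : ℕ} (hd : 0 < d) (p : Fin (d + 1) → E d) (S : ℝ) (hS : 0 < S)
    (hn : ∀ i, ‖p i‖ = S / (d + 1 : ℕ))
    (hT : nmat p * (nmat p)ᵀ = (S / d) • (1 : Matrix (Fin d) (Fin d) ℝ)) :
    ∃ ε : Fin (d + 1) → ℝ, (∀ i, ε i = 1 ∨ ε i = -1) ∧
      IsCentredRegularSimplex (fun i => ε i • p i) := by
  have hd0 : (0 : ℝ) < d := by exact_mod_cast hd
  have hN0 : (0 : ℝ) < ((d + 1 : ℕ) : ℝ) := by positivity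
  set G := (nmat p)ᵀ * nmat p with hG
  have hGG : G * G = (S / d) • G := by
    rw [hG, Matrix.mul_assoc, ← Matrix.mul_assoc (nmat p) (nmat p)ᵀ (nmat p), hT,
      Matrix.smul_mul, Matrix.one_mul, Matrix.mul_smul]
  set M : Matrix (Fin (d + 1)) (Fin (d + 1)) ℝ := 1 - (d / S) • G with hM
  have hGsym : Gᵀ = G := by
    rw [hG, Matrix.transpose_mul, Matrix.transpose_transpose]
  have hGii : ∀ i, G i i = S / (d + 1 : ℕ) := by
    intro i
    rw [hG, nmat_gram, Real.mul_self_sqrt (norm_nonneg _), real_inner_self_eq_norm_mul_norm, hn]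
    have : S / ((d + 1 : ℕ) : ℝ) ≠ 0 := by positivity
    rw [mul_self_div_self]
  obtain ⟨ε, hε, hMε⟩ := signs_of_idempotent M
    (by rw [hM, Matrix.transpose_sub, Matrix.transpose_one, Matrix.transpose_smul, hGsym])
    (by
      rw [hM, Matrix.sub_mul, Matrix.one_mul, Matrix.mul_sub, Matrix.mul_one, Matrix.smul_mul,
        Matrix.mul_smul, hGG, smul_smul, smul_smul]
      have : (d : ℝ) / S * (d / S) * (S / d) = d / S := by field_simp
      rw [this, sub_self, sub_zero])
    (by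
      intro i
      rw [hM, Matrix.sub_apply, Matrix.one_apply_eq, Matrix.smul_apply, hGii, smul_eq_mul]
      push_cast
      field_simp
      ring)
  refine ⟨ε, hε, regular_of_gram _ (S ^ 2 / (d * (d + 1 : ℕ))) (by positivity) ?_⟩
  intro i j
  have hGij : G i j = S / d * ((if i = j then 1 else 0) - ε i * ε j / (d + 1 : ℕ)) := by
    rw [← hMε i j, hM, Matrix.sub_apply, Matrix.one_apply, Matrix.smul_apply, smul_eq_mul]
    field_simp
    ring
  have hij : (inner ℝ (p i) (p j) : ℝ) = S / (d + 1 : ℕ) * G i j := by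
    rw [inner_eq_sqrt, ← hG, hn i, hn j, mul_right_comm, Real.mul_self_sqrt (by positivity)]
  rw [real_inner_smul_left, real_inner_smul_right, hij, hGij]
  by_cases h : i = j
  · subst h
    simp only [if_true]
    rcases hε i with h | h <;> rw [h] <;> field_simp <;> ring
  · simp only [h, if_false]
    rcases hε i with h1 | h1 <;> rcases hε j with h2 | h2 <;> rw [h1, h2] <;> field_simp <;> ring

lemma κ_pos (m : ℕ) : 0 < κ m := by
  unfold κ
  exact ENNReal.toReal_pos (Metric.measure_ball_pos _ _ one_pos).ne' MeasureTheory.measure_ball_lt_top.ne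

lemma meanWidth_eq {d n : ℕ} (p : Fin n → E d) (Z : Set (E d)) (hp : Generates p Z) :
    meanWidth Z = 2 * κ (d - 1) / (d * κ d) * ∑ i, ‖p i‖ := by
  rw [meanWidth, intrinsicVolume_eq 1 p Z hp, V_one]

end Pool.Agent.H76
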